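import Pool.Agent.Helper562.AltG.DefsPlanar

noncomputable section

namespace AltGenus562

open Set Topology unitInterval

theorem cdir_coe (z : ℂ) (hz : z ≠ 0) : (cdir z : ℂ) = z / ‖z‖ := by
  have h0 : (‖z‖ : ℂ) ≠ 0 := by simpa using hz
  rw [cdir, Circle.coe_exp, eq_div_iff h0, mul_comm]
  exact Complex.norm_mul_exp_arg_mul_I z

theorem cdir_continuousAt (z : ℂ) (hz : z ≠ 0) : ContinuousAt cdir z := by
  have hind : Topology.IsInducing (fun w : Circle => (w : ℂ)) := Topology.IsInducing.subtypeVal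
  rw [hind.continuousAt_iff]
  have h1 : ContinuousAt (fun w : ℂ => w / (‖w‖ : ℂ)) z := by
    have h0 : (‖z‖ : ℂ) ≠ 0 := by simpa using hz
    refine ContinuousAt.div continuousAt_id ?_ h0
    exact (Complex.continuous_ofReal.comp continuous_norm).continuousAt
  refine h1.congr ?_
  filter_upwards [isOpen_compl_singleton.mem_nhds hz] with w hw
  exact (cdir_coe w hw).symm

theorem hroot_sq (z : ℂ) (hz : z ≠ 0) : hroot z ^ 2 = cdir z := by
  have hI : Complex.I * z ≠ 0 := mul_ne_zero Complex.I_ne_zero hz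
  have h1 := cdir_coe _ hI
  rw [cdir, Circle.coe_exp] at h1
  have h2 : hroot z ^ 2 = Circle.exp (Complex.arg (Complex.I * z) - Real.pi / 2) := by
    rw [hroot, sq, ← Circle.exp_add]
    congr 1
    ring
  rw [h2]
  apply Circle.ext
  rw [Circle.coe_exp, cdir_coe z hz]
  have h3 : ((Complex.arg (Complex.I * z) - Real.pi / 2 : ℝ) : ℂ) * Complex.I =
      (Complex.arg (Complex.I * z) : ℂ) * Complex.I + -(Real.pi / 2 : ℂ) * Complex.I := by
    push_cast; ring
  rw [h3, Complex.exp_add, h1]
  have h4 : Complex.exp (-(Real.pi / 2 : ℂ) * Complex.I) = -Complex.I := by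
    rw [neg_mul, Complex.exp_neg, Complex.exp_pi_div_two_mul_I, Complex.inv_I]
  rw [h4, norm_mul, Complex.norm_I, one_mul]
  rw [div_mul_eq_mul_div]
  congr 1
  calc Complex.I * z * -Complex.I = -(Complex.I * Complex.I) * z := by ring
    _ = z := by rw [Complex.I_mul_I]; ring

-- TARGET
theorem thetaP_cont {n : ℕ} (a : Fin n → ℝ) :
    ContinuousOn (thetaP a) {x | ∀ k, x ≠ (a k : ℂ)} := by
  have h : thetaP a = fun x => ∏ k, cdir (x - a k) := rfl
  rw [h]
  refine continuousOn_finsetProd _ fun k _ => ?_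
  intro x hx
  have h1 : x - (a k : ℂ) ≠ 0 := sub_ne_zero.2 (hx k)
  have h2 : ContinuousAt (fun x : ℂ => x - (a k : ℂ)) x := (continuous_sub_right _).continuousAt
  exact (ContinuousAt.comp (f := fun x : ℂ => x - (a k : ℂ)) (cdir_continuousAt _ h1) h2).continuousWithinAt

-- TARGET
theorem xiP_sq {n : ℕ} (a : Fin n → ℝ) (x : ℂ) (hx : ∀ k, x ≠ (a k : ℂ)) :
    xiP a x ^ 2 = thetaP a x := by
  unfold xiP thetaP
  rw [← Finset.prod_pow]
  exact Finset.prod_congr rfl fun k _ => hroot_sq _ (sub_ne_zero.2 (hx k))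

-- TARGET
/-- `hroot` is continuous off the closed positive imaginary axis. -/
theorem continuousAt_hroot (z : ℂ) (hz : ¬ (z.re = 0 ∧ 0 ≤ z.im)) : ContinuousAt hroot z := by
  have hs : Complex.I * z ∈ Complex.slitPlane := by
    rw [Complex.mem_slitPlane_iff]
    simp only [Complex.mul_re, Complex.mul_im, Complex.I_re, Complex.I_im, zero_mul, one_mul,
      zero_sub, zero_add]
    by_contra hcon
    push Not at hcon
    exact hz ⟨hcon.2, by linarith [hcon.1]⟩
  have h1 : ContinuousAt (fun z : ℂ => Complex.arg (Complex.I * z)) z :=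
    ContinuousAt.comp (f := fun z : ℂ => Complex.I * z) (Complex.continuousAt_arg hs)
      (continuous_const_mul _).continuousAt
  have h2 : ContinuousAt (fun z : ℂ => (Complex.arg (Complex.I * z) - Real.pi / 2) / 2) z :=
    (h1.sub continuousAt_const).div_const 2
  exact ContinuousAt.comp (g := fun t : ℝ => Circle.exp t) Circle.exp.continuous.continuousAt h2

end AltGenus562
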