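import Pool.Agent.Helper562.AltG.DefsPlanar
import Pool.Agent.Helper562.AltG.P.F2

noncomputable section

namespace AltGenus562

open Set Topology unitInterval

-- TARGET
theorem hroot_sq_9584 (a : ℝ) (x : ℂ) (hx : x ≠ (a : ℂ)) : hroot (x - a) ^ 2 = cdir (x - a) := by
  have h := xiP_sq (n := 1) (fun _ => a) x (fun _ => hx)
  simpa [xiP, thetaP] using h

theorem cdir_exp_9584 (r φ : ℝ) (hr : 0 < r) : cdir ((r : ℂ) * Complex.exp (φ * Complex.I)) = Circle.exp φ := by
  apply Circle.ext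
  rw [cdir, Circle.coe_exp, Circle.coe_exp]
  have h := Complex.norm_mul_exp_arg_mul_I ((r : ℂ) * Complex.exp (φ * Complex.I))
  have h2 : ‖(r : ℂ) * Complex.exp (φ * Complex.I)‖ = r := by
    rw [norm_mul, Complex.norm_exp_ofReal_mul_I, mul_one, Complex.norm_real, Real.norm_of_nonneg hr.le]
  rw [h2] at h
  have h3 : (r : ℂ) ≠ 0 := by exact_mod_cast hr.ne'
  exact mul_left_cancel₀ h3 h

/-- There is no continuous square root of the direction around the puncture. -/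
theorem thetaP_noSqrt {n : ℕ} (a : Fin n → ℝ) (δ : ℝ) (hδ : 0 < δ)
    (ha : ∀ j k, j ≠ k → 2 * δ ≤ |a j - a k|) (k : Fin n) (ε : ℝ) (hε : 0 < ε) :
    ¬ ∃ s : ℂ → Circle, ContinuousOn s (Metric.ball (a k : ℂ) ε \ {(a k : ℂ)}) ∧
      ∀ x ∈ Metric.ball (a k : ℂ) ε \ {(a k : ℂ)}, s x ^ 2 = thetaP a x := by
  classical
  rintro ⟨s, hs, hsq⟩
  set η := min ε δ with hη
  have hη0 : 0 < η := lt_min hε hδ
  have hηε : η ≤ ε := min_le_left _ _
  have hηδ : η ≤ δ := min_le_right _ _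
  let x : ℝ → ℂ := fun φ => (a k : ℂ) + ((η / 2 : ℝ) : ℂ) * Complex.exp (φ * Complex.I)
  have hxc : Continuous x := by
    show Continuous (fun φ : ℝ => (a k : ℂ) + ((η / 2 : ℝ) : ℂ) * Complex.exp (φ * Complex.I))
    fun_prop
  have hxk : ∀ φ, x φ - (a k : ℂ) = ((η / 2 : ℝ) : ℂ) * Complex.exp (φ * Complex.I) := by
    intro φ
    show (a k : ℂ) + ((η / 2 : ℝ) : ℂ) * Complex.exp (φ * Complex.I) - (a k : ℂ) = _
    ring
  have hxn : ∀ φ, ‖x φ - (a k : ℂ)‖ = η / 2 := by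
    intro φ
    rw [hxk, norm_mul, Complex.norm_exp_ofReal_mul_I, mul_one, Complex.norm_real,
      Real.norm_of_nonneg (by positivity)]
  have hxne : ∀ φ, x φ ≠ (a k : ℂ) := by
    intro φ h
    have := hxn φ
    rw [h, sub_self, norm_zero] at this
    linarith
  have hxmem : ∀ φ, x φ ∈ Metric.ball (a k : ℂ) ε \ {(a k : ℂ)} := by
    intro φ
    refine ⟨?_, hxne φ⟩
    rw [Metric.mem_ball, dist_eq_norm, hxn]
    linarith
  have hre : ∀ j, j ≠ k → ∀ φ, (x φ - (a j : ℂ)).re ≠ 0 := by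
    intro j hj φ h0
    have h1 := ha j k hj
    have h2 : |(x φ - (a k : ℂ)).re| ≤ η / 2 := by
      rw [← hxn φ]; exact Complex.abs_re_le_norm _
    rw [Complex.sub_re, Complex.ofReal_re] at h0 h2
    have h3 : (x φ).re = a j := by linarith
    rw [h3] at h2
    linarith
  have hxj : ∀ j, j ≠ k → ∀ φ, x φ ≠ (a j : ℂ) := by
    intro j hj φ h
    apply hre j hj φ
    rw [h, sub_self, Complex.zero_re]
  let P : ℝ → Circle := fun φ => ∏ j ∈ Finset.univ.erase k, hroot (x φ - (a j : ℂ))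
  have hPc : Continuous P := by
    show Continuous (fun φ => ∏ j ∈ Finset.univ.erase k, hroot (x φ - (a j : ℂ)))
    refine continuous_finsetProd _ fun j hj => ?_
    have hj' : j ≠ k := Finset.ne_of_mem_erase hj
    rw [continuous_iff_continuousAt]
    intro φ
    have h1 : ContinuousAt hroot (x φ - (a j : ℂ)) :=
      continuousAt_hroot _ (fun h => hre j hj' φ h.1)
    exact ContinuousAt.comp (f := fun φ => x φ - (a j : ℂ)) h1 (hxc.sub continuous_const).continuousAt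
  have hsc : Continuous (fun φ => s (x φ)) := by
    rw [← continuousOn_univ]
    exact hs.comp hxc.continuousOn (fun φ _ => hxmem φ)
  have hPsq : ∀ φ, s (x φ) ^ 2 = Circle.exp φ * P φ ^ 2 := by
    intro φ
    rw [hsq _ (hxmem φ)]
    show ∏ j, cdir (x φ - a j) = Circle.exp φ * (∏ j ∈ Finset.univ.erase k, hroot (x φ - (a j : ℂ))) ^ 2
    rw [← Finset.prod_pow, ← Finset.mul_prod_erase _ _ (Finset.mem_univ k)]
    congr 1
    · rw [hxk, cdir_exp_9584 _ _ (by positivity)]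
    · refine Finset.prod_congr rfl fun j hj => ?_
      rw [hroot_sq_9584 _ _ (hxj j (Finset.ne_of_mem_erase hj) φ)]
  let U : ℝ → Circle := fun φ => s (x φ) * (P φ)⁻¹ * Circle.exp (-φ / 2)
  have hUc : Continuous U := by
    show Continuous (fun φ => s (x φ) * (P φ)⁻¹ * Circle.exp (-φ / 2))
    refine (hsc.mul hPc.inv).mul ?_
    fun_prop
  have hU2 : ∀ φ, U φ ^ 2 = 1 := by
    intro φ
    show (s (x φ) * (P φ)⁻¹ * Circle.exp (-φ / 2)) ^ 2 = 1
    rw [mul_pow, mul_pow, hPsq, inv_pow, mul_inv_cancel_right, sq, ← Circle.exp_add, ← Circle.exp_add]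
    have : φ + (-φ / 2 + -φ / 2) = 0 := by ring
    rw [this, Circle.exp_zero]
  have hcon : U 0 = U (2 * Real.pi) := by
    have h1 := isPreconnected_univ.eq_one_or_eq_neg_one_of_sq_eq (f := fun φ : ℝ => ((U φ : Circle) : ℂ))
      (continuous_subtype_val.comp hUc).continuousOn (by
        intro φ _
        show ((U φ : Circle) : ℂ) ^ 2 = 1
        rw [← Circle.coe_pow, hU2, Circle.coe_one])
    apply Circle.ext
    rcases h1 with h | h
    · have e1 : ((U 0 : Circle) : ℂ) = 1 := h (mem_univ 0)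
      have e2 : ((U (2 * Real.pi) : Circle) : ℂ) = 1 := h (mem_univ _)
      rw [e1, e2]
    · have e1 : ((U 0 : Circle) : ℂ) = -1 := h (mem_univ 0)
      have e2 : ((U (2 * Real.pi) : Circle) : ℂ) = -1 := h (mem_univ _)
      rw [e1, e2]
  have hx0 : x (2 * Real.pi) = x 0 := by
    show (a k : ℂ) + ((η / 2 : ℝ) : ℂ) * Complex.exp (((2 * Real.pi : ℝ) : ℂ) * Complex.I) =
      (a k : ℂ) + ((η / 2 : ℝ) : ℂ) * Complex.exp (((0 : ℝ) : ℂ) * Complex.I)
    push_cast
    rw [Complex.exp_two_pi_mul_I, zero_mul, Complex.exp_zero]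
  have hP0 : P (2 * Real.pi) = P 0 := by
    show (∏ j ∈ Finset.univ.erase k, hroot (x (2 * Real.pi) - (a j : ℂ))) = ∏ j ∈ Finset.univ.erase k, hroot (x 0 - (a j : ℂ))
    rw [hx0]
  have h1 : s (x 0) * (P 0)⁻¹ * Circle.exp (-0 / 2) = s (x (2 * Real.pi)) * (P (2 * Real.pi))⁻¹ * Circle.exp (-(2 * Real.pi) / 2) := hcon
  rw [hx0, hP0] at h1
  have h2 := mul_left_cancel h1
  have h3 : (-0 / 2 : ℝ) = 0 := by norm_num
  have h4 : -(2 * Real.pi) / 2 = -Real.pi := by ring
  rw [h3, h4, Circle.exp_zero, Circle.exp_neg, eq_comm, inv_eq_one] at h2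
  exact Circle.exp_pi_ne_one h2

end AltGenus562
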