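import Pool.Agent.Helper562.AltG.DefsPlanar

noncomputable section

namespace AltGenus562

open Set Topology unitInterval

-- TARGET
theorem continuousOn_bump (a δ : ℝ) (hδ : 0 < δ) : ContinuousOn (bump a δ) {x | x ≠ (a : ℂ)} := by
  intro x hx
  apply ContinuousAt.continuousWithinAt
  rcases lt_trichotomy x.im 0 with h | h | h
  · have : (fun _ : ℂ => (0 : ℝ)) =ᶠ[𝓝 x] bump a δ := by
      filter_upwards [(isOpen_lt Complex.continuous_im continuous_const).mem_nhds h] with y hy
      have hy' : ¬ 0 < y.im := not_lt.mpr (le_of_lt hy)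
      simp [bump, hy']
    exact continuousAt_const.congr this
  · have hne : x.re ≠ a := by
      intro h'
      apply hx
      apply Complex.ext
      · simpa using h'
      · simpa using h
    set r := |x.re - a| with hr
    have hrpos : 0 < r := abs_pos.mpr (sub_ne_zero.mpr hne)
    have : (fun _ : ℂ => (0 : ℝ)) =ᶠ[𝓝 x] bump a δ := by
      have h1 : ∀ᶠ y : ℂ in 𝓝 x, r / 2 < |y.re - a| := by
        have hc : Continuous fun y : ℂ => |y.re - a| := by fun_prop
        exact (isOpen_lt continuous_const hc).mem_nhds (by show r / 2 < |x.re - a|; linarith)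
      have h2 : ∀ᶠ y : ℂ in 𝓝 x, y.im < r / 2 :=
        (isOpen_lt Complex.continuous_im continuous_const).mem_nhds (by show x.im < r / 2; linarith)
      filter_upwards [h1, h2] with y hy1 hy2
      by_cases hy : 0 < y.im
      · have hm : 0 < min y.im δ := lt_min hy hδ
        have hle : min y.im δ ≤ |y.re - a| := (min_le_left _ _).trans (by linarith)
        have : 1 ≤ |y.re - a| / min y.im δ := (one_le_div hm).mpr hle
        simp only [bump, hy, if_true]
        rw [max_eq_left (by linarith)]
        simp
      · simp [bump, hy]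
    exact continuousAt_const.congr this
  · have : (fun y : ℂ => (1 / 2) * max 0 (1 - |y.re - a| / min y.im δ)) =ᶠ[𝓝 x] bump a δ := by
      filter_upwards [(isOpen_lt continuous_const Complex.continuous_im).mem_nhds h] with y hy
      have hy' : 0 < y.im := hy
      simp [bump, hy']
    refine ContinuousAt.congr ?_ this
    have hm : min x.im δ ≠ 0 := (lt_min h hδ).ne'
    have h1 : ContinuousAt (fun y : ℂ => |y.re - a|) x := by fun_prop
    have h2 : ContinuousAt (fun y : ℂ => min y.im δ) x := by fun_prop
    exact continuousAt_const.mul (continuousAt_const.max (continuousAt_const.sub (h1.div h2 hm)))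

-- TARGET
theorem bump_eq_zero (a δ : ℝ) (hδ : 0 < δ) (x : ℂ) (hx : δ ≤ |x.re - a|) :
    bump a δ x = 0 := by
  by_cases hy : 0 < x.im
  · have hm : 0 < min x.im δ := lt_min hy hδ
    have hle : min x.im δ ≤ |x.re - a| := (min_le_right _ _).trans hx
    have : 1 ≤ |x.re - a| / min x.im δ := (one_le_div hm).mpr hle
    simp only [bump, hy, if_true]
    rw [max_eq_left (by linarith)]
    simp
  · simp [bump, hy]

-- TARGET
theorem bump_eq_half (a δ : ℝ) (hδ : 0 < δ) (x : ℂ) (hx : x.re = a) (hx' : 0 < x.im) :
    bump a δ x = 1 / 2 := by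
  simp [bump, hx', hx]

end AltGenus562
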