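import Pool.Agent.Helper562.AltG.DefsPlanar
import Pool.Agent.Helper562.AltG.P.F1
import Pool.Agent.Helper562.AltG.P.F2

noncomputable section

namespace AltGenus562

open Set Topology unitInterval

theorem aux_circle_sq {u v : Circle} (h : u ^ 2 = v ^ 2) : u = v ∨ u = -v := by
  have h1 : (u : ℂ) ^ 2 = (v : ℂ) ^ 2 := by
    have := congrArg (fun z : Circle => (z : ℂ)) h
    simpa using this
  rcases sq_eq_sq_iff_eq_or_eq_neg.mp h1 with h2 | h2
  · exact Or.inl (Circle.ext h2)
  · exact Or.inr (Circle.ext (by simpa using h2))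

theorem aux_circle_neg_ne (u : Circle) : -u ≠ u := by
  intro h
  have h1 : (-u : ℂ) = (u : ℂ) := by
    have := congrArg (fun z : Circle => (z : ℂ)) h
    simpa using this
  have h2 : (u : ℂ) = 0 := by
    have : (2 : ℂ) * u = 0 := by linear_combination -h1
    simpa using this
  exact Circle.coe_ne_zero u h2

theorem aux_ev_ne {X : Type*} [TopologicalSpace X] {f g : X → Circle} {x : X}
    (hf : ContinuousAt f x) (hg : ContinuousAt g x) (h : f x ≠ g x) :
    ∀ᶠ y in 𝓝 x, f y ≠ g y :=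
  (hf.prodMk hg).preimage_mem_nhds
    ((isClosed_diagonal (X := Circle)).isOpen_compl.mem_nhds (x := (f x, g x)) h)

theorem aux_ce_cont : Continuous ce := by
  unfold ce
  fun_prop

theorem aux_ce_neg (u : ℝ) : ce (-u) = (ce u)⁻¹ := by
  unfold ce
  rw [mul_neg, Circle.exp_neg]

theorem aux_ce_half : ce (1 / 2) = ce (-(1 / 2)) := by
  unfold ce
  rw [Circle.exp_eq_exp]
  exact ⟨1, by push_cast; ring⟩

-- TARGET
theorem FP_cont {n : ℕ} (a : Fin n → ℝ) (δ : ℝ) (hδ : 0 < δ)
    (ha : ∀ j k, j ≠ k → 2 * δ ≤ |a j - a k|) (k : Fin n) :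
    ContinuousOn (FP a δ k) {p | p.1 ∈ {x : ℂ | ∀ k, x ≠ (a k : ℂ)} ∧ p.2 ^ 2 = thetaP a p.1} := by
  classical
  set D : Set (ℂ × Circle) :=
    {p | p.1 ∈ {x : ℂ | ∀ k, x ≠ (a k : ℂ)} ∧ p.2 ^ 2 = thetaP a p.1} with hD
  rintro ⟨x0, ζ0⟩ hp0
  have hx0 : ∀ k, x0 ≠ (a k : ℂ) := hp0.1
  have hζ0 : ζ0 ^ 2 = thetaP a x0 := hp0.2
  have hbc : ContinuousAt (bump (a k) δ) x0 :=
    (continuousOn_bump (a k) δ hδ).continuousAt
      (isOpen_compl_singleton.mem_nhds (hx0 k))
  have hbc' : ContinuousAt (fun p : ℂ × Circle => bump (a k) δ p.1) (x0, ζ0) :=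
    ContinuousAt.comp (f := Prod.fst) (g := bump (a k) δ) (x := (x0, ζ0)) hbc continuousAt_fst
  have hG1 : ContinuousAt (fun p : ℂ × Circle => ce (bump (a k) δ p.1)) (x0, ζ0) :=
    aux_ce_cont.continuousAt.comp hbc'
  have hG2 : ContinuousAt (fun p : ℂ × Circle => ce (-bump (a k) δ p.1)) (x0, ζ0) :=
    aux_ce_cont.continuousAt.comp hbc'.neg
  by_cases hray : ∃ j, x0.re = a j ∧ 0 < x0.im
  · -- both branches agree
    have heq : ce (bump (a k) δ x0) = ce (-bump (a k) δ x0) := by
      obtain ⟨j, hj1, hj2⟩ := hray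
      by_cases hjk : j = k
      · subst hjk
        rw [bump_eq_half (a j) δ hδ x0 hj1 hj2]
        exact aux_ce_half
      · rw [bump_eq_zero (a k) δ hδ x0 (by rw [hj1]; linarith [ha j k hjk])]
        simp
    have hv : FP a δ k (x0, ζ0) = ce (bump (a k) δ x0) := by
      unfold FP
      split_ifs
      · rfl
      · exact heq.symm
    intro U hU
    rw [hv] at hU
    have h1 := hG1 hU
    have h2 := hG2 (show U ∈ 𝓝 (ce (-bump (a k) δ x0)) by rw [← heq]; exact hU)
    have h3 := nhdsWithin_le_nhds (s := D) (Filter.inter_mem h1 h2)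
    refine Filter.mem_map.mpr (Filter.mem_of_superset h3 ?_)
    rintro p ⟨hp1, hp2⟩
    show FP a δ k p ∈ U
    unfold FP
    split_ifs
    · exact hp1
    · exact hp2
  · push Not at hray
    have hxi : ContinuousAt (xiP a) x0 := by
      unfold xiP
      refine tendsto_finsetProd _ fun j _ => ?_
      have h1 : ContinuousAt hroot (x0 - a j) := by
        apply continuousAt_hroot
        rintro ⟨h2, h3⟩
        simp only [Complex.sub_re, Complex.ofReal_re, Complex.sub_im, Complex.ofReal_im,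
          sub_zero] at h2 h3
        have h4 := hray j (by linarith)
        exact hx0 j (Complex.ext (by simp; linarith) (by simp; linarith))
      exact ContinuousAt.comp (f := fun x : ℂ => x - a j) (g := hroot) h1 (by fun_prop)
    have hxi' : ContinuousAt (fun p : ℂ × Circle => xiP a p.1) (x0, ζ0) :=
      ContinuousAt.comp (f := Prod.fst) (g := xiP a) (x := (x0, ζ0)) hxi continuousAt_fst
    by_cases h0 : ζ0 = xiP a x0
    · have hev : ∀ᶠ p : ℂ × Circle in 𝓝 (x0, ζ0), p.2 ≠ -xiP a p.1 := by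
        have h1 : (x0, ζ0).2 ≠ -xiP a (x0, ζ0).1 := by
          show ζ0 ≠ -xiP a x0
          rw [h0]
          exact (aux_circle_neg_ne _).symm
        exact aux_ev_ne continuousAt_snd hxi'.neg h1
      refine (hG1.continuousWithinAt (s := D)).congr_of_eventuallyEq ?_ ?_
      · filter_upwards [nhdsWithin_le_nhds hev, self_mem_nhdsWithin] with p hp1 hp2
        have h2 : p.2 = xiP a p.1 := by
          rcases aux_circle_sq (hp2.2.trans (xiP_sq a p.1 hp2.1).symm) with h | h
          · exact h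
          · exact absurd h hp1
        unfold FP
        rw [if_pos h2]
      · unfold FP
        rw [if_pos h0]
    · have hev : ∀ᶠ p : ℂ × Circle in 𝓝 (x0, ζ0), p.2 ≠ xiP a p.1 :=
        aux_ev_ne continuousAt_snd hxi' h0
      refine (hG2.continuousWithinAt (s := D)).congr_of_eventuallyEq ?_ ?_
      · filter_upwards [nhdsWithin_le_nhds hev] with p hp1
        unfold FP
        rw [if_neg hp1]
      · unfold FP
        rw [if_neg h0]

-- TARGET
theorem FP_anti {n : ℕ} (a : Fin n → ℝ) (δ : ℝ) (k : Fin n) (x : ℂ)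
    (hx : ∀ k, x ≠ (a k : ℂ)) (ζ : Circle) (hζ : ζ ^ 2 = thetaP a x) :
    FP a δ k (x, -ζ) = (FP a δ k (x, ζ))⁻¹ := by
  classical
  by_cases h : ζ = xiP a x
  · have h1 : -ζ ≠ xiP a x := by
      rw [← h]; exact aux_circle_neg_ne ζ
    unfold FP
    simp only
    rw [if_neg h1, if_pos h, aux_ce_neg]
  · have h1 : -ζ = xiP a x := by
      rcases aux_circle_sq (hζ.trans (xiP_sq a x hx).symm) with h2 | h2
      · exact absurd h2 h
      · rw [h2, neg_neg]
    unfold FP
    simp only
    rw [if_pos h1, if_neg h, aux_ce_neg, inv_inv]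

end AltGenus562
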