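import Pool.Agent.Helper562.AltG.DefsPlanar
import Pool.Agent.Helper562.AltG.PlanarSys
import Pool.Agent.Helper562.AltG.P.F1
import Pool.Agent.Helper562.AltG.P.F2
import Pool.Agent.Helper562.AltG.P.F3

noncomputable section

namespace AltGenus562

open Set Topology unitInterval

-- TARGET
theorem planar_locLog {n : ℕ} (a : Fin n → ℝ) (δ : ℝ) (hδ : 0 < δ)
    (ha : ∀ j k, j ≠ k → 2 * δ ≤ |a j - a k|) (k : Fin n) (r : Fin n → ℤ) :
    LocLog ((planarSys a δ hδ ha).comb r) (a k : ℂ) (r k) := by
  classical
  have ce_add : ∀ x y : ℝ, ce (x + y) = ce x * ce y := by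
    intro x y
    simp only [ce, mul_add, Circle.exp_add]
  have ce_neg : ∀ x : ℝ, ce (-x) = (ce x)⁻¹ := by
    intro x
    simp only [ce, mul_neg, Circle.exp_neg]
  have ce_one : ce 1 = 1 := by
    simp [ce]
  have ce_zero : ce 0 = 1 := by
    simp [ce]
  have ce_nat : ∀ (m : ℕ) (x : ℝ), ce (m * x) = ce x ^ m := by
    intro m x
    induction m with
    | zero => simp [ce_zero]
    | succ m ih =>
      rw [pow_succ, ← ih, ← ce_add]
      congr 1
      push_cast
      ring
  have ce_int : ∀ (m : ℤ) (x : ℝ), ce (m * x) = ce x ^ m := by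
    intro m x
    obtain ⟨p, rfl | rfl⟩ := m.eq_nat_or_neg
    · rw [zpow_natCast, ← ce_nat]
      simp
    · rw [zpow_neg, zpow_natCast, ← ce_nat, ← ce_neg]
      congr 1
      push_cast
      ring
  -- separation
  have hsep : ∀ x ∈ Metric.ball (a k : ℂ) δ \ {(a k : ℂ)}, ∀ j, j ≠ k → δ ≤ |x.re - a j| := by
    intro x hx j hj
    have h1 : |x.re - a k| < δ := by
      have h2 : |(x - (a k : ℂ)).re| ≤ ‖x - (a k : ℂ)‖ := Complex.abs_re_le_norm _
      have h3 : ‖x - (a k : ℂ)‖ < δ := by
        have := hx.1
        rwa [Metric.mem_ball, dist_eq_norm] at this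
      simp only [Complex.sub_re, Complex.ofReal_re] at h2
      linarith
    have h4 := ha j k hj
    have h5 : |a j - a k| ≤ |x.re - a j| + |x.re - a k| := by
      have : a j - a k = (x.re - a k) - (x.re - a j) := by ring
      rw [this]
      have := abs_sub (x.re - a k) (x.re - a j)
      linarith
    linarith
  have hY : ∀ x ∈ Metric.ball (a k : ℂ) δ \ {(a k : ℂ)}, ∀ j, x ≠ (a j : ℂ) := by
    intro x hx j hj
    by_cases hjk : j = k
    · subst hjk
      exact hx.2 hj
    · have := hsep x hx j hjk
      rw [hj] at this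
      simp at this
      linarith
  have hdich : ∀ x ∈ Metric.ball (a k : ℂ) δ \ {(a k : ℂ)}, ∀ ζ : Circle,
      ζ ^ 2 = thetaP a x → ζ = xiP a x ∨ ζ = -xiP a x := by
    intro x hx ζ hζ
    have h1 := xiP_sq a x (hY x hx)
    have h2 : ζ ^ 2 = xiP a x ^ 2 := by rw [hζ, h1]
    have h3 : (ζ : ℂ) ^ 2 = (xiP a x : ℂ) ^ 2 := by
      have := congrArg (fun z : Circle => (z : ℂ)) h2
      simpa using this
    rcases sq_eq_sq_iff_eq_or_eq_neg.mp h3 with h | h
    · left; exact Circle.ext h
    · right; apply Circle.ext; rw [h]; rfl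
  refine ⟨δ, hδ, fun p => r k * (if p.2 = xiP a p.1 then bump (a k) δ p.1 else 1 - bump (a k) δ p.1),
    ?_, ?_⟩
  · intro p0 hp0
    obtain ⟨hx0, hζ0⟩ := hp0
    have hopen : IsOpen {x : ℂ | x ≠ (a k : ℂ)} := isOpen_ne
    have hb0 : ContinuousAt (bump (a k) δ) p0.1 :=
      (continuousOn_bump (a k) δ hδ).continuousAt (hopen.mem_nhds (hY p0.1 hx0 k))
    have hb : Filter.Tendsto (fun p : ℂ × Circle => bump (a k) δ p.1)
        (𝓝[{p | p.1 ∈ Metric.ball (a k : ℂ) δ \ {(a k : ℂ)} ∧
          p.2 ^ 2 = ((planarSys a δ hδ ha).comb r).θ p.1}] p0) (𝓝 (bump (a k) δ p0.1)) :=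
      (hb0.comp continuousAt_fst).tendsto.mono_left nhdsWithin_le_nhds
    refine ContinuousWithinAt.mul continuousWithinAt_const ?_
    by_cases hray : p0.1.re = a k ∧ 0 ≤ p0.1.im
    · have him : 0 < p0.1.im := by
        rcases hray.2.lt_or_eq with h | h
        · exact h
        · exfalso
          apply hY p0.1 hx0 k
          apply Complex.ext
          · simpa using hray.1
          · simpa using h.symm
      have hhalf := bump_eq_half (a k) δ hδ p0.1 hray.1 him
      show Filter.Tendsto _ _ _
      have hval : (if p0.2 = xiP a p0.1 then bump (a k) δ p0.1 else 1 - bump (a k) δ p0.1) =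
          (1 / 2 : ℝ) := by
        split_ifs
        · exact hhalf
        · rw [hhalf]; norm_num
      beta_reduce
      rw [hval]
      refine Filter.Tendsto.if' ?_ ?_
      · rw [hhalf] at hb
        exact hb
      · have h := (tendsto_const_nhds (x := (1:ℝ))).sub hb
        rw [hhalf] at h
        norm_num at h ⊢
        exact h
    · -- xiP continuous at p0.1
      have hxi : ContinuousAt (xiP a) p0.1 := by
        have h1 : ContinuousAt (fun x : ℂ => ∏ j, hroot (x - a j)) p0.1 := by
          refine tendsto_finsetProd _ fun j _ => ?_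
          have h2 : ContinuousAt hroot (p0.1 - a j) := by
            apply continuousAt_hroot
            rintro ⟨h3, h4⟩
            simp only [Complex.sub_re, Complex.ofReal_re, Complex.sub_im, Complex.ofReal_im,
              sub_zero] at h3 h4
            by_cases hjk : j = k
            · subst hjk
              exact hray ⟨by linarith, h4⟩
            · have := hsep p0.1 hx0 j hjk
              rw [h3] at this
              simp at this
              linarith
          exact ContinuousAt.comp (f := fun x : ℂ => x - a j) h2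
            (continuousAt_id.sub continuousAt_const)
        exact h1
      have hq : Filter.Tendsto (fun p : ℂ × Circle => p.2 / xiP a p.1)
        (𝓝[{p | p.1 ∈ Metric.ball (a k : ℂ) δ \ {(a k : ℂ)} ∧
          p.2 ^ 2 = ((planarSys a δ hδ ha).comb r).θ p.1}] p0) (𝓝 (p0.2 / xiP a p0.1)) := by
        have h1 : ContinuousAt (fun p : ℂ × Circle => p.2 / xiP a p.1) p0 :=
          continuousAt_snd.div' (ContinuousAt.comp (f := fun p : ℂ × Circle => p.1) hxi
            continuousAt_fst)
        exact h1.tendsto.mono_left nhdsWithin_le_nhds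
      have hmem : ∀ᶠ p in (𝓝[{p : ℂ × Circle | p.1 ∈ Metric.ball (a k : ℂ) δ \ {(a k : ℂ)} ∧
          p.2 ^ 2 = ((planarSys a δ hδ ha).comb r).θ p.1}] p0),
          p.1 ∈ Metric.ball (a k : ℂ) δ \ {(a k : ℂ)} ∧ p.2 ^ 2 = thetaP a p.1 :=
        self_mem_nhdsWithin
      have hne : ∀ w : Circle, -w ≠ w := by
        intro w h
        have h1 : ((-w : Circle) : ℂ) = (w : ℂ) := congrArg _ h
        have h2 : -(w : ℂ) = (w : ℂ) := h1
        have h3 : (w : ℂ) = 0 := by
          have : (2 : ℂ) * (w : ℂ) = 0 := by linear_combination -h2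
          simpa using this
        exact Circle.coe_ne_zero w h3
      rcases hdich p0.1 hx0 p0.2 hζ0 with h0 | h0
      · have hdiv : p0.2 / xiP a p0.1 = 1 := by rw [h0]; simp
        rw [hdiv] at hq
        have hne1 : ∀ᶠ z in 𝓝 (1 : Circle), z ≠ -1 :=
          isOpen_ne.mem_nhds (fun h => hne 1 h.symm)
        have hev : ∀ᶠ p in (𝓝[{p : ℂ × Circle | p.1 ∈ Metric.ball (a k : ℂ) δ \ {(a k : ℂ)} ∧
          p.2 ^ 2 = ((planarSys a δ hδ ha).comb r).θ p.1}] p0), p.2 = xiP a p.1 := by
          filter_upwards [hmem, hq.eventually hne1] with p hp hp'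
          rcases hdich p.1 hp.1 p.2 hp.2 with h | h
          · exact h
          · exfalso
            apply hp'
            rw [h, neg_div, div_self']
        show Filter.Tendsto _ _ _
        simp only [h0, if_true]
        refine Filter.Tendsto.congr' ?_ hb
        filter_upwards [hev] with p hp
        rw [if_pos hp]
      · have hdiv : p0.2 / xiP a p0.1 = -1 := by rw [h0, neg_div, div_self']
        rw [hdiv] at hq
        have hne1 : ∀ᶠ z in 𝓝 (-1 : Circle), z ≠ 1 :=
          isOpen_ne.mem_nhds (fun h => hne 1 h)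
        have hev : ∀ᶠ p in (𝓝[{p : ℂ × Circle | p.1 ∈ Metric.ball (a k : ℂ) δ \ {(a k : ℂ)} ∧
          p.2 ^ 2 = ((planarSys a δ hδ ha).comb r).θ p.1}] p0), p.2 ≠ xiP a p.1 := by
          filter_upwards [hq.eventually hne1] with p hp' h
          apply hp'
          rw [h, div_self']
        have h0' : p0.2 ≠ xiP a p0.1 := by
          rw [h0]
          exact hne _
        show Filter.Tendsto _ _ _
        beta_reduce
        rw [if_neg h0']
        refine Filter.Tendsto.congr' ?_ ((tendsto_const_nhds (x := (1:ℝ))).sub hb)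
        filter_upwards [hev] with p hp
        rw [if_neg hp]
  · intro x hx ζ hζ
    have hζ' : ζ ^ 2 = thetaP a x := hζ
    have hne : ∀ w : Circle, -w ≠ w := by
      intro w h
      have h1 : ((-w : Circle) : ℂ) = (w : ℂ) := congrArg _ h
      have h2 : -(w : ℂ) = (w : ℂ) := h1
      have h3 : (w : ℂ) = 0 := by
        have : (2 : ℂ) * (w : ℂ) = 0 := by linear_combination -h2
        simpa using this
      exact Circle.coe_ne_zero w h3
    have hF : ((planarSys a δ hδ ha).comb r).F (x, ζ) = FP a δ k (x, ζ) ^ r k := by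
      show (∏ j, FP a δ j (x, ζ) ^ r j) = _
      refine Finset.prod_eq_single k ?_ (by simp)
      intro j _ hj
      have hz := bump_eq_zero (a j) δ hδ x (hsep x hx j hj)
      simp only [FP, hz, neg_zero, ce_zero, ite_self, one_zpow]
    rw [hF]
    refine ⟨?_, ?_⟩
    · rw [ce_int]
      congr 1
      simp only [FP]
      split_ifs
      · rfl
      · rw [sub_eq_add_neg, ce_add, ce_one, one_mul]
    · show (r k : ℝ) * (if ζ = xiP a x then bump (a k) δ x else 1 - bump (a k) δ x) +
        (r k : ℝ) * (if -ζ = xiP a x then bump (a k) δ x else 1 - bump (a k) δ x) = (r k : ℝ)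
      rcases hdich x hx ζ hζ' with h | h
      · rw [if_pos h, if_neg (by rw [h]; exact hne _)]
        ring
      · rw [if_neg (by rw [h]; exact hne _), if_pos (by rw [h, neg_neg])]
        ring

end AltGenus562
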