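import Pool.Agent.Helper562.AltG.DefsTorus

noncomputable section

namespace AltGenus562

open Set Topology

/-- the radius squared of the first coordinate -/
def Rad (σ : ℝ) (y : ℂ) : ℝ := (1 + σ * Real.sqrt (1 - 4 * ‖y‖ ^ 2)) / 2

theorem Rad_facts (σ : ℝ) (hσ : σ = 1 ∨ σ = -1) (y : ℂ) (hy0 : y ≠ 0) (hy : ‖y‖ < 1 / 2) :
    0 < Rad σ y ∧ Rad σ y ^ 2 - Rad σ y + ‖y‖ ^ 2 = 0 := by
  have hn : 0 < ‖y‖ := norm_pos_iff.2 hy0
  have h1 : 0 ≤ 1 - 4 * ‖y‖ ^ 2 := by nlinarith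
  have h2 : Real.sqrt (1 - 4 * ‖y‖ ^ 2) ^ 2 = 1 - 4 * ‖y‖ ^ 2 := Real.sq_sqrt h1
  have h3 : 0 ≤ Real.sqrt (1 - 4 * ‖y‖ ^ 2) := Real.sqrt_nonneg _
  have h4 : Real.sqrt (1 - 4 * ‖y‖ ^ 2) < 1 := by
    rw [Real.sqrt_lt' one_pos]
    nlinarith
  unfold Rad
  rcases hσ with rfl | rfl
  · constructor
    · linarith
    · nlinarith
  · constructor
    · linarith
    · nlinarith

/-- the section as a vector -/
def fv (α : ℂ) (σ : ℝ) (y : ℂ) : EuclideanSpace ℂ (Fin 2) :=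
  WithLp.toLp 2 ![α * ((Real.sqrt (Rad σ y) : ℝ) : ℂ), y / (α * ((Real.sqrt (Rad σ y) : ℝ) : ℂ))]

theorem fv_zero (α : ℂ) (σ : ℝ) (y : ℂ) : fv α σ y 0 = α * ((Real.sqrt (Rad σ y) : ℝ) : ℂ) := rfl

theorem fv_one (α : ℂ) (σ : ℝ) (y : ℂ) :
    fv α σ y 1 = y / (α * ((Real.sqrt (Rad σ y) : ℝ) : ℂ)) := rfl

theorem fv_ne (α : ℂ) (hα : ‖α‖ = 1) (σ : ℝ) (hσ : σ = 1 ∨ σ = -1) (y : ℂ) (hy0 : y ≠ 0)
    (hy : ‖y‖ < 1 / 2) : α * ((Real.sqrt (Rad σ y) : ℝ) : ℂ) ≠ 0 := by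
  obtain ⟨h1, _⟩ := Rad_facts σ hσ y hy0 hy
  have hα0 : α ≠ 0 := by
    rintro rfl
    simp at hα
  have h2 : ((Real.sqrt (Rad σ y) : ℝ) : ℂ) ≠ 0 := by
    exact_mod_cast (Real.sqrt_pos.2 h1).ne'
  exact mul_ne_zero hα0 h2

theorem fv_norm (α : ℂ) (hα : ‖α‖ = 1) (σ : ℝ) (hσ : σ = 1 ∨ σ = -1) (y : ℂ) (hy0 : y ≠ 0)
    (hy : ‖y‖ < 1 / 2) : ‖fv α σ y‖ = 1 := by
  obtain ⟨h1, h2⟩ := Rad_facts σ hσ y hy0 hy
  rw [EuclideanSpace.norm_eq, Fin.sum_univ_two, fv_zero, fv_one, norm_div, norm_mul, hα, one_mul,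
    Complex.norm_real, Real.norm_of_nonneg (Real.sqrt_nonneg _), div_pow, Real.sq_sqrt h1.le]
  have : Rad σ y + ‖y‖ ^ 2 / Rad σ y = 1 := by
    field_simp
    linarith
  rw [this, Real.sqrt_one]

theorem fv_mul (α : ℂ) (hα : ‖α‖ = 1) (σ : ℝ) (hσ : σ = 1 ∨ σ = -1) (y : ℂ) (hy0 : y ≠ 0)
    (hy : ‖y‖ < 1 / 2) : fv α σ y 0 * fv α σ y 1 = y := by
  rw [fv_zero, fv_one]
  exact mul_div_cancel₀ _ (fv_ne α hα σ hσ y hy0 hy)

theorem Rad_cont (σ : ℝ) : Continuous (Rad σ) := by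
  unfold Rad
  fun_prop

theorem fv_contOn (α : ℂ) (hα : ‖α‖ = 1) (σ : ℝ) (hσ : σ = 1 ∨ σ = -1) :
    ContinuousOn (fv α σ) {y | y ≠ 0 ∧ ‖y‖ < 1 / 2} := by
  have h1 : Continuous (fun y : ℂ => α * ((Real.sqrt (Rad σ y) : ℝ) : ℂ)) :=
    continuous_const.mul (Complex.continuous_ofReal.comp (Real.continuous_sqrt.comp (Rad_cont σ)))
  have h2 : ContinuousOn (fun y : ℂ => y / (α * ((Real.sqrt (Rad σ y) : ℝ) : ℂ)))
      {y | y ≠ 0 ∧ ‖y‖ < 1 / 2} :=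
    continuousOn_id.div h1.continuousOn (fun y hy => fv_ne α hα σ hσ y hy.1 hy.2)
  have h3 : ContinuousOn (fun y : ℂ => (![α * ((Real.sqrt (Rad σ y) : ℝ) : ℂ),
      y / (α * ((Real.sqrt (Rad σ y) : ℝ) : ℂ))] : Fin 2 → ℂ)) {y | y ≠ 0 ∧ ‖y‖ < 1 / 2} := by
    rw [continuousOn_pi]
    intro i
    fin_cases i
    · exact h1.continuousOn
    · exact h2
  exact (PiLp.continuous_toLp 2 (fun _ : Fin 2 => ℂ)).comp_continuousOn h3

-- TARGET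
theorem mulP_cont : Continuous mulP := by
  unfold mulP
  have h0 : Continuous (fun x : S3 => x.1 0) := by fun_prop
  have h1 : Continuous (fun x : S3 => x.1 1) := by fun_prop
  exact h0.mul h1

-- TARGET
/-- Local sections of the product of the coordinates. -/
theorem mulP_section (a : ℝ) (ha : 0 < a) (ha' : a < 1 / 2) (x : S3) (hx : mulP x = a)
    (V : Set S3) (hV : IsOpen V) (hxV : x ∈ V) :
    ∃ ε > 0, ∃ w : ℂ → S3, ContinuousOn w (Metric.ball (a : ℂ) ε) ∧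
      ∀ y ∈ Metric.ball (a : ℂ) ε, w y ∈ V ∧ mulP (w y) = y := by
  classical
  have hxn : ‖x.1‖ = 1 := by
    have := x.2
    rwa [mem_sphere_zero_iff_norm] at this
  have hprod : x.1 0 * x.1 1 = (a : ℂ) := hx
  have hz0 : x.1 0 ≠ 0 := by
    intro h
    rw [h, zero_mul] at hprod
    have : a = 0 := Complex.ofReal_eq_zero.1 hprod.symm
    exact ha.ne' this
  have hzn : 0 < ‖x.1 0‖ := norm_pos_iff.2 hz0
  have hsum : ‖x.1 0‖ ^ 2 + ‖x.1 1‖ ^ 2 = 1 := by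
    have h1 := hxn
    rw [EuclideanSpace.norm_eq, Fin.sum_univ_two, Real.sqrt_eq_one] at h1
    exact h1
  have hnn : ‖x.1 0‖ * ‖x.1 1‖ = a := by
    rw [← norm_mul, hprod, Complex.norm_real, Real.norm_of_nonneg ha.le]
  have hna : ‖(a : ℂ)‖ = a := by rw [Complex.norm_real, Real.norm_of_nonneg ha.le]
  have h14 : 0 ≤ 1 - 4 * a ^ 2 := by nlinarith
  have hsq : (2 * ‖x.1 0‖ ^ 2 - 1) ^ 2 = Real.sqrt (1 - 4 * a ^ 2) ^ 2 := by
    rw [Real.sq_sqrt h14, ← hnn]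
    have : ‖x.1 1‖ ^ 2 = 1 - ‖x.1 0‖ ^ 2 := by linarith
    rw [mul_pow, this]
    ring
  obtain ⟨σ, hσ, hRad⟩ : ∃ σ : ℝ, (σ = 1 ∨ σ = -1) ∧ Rad σ (a : ℂ) = ‖x.1 0‖ ^ 2 := by
    rcases sq_eq_sq_iff_eq_or_eq_neg.1 hsq with h | h
    · refine ⟨1, Or.inl rfl, ?_⟩
      unfold Rad
      rw [hna]
      linarith
    · refine ⟨-1, Or.inr rfl, ?_⟩
      unfold Rad
      rw [hna]
      linarith
  set α : ℂ := x.1 0 / (‖x.1 0‖ : ℂ) with hα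
  have hα1 : ‖α‖ = 1 := by
    rw [hα, norm_div, Complex.norm_real, Real.norm_of_nonneg (norm_nonneg _), div_self hzn.ne']
  have hfa : fv α σ (a : ℂ) = x.1 := by
    have e0 : α * ((Real.sqrt (Rad σ (a : ℂ)) : ℝ) : ℂ) = x.1 0 := by
      rw [hRad, Real.sqrt_sq (norm_nonneg _), hα]
      have : ((‖x.1 0‖ : ℝ) : ℂ) ≠ 0 := by exact_mod_cast hzn.ne'
      field_simp
    ext i
    fin_cases i
    · change fv α σ (a : ℂ) 0 = x.1 0
      rw [fv_zero, e0]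
    · change fv α σ (a : ℂ) 1 = x.1 1
      rw [fv_one, e0, ← hprod]
      field_simp
  set w : ℂ → S3 := fun y => if h : ‖fv α σ y‖ = 1 then ⟨fv α σ y, by
    rw [mem_sphere_zero_iff_norm]; exact h⟩ else x with hw
  have hdom : ∀ y ∈ Metric.ball (a : ℂ) (min a (1 / 2 - a)), y ≠ 0 ∧ ‖y‖ < 1 / 2 := by
    intro y hy
    rw [Metric.mem_ball, dist_eq_norm] at hy
    constructor
    · rintro rfl
      rw [zero_sub, norm_neg, hna] at hy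
      exact absurd (hy.trans_le (min_le_left _ _)) (lt_irrefl _)
    · have h1 : ‖y‖ ≤ ‖y - a‖ + ‖(a : ℂ)‖ := by
        have := norm_add_le (y - a) (a : ℂ)
        rwa [sub_add_cancel] at this
      have h2 := hy.trans_le (min_le_right _ _)
      rw [hna] at h1
      linarith
  have hwval : ∀ y ∈ Metric.ball (a : ℂ) (min a (1 / 2 - a)), (w y).1 = fv α σ y := by
    intro y hy
    obtain ⟨h1, h2⟩ := hdom y hy
    simp only [hw]
    rw [dif_pos (fv_norm α hα1 σ hσ y h1 h2)]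
  have hε0 : 0 < min a (1 / 2 - a) := lt_min ha (by linarith)
  have hwc : ContinuousOn w (Metric.ball (a : ℂ) (min a (1 / 2 - a))) := by
    rw [IsInducing.subtypeVal.continuousOn_iff]
    refine ContinuousOn.congr ((fv_contOn α hα1 σ hσ).mono hdom) ?_
    intro y hy
    exact hwval y hy
  have hamem : (a : ℂ) ∈ Metric.ball (a : ℂ) (min a (1 / 2 - a)) := Metric.mem_ball_self hε0
  have hwa : w a = x := by
    apply Subtype.ext
    rw [hwval _ hamem, hfa]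
  have hat : ContinuousAt w (a : ℂ) := hwc.continuousAt (Metric.isOpen_ball.mem_nhds hamem)
  have hev : ∀ᶠ y in 𝓝 (a : ℂ), w y ∈ V := by
    apply hat.eventually
    rw [hwa]
    exact hV.mem_nhds hxV
  obtain ⟨ε1, hε1, hε1'⟩ := Metric.eventually_nhds_iff_ball.1 hev
  refine ⟨min ε1 (min a (1 / 2 - a)), lt_min hε1 hε0, w,
    hwc.mono (Metric.ball_subset_ball (min_le_right _ _)), fun y hy => ?_⟩
  have hy1 := Metric.ball_subset_ball (min_le_left ε1 _) hy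
  have hy2 := Metric.ball_subset_ball (min_le_right ε1 _) hy
  refine ⟨hε1' y hy1, ?_⟩
  unfold mulP
  rw [hwval y hy2]
  exact fv_mul α hα1 σ hσ y (hdom y hy2).1 (hdom y hy2).2

-- TARGET
theorem mulP_surj (a : ℝ) (ha : 0 < a) (ha' : a < 1 / 2) : ∃ x : S3, mulP x = a := by
  have h1 : (a : ℂ) ≠ 0 := by exact_mod_cast ha.ne'
  have h2 : ‖(a : ℂ)‖ < 1 / 2 := by
    rw [Complex.norm_real, Real.norm_of_nonneg ha.le]
    exact ha'
  refine ⟨⟨fv 1 1 a, ?_⟩, ?_⟩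
  · rw [mem_sphere_zero_iff_norm]
    exact fv_norm 1 norm_one 1 (Or.inl rfl) a h1 h2
  · exact fv_mul 1 norm_one 1 (Or.inl rfl) a h1 h2

end AltGenus562
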