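import Pool.Agent.Helper562.AltG.DefsTorus

noncomputable section

namespace AltGenus562

open Set Topology

/-- the constant of a component -/
def tkA (n k : ℕ) : ℝ := ((k : ℝ) + 1) / (4 * n + 4)

/-- the sign -/
def sgA (s : Fin 2) : ℝ := if s = 0 then 1 else -1

/-- the square of the first radius -/
def RA (a : ℝ) (s : Fin 2) : ℝ := (1 + sgA s * √(1 - 4 * a ^ 2)) / 2

/-- the first radius -/
def rhoA (a : ℝ) (s : Fin 2) : ℝ := √(RA a s)

/-- the parametrisation -/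
def gamA (a : ℝ) (s : Fin 2) (t : ℝ) : EuclideanSpace ℂ (Fin 2) :=
  !₂[(rhoA a s : ℂ) * Complex.exp (2 * Real.pi * t * Complex.I),
    ((a / rhoA a s : ℝ) : ℂ) * Complex.exp (-(2 * Real.pi * t * Complex.I))]

theorem sgA_cases (s : Fin 2) : sgA s = 1 ∨ sgA s = -1 := by
  unfold sgA
  split_ifs
  · exact Or.inl rfl
  · exact Or.inr rfl

theorem sgA_inj {s s' : Fin 2} (h : sgA s = sgA s') : s = s' := by
  fin_cases s <;> fin_cases s'
  · rfl
  · norm_num [sgA] at h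
  · norm_num [sgA] at h
  · rfl

theorem sqA {a : ℝ} (h0 : 0 < a) (h1 : a < 1 / 4) :
    0 < √(1 - 4 * a ^ 2) ∧ √(1 - 4 * a ^ 2) < 1 ∧ √(1 - 4 * a ^ 2) ^ 2 = 1 - 4 * a ^ 2 := by
  have h2 : a * a < 1 / 4 * (1 / 4) := mul_lt_mul'' h1 h1 h0.le h0.le
  have h3 : 0 < a * a := mul_pos h0 h0
  have h4 : a ^ 2 = a * a := sq a
  refine ⟨Real.sqrt_pos.2 (by rw [h4]; linarith), ?_, Real.sq_sqrt (by rw [h4]; linarith)⟩
  rw [Real.sqrt_lt' one_pos, h4]
  linarith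

theorem RA_pos {a : ℝ} (h0 : 0 < a) (h1 : a < 1 / 4) (s : Fin 2) : 0 < RA a s := by
  obtain ⟨h2, h3, h4⟩ := sqA h0 h1
  unfold RA
  rcases sgA_cases s with h | h
  · rw [h]; linarith
  · rw [h]; linarith

theorem RA_eq {a : ℝ} (h0 : 0 < a) (h1 : a < 1 / 4) (s : Fin 2) :
    RA a s ^ 2 - RA a s + a ^ 2 = 0 := by
  obtain ⟨h2, h3, h4⟩ := sqA h0 h1
  unfold RA
  rcases sgA_cases s with h | h
  · rw [h]
    linear_combination h4 / 4
  · rw [h]
    linear_combination h4 / 4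

theorem rhoA_pos {a : ℝ} (h0 : 0 < a) (h1 : a < 1 / 4) (s : Fin 2) : 0 < rhoA a s :=
  Real.sqrt_pos.2 (RA_pos h0 h1 s)

theorem rhoA_sq {a : ℝ} (h0 : 0 < a) (h1 : a < 1 / 4) (s : Fin 2) : rhoA a s ^ 2 = RA a s :=
  Real.sq_sqrt (RA_pos h0 h1 s).le

theorem gamA_zero (a : ℝ) (s : Fin 2) (t : ℝ) : gamA a s t 0 =
    (rhoA a s : ℂ) * Complex.exp (2 * Real.pi * t * Complex.I) := rfl

theorem gamA_one (a : ℝ) (s : Fin 2) (t : ℝ) : gamA a s t 1 =
    ((a / rhoA a s : ℝ) : ℂ) * Complex.exp (-(2 * Real.pi * t * Complex.I)) := rfl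

theorem expA_norm (t : ℝ) : ‖Complex.exp (2 * Real.pi * t * Complex.I)‖ = 1 := by
  rw [show (2 * Real.pi * t * Complex.I : ℂ) = ((2 * Real.pi * t : ℝ) : ℂ) * Complex.I by
    push_cast; ring, Complex.norm_exp_ofReal_mul_I]

theorem expA_norm' (t : ℝ) : ‖Complex.exp (-(2 * Real.pi * t * Complex.I))‖ = 1 := by
  rw [show (-(2 * Real.pi * t * Complex.I) : ℂ) = ((-(2 * Real.pi * t) : ℝ) : ℂ) * Complex.I by
    push_cast; ring, Complex.norm_exp_ofReal_mul_I]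

theorem gamA_norm_zero {a : ℝ} (h0 : 0 < a) (h1 : a < 1 / 4) (s : Fin 2) (t : ℝ) :
    ‖gamA a s t 0‖ = rhoA a s := by
  rw [gamA_zero, norm_mul, expA_norm, mul_one, Complex.norm_real, Real.norm_eq_abs,
    abs_of_pos (rhoA_pos h0 h1 s)]

theorem gamA_norm_one {a : ℝ} (h0 : 0 < a) (h1 : a < 1 / 4) (s : Fin 2) (t : ℝ) :
    ‖gamA a s t 1‖ = a / rhoA a s := by
  rw [gamA_one, norm_mul, expA_norm', mul_one, Complex.norm_real, Real.norm_eq_abs,
    abs_of_pos (div_pos h0 (rhoA_pos h0 h1 s))]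

theorem gamA_norm {a : ℝ} (h0 : 0 < a) (h1 : a < 1 / 4) (s : Fin 2) (t : ℝ) :
    ‖gamA a s t‖ = 1 := by
  rw [EuclideanSpace.norm_eq, Fin.sum_univ_two]
  have e0 := gamA_norm_zero h0 h1 s t
  have e1 := gamA_norm_one h0 h1 s t
  rw [e0, e1, div_pow, rhoA_sq h0 h1]
  have h2 := RA_pos h0 h1 s
  have h3 := RA_eq h0 h1 s
  have h4 : RA a s + a ^ 2 / RA a s = 1 := by
    field_simp
    linear_combination h3
  rw [h4, Real.sqrt_one]

theorem gamA_mul {a : ℝ} (h0 : 0 < a) (h1 : a < 1 / 4) (s : Fin 2) (t : ℝ) :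
    gamA a s t 0 * gamA a s t 1 = (a : ℂ) := by
  rw [gamA_zero, gamA_one, Complex.exp_neg]
  have h2 : (rhoA a s : ℂ) ≠ 0 := by exact_mod_cast (rhoA_pos h0 h1 s).ne'
  have h3 := Complex.exp_ne_zero (2 * Real.pi * t * Complex.I)
  push_cast
  field_simp

theorem gamA_contDiff (a : ℝ) (s : Fin 2) : ContDiff ℝ ⊤ (gamA a s) := by
  apply (contDiff_piLp 2).2
  intro i
  have h1 : ContDiff ℝ ⊤ (fun t : ℝ => (2 * Real.pi * t * Complex.I : ℂ)) := by
    apply ContDiff.mul _ contDiff_const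
    exact contDiff_const.mul Complex.ofRealCLM.contDiff
  fin_cases i
  · show ContDiff ℝ ⊤ (fun t : ℝ => (rhoA a s : ℂ) * Complex.exp (2 * Real.pi * t * Complex.I))
    exact contDiff_const.mul h1.cexp
  · show ContDiff ℝ ⊤ (fun t : ℝ => ((a / rhoA a s : ℝ) : ℂ) *
      Complex.exp (-(2 * Real.pi * t * Complex.I)))
    exact contDiff_const.mul h1.neg.cexp

theorem gamA_deriv {a : ℝ} (h0 : 0 < a) (h1 : a < 1 / 4) (s : Fin 2) (t : ℝ) :
    deriv (gamA a s) t ≠ 0 := by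
  intro h
  have hd : DifferentiableAt ℝ (gamA a s) t :=
    ((gamA_contDiff a s).differentiable (by simp)).differentiableAt
  have h2 := hd.hasDerivAt
  rw [h] at h2
  obtain ⟨P, hP⟩ : ∃ P : EuclideanSpace ℂ (Fin 2) →L[ℝ] ℂ, ∀ x, P x = x 0 :=
    ⟨(EuclideanSpace.proj (0 : Fin 2) : EuclideanSpace ℂ (Fin 2) →L[ℂ] ℂ).restrictScalars ℝ,
      fun x => rfl⟩
  have h3 := (P.hasFDerivAt (x := gamA a s t)).comp_hasDerivAt t h2
  rw [map_zero] at h3
  have h4 : HasDerivAt (fun t : ℝ => (rhoA a s : ℂ) * Complex.exp (2 * Real.pi * t * Complex.I))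
      ((rhoA a s : ℂ) * (Complex.exp (2 * Real.pi * t * Complex.I) *
        (2 * Real.pi * Complex.I))) t := by
    have h5 : HasDerivAt (fun t : ℝ => (2 * Real.pi * t * Complex.I : ℂ))
        (2 * Real.pi * Complex.I) t := by
      have h6 := ((Complex.ofRealCLM.hasDerivAt (x := t)).const_mul
        (2 * Real.pi : ℂ)).mul_const Complex.I
      simpa using h6
    exact (h5.cexp).const_mul _
  have h5 : (P ∘ gamA a s) = (fun t : ℝ => (rhoA a s : ℂ) *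
      Complex.exp (2 * Real.pi * t * Complex.I)) := by
    funext u
    simp only [Function.comp]
    rw [hP, gamA_zero]
  rw [h5] at h3
  have h6 := h3.unique h4
  have h7 : (rhoA a s : ℂ) ≠ 0 := by exact_mod_cast (rhoA_pos h0 h1 s).ne'
  have h8 := Complex.exp_ne_zero (2 * Real.pi * t * Complex.I)
  have h9 : (2 * Real.pi * Complex.I : ℂ) ≠ 0 := Complex.two_pi_I_ne_zero
  exact (mul_ne_zero h7 (mul_ne_zero h8 h9)) h6.symm

theorem gamA_inj {a b : ℝ} (ha0 : 0 < a) (ha1 : a < 1 / 4) (hb0 : 0 < b) (hb1 : b < 1 / 4)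
    (s s' : Fin 2) (x y : ℝ) (h : gamA a s x = gamA b s' y) :
    a = b ∧ s = s' ∧ ∃ k : ℤ, y = x + k := by
  have e0 : rhoA a s = rhoA b s' := by
    rw [← gamA_norm_zero ha0 ha1 s x, ← gamA_norm_zero hb0 hb1 s' y, h]
  have e1 : a / rhoA a s = b / rhoA b s' := by
    rw [← gamA_norm_one ha0 ha1 s x, ← gamA_norm_one hb0 hb1 s' y, h]
  have hr := rhoA_pos hb0 hb1 s'
  have hab : a = b := by
    rw [e0] at e1
    field_simp at e1
    exact e1
  subst hab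
  have e2 : RA a s = RA a s' := by rw [← rhoA_sq ha0 ha1, ← rhoA_sq ha0 ha1, e0]
  obtain ⟨h2, h3, h4⟩ := sqA ha0 ha1
  have hs : s = s' := by
    apply sgA_inj
    unfold RA at e2
    have e3 : sgA s * √(1 - 4 * a ^ 2) = sgA s' * √(1 - 4 * a ^ 2) := by linarith
    exact mul_right_cancel₀ h2.ne' e3
  subst hs
  refine ⟨rfl, rfl, ?_⟩
  have e4 : gamA a s x 0 = gamA a s y 0 := by rw [h]
  rw [gamA_zero, gamA_zero] at e4
  have h7 : (rhoA a s : ℂ) ≠ 0 := by exact_mod_cast (rhoA_pos ha0 ha1 s).ne'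
  have e5 := mul_left_cancel₀ h7 e4
  obtain ⟨m, hm⟩ := Complex.exp_eq_exp_iff_exists_int.1 e5
  refine ⟨-m, ?_⟩
  have h9 : (2 * Real.pi * Complex.I : ℂ) ≠ 0 := Complex.two_pi_I_ne_zero
  have e6 : ((x : ℂ) - (y + m)) * (2 * Real.pi * Complex.I) = 0 := by linear_combination hm
  have e7 := (mul_eq_zero.1 e6).resolve_right h9
  have e8 : (x : ℂ) = ((y + m : ℝ) : ℂ) := by
    push_cast
    linear_combination e7
  have e9 : x = y + m := by exact_mod_cast e8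
  push_cast
  linarith

theorem gamA_surj {a : ℝ} (h0 : 0 < a) (h1 : a < 1 / 4) (x : EuclideanSpace ℂ (Fin 2))
    (hx : ‖x‖ = 1) (hm : x 0 * x 1 = (a : ℂ)) : ∃ s t, gamA a s t = x := by
  rw [EuclideanSpace.norm_eq, Fin.sum_univ_two] at hx
  have e1 : ‖x 0‖ ^ 2 + ‖x 1‖ ^ 2 = 1 := by
    have h2 : 0 ≤ ‖x 0‖ ^ 2 + ‖x 1‖ ^ 2 := by positivity
    have h3 := Real.sq_sqrt h2
    rw [hx] at h3
    linarith
  have e2 : ‖x 0‖ * ‖x 1‖ = a := by
    rw [← norm_mul, hm, Complex.norm_real, Real.norm_eq_abs, abs_of_pos h0]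
  obtain ⟨h2, h3, h4⟩ := sqA h0 h1
  have e3 : (2 * ‖x 0‖ ^ 2 - 1 - √(1 - 4 * a ^ 2)) * (2 * ‖x 0‖ ^ 2 - 1 + √(1 - 4 * a ^ 2)) = 0 := by
    have h5 : ‖x 0‖ ^ 2 * ‖x 1‖ ^ 2 = a ^ 2 := by rw [← e2]; ring
    linear_combination -h4 - 4 * h5 + 4 * ‖x 0‖ ^ 2 * e1
  have e4 : ∃ s, ‖x 0‖ ^ 2 = RA a s := by
    rcases mul_eq_zero.1 e3 with h | h
    · refine ⟨0, ?_⟩
      unfold RA sgA
      rw [if_pos rfl]
      linarith
    · refine ⟨1, ?_⟩
      unfold RA sgA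
      rw [if_neg (by decide)]
      linarith
  obtain ⟨s, hs⟩ := e4
  have e5 : ‖x 0‖ = rhoA a s := by
    unfold rhoA
    rw [← hs, Real.sqrt_sq (norm_nonneg _)]
  have hr := rhoA_pos h0 h1 s
  refine ⟨s, Complex.arg (x 0) / (2 * Real.pi), ?_⟩
  have hpi : (Real.pi : ℂ) ≠ 0 := by exact_mod_cast Real.pi_ne_zero
  have e6 : (2 * Real.pi * ((Complex.arg (x 0) / (2 * Real.pi) : ℝ) : ℂ) * Complex.I : ℂ) =
      Complex.arg (x 0) * Complex.I := by
    push_cast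
    field_simp
  have e7 : gamA a s (Complex.arg (x 0) / (2 * Real.pi)) 0 = x 0 := by
    rw [gamA_zero, e6, ← e5, Complex.norm_mul_exp_arg_mul_I]
  have e8 : gamA a s (Complex.arg (x 0) / (2 * Real.pi)) 1 = x 1 := by
    have h5 := gamA_mul h0 h1 s (Complex.arg (x 0) / (2 * Real.pi))
    rw [e7, ← hm] at h5
    have h6 : x 0 ≠ 0 := by
      intro h
      rw [h, norm_zero] at e5
      linarith
    exact mul_left_cancel₀ h6 h5
  ext i
  fin_cases i
  · exact e7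
  · exact e8

theorem tkA_pos (n k : ℕ) : 0 < tkA n k := by
  unfold tkA
  positivity

theorem tkA_lt {n k : ℕ} (h : k < n) : tkA n k < 1 / 4 := by
  unfold tkA
  rw [div_lt_div_iff₀ (by positivity) (by norm_num)]
  have : (k : ℝ) + 1 ≤ n := by exact_mod_cast h
  linarith

theorem tkA_inj {n k l : ℕ} (h : tkA n k = tkA n l) : k = l := by
  unfold tkA at h
  have h1 : (0 : ℝ) < 4 * n + 4 := by positivity
  rw [div_left_inj' h1.ne'] at h
  have h2 : (k : ℝ) = l := by linarith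
  exact_mod_cast h2

-- TARGET
/-- `torusLink n` is a link. -/
theorem isLink_torusLink (n : ℕ) (hn : 0 < n) : IsLink (torusLink n) := by
  refine ⟨n * 2, fun i t => gamA (tkA n (finProdFinEquiv.symm i).1) (finProdFinEquiv.symm i).2 t,
    by omega, ?_, ?_, ?_, ?_, ?_, ?_⟩
  · intro i
    exact gamA_contDiff _ _
  · intro i t
    exact gamA_deriv (tkA_pos _ _) (tkA_lt (finProdFinEquiv.symm i).1.2) _ t
  · intro i t
    exact gamA_norm (tkA_pos _ _) (tkA_lt (finProdFinEquiv.symm i).1.2) _ t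
  · intro i t
    have h1 : Complex.exp (2 * Real.pi * ((t + 1 : ℝ) : ℂ) * Complex.I) =
        Complex.exp (2 * Real.pi * t * Complex.I) := by
      rw [Complex.exp_eq_exp_iff_exists_int]
      exact ⟨1, by push_cast; ring⟩
    have h2 : Complex.exp (-(2 * Real.pi * ((t + 1 : ℝ) : ℂ) * Complex.I)) =
        Complex.exp (-(2 * Real.pi * t * Complex.I)) := by
      rw [Complex.exp_neg, Complex.exp_neg, h1]
    show gamA _ _ _ = gamA _ _ _
    unfold gamA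
    rw [h1, h2]
  · intro i j s t h
    obtain ⟨h1, h2, h3⟩ := gamA_inj (tkA_pos _ _) (tkA_lt (finProdFinEquiv.symm i).1.2)
      (tkA_pos _ _) (tkA_lt (finProdFinEquiv.symm j).1.2) _ _ s t h
    refine ⟨?_, h3⟩
    apply finProdFinEquiv.symm.injective
    exact Prod.ext (Fin.ext (tkA_inj h1)) h2
  · ext x
    rw [Set.mem_iUnion]
    constructor
    · rintro ⟨y, ⟨k, hk⟩, rfl⟩
      have hy : ‖(y : EuclideanSpace ℂ (Fin 2))‖ = 1 := by
        have := y.2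
        rwa [mem_sphere_zero_iff_norm] at this
      obtain ⟨s, t, hst⟩ := gamA_surj (tkA_pos n k) (tkA_lt k.2) y.1 hy hk
      refine ⟨finProdFinEquiv (k, s), t, ?_⟩
      simp only [Equiv.symm_apply_apply]
      exact hst
    · rintro ⟨i, t, rfl⟩
      have hnorm := gamA_norm (tkA_pos n (finProdFinEquiv.symm i).1)
        (tkA_lt (finProdFinEquiv.symm i).1.2) (finProdFinEquiv.symm i).2 t
      refine ⟨⟨gamA (tkA n (finProdFinEquiv.symm i).1) (finProdFinEquiv.symm i).2 t, ?_⟩, ?_, rfl⟩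
      · rw [mem_sphere_zero_iff_norm]
        exact hnorm
      · refine ⟨(finProdFinEquiv.symm i).1, ?_⟩
        exact gamA_mul (tkA_pos _ _) (tkA_lt (finProdFinEquiv.symm i).1.2) _ t

end AltGenus562
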