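import Pool.Agent.Helper562.AltG.DefsAll

noncomputable section

namespace AltGenus562

open Set Topology unitInterval

/-- lifting of a homotopy of the constant one -/
theorem lift_one9522 {A : Type*} [TopologicalSpace A] (H : A × I → Circle) (hH : Continuous H)
    (h0 : ∀ a, H (a, 0) = 1) : ∃ k : A × I → ℝ, Continuous k ∧ (∀ p, Circle.exp (k p) = H p) ∧
      ∀ a, k (a, 0) = 0 := by
  let H' : C(I × A, Circle) := ⟨fun p => H (p.2, p.1), hH.comp (by fun_prop)⟩
  let f : C(A, ℝ) := ContinuousMap.const A 0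
  have hf : ∀ a, H' (0, a) = Circle.exp (f a) := by
    intro a
    show H (a, 0) = Circle.exp 0
    rw [h0, Circle.exp_zero]
  let K := Circle.isCoveringMap_exp.liftHomotopy H' f hf
  refine ⟨fun p => K (p.2, p.1), K.continuous.comp (by fun_prop), fun p => ?_, fun a => ?_⟩
  · exact congrFun (Circle.isCoveringMap_exp.liftHomotopy_lifts H' f hf) (p.2, p.1)
  · exact Circle.isCoveringMap_exp.liftHomotopy_zero H' f hf a

-- TARGET
/-- L1: homotopy lifting. -/
theorem lift_homotopy (Φ : Sys) {A : Type*} [TopologicalSpace A] (q : A × I → ℂ)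
    (hq : Continuous q) (hY : ∀ p, q p ∈ Φ.Y) (s0 : A → Circle) (y0 : A → ℝ)
    (h0 : IsLift Φ (fun a => q (a, 0)) s0 y0) :
    ∃ (s : A × I → Circle) (y : A × I → ℝ), IsLift Φ q s y ∧
      ∀ a, s (a, 0) = s0 a ∧ y (a, 0) = y0 a := by
  have hθ : Continuous (fun p => Φ.θ (q p)) := Φ.cθ.comp_continuous hq hY
  have hz : Continuous (fun p : A × I => (p.1, (0 : I))) := by fun_prop
  obtain ⟨k, hk, hk1, hk2⟩ := lift_one9522 (fun p : A × I => Φ.θ (q p) / Φ.θ (q (p.1, 0)))
    (hθ.div' (hθ.comp hz)) (fun a => div_self' _)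
  set s : A × I → Circle := fun p => s0 p.1 * Circle.exp (k p / 2) with hs
  have hsc : Continuous s := (h0.cs.comp continuous_fst).mul
    (Circle.exp.continuous.comp (hk.div_const 2))
  have hs0 : ∀ a, s (a, 0) = s0 a := by
    intro a
    simp only [hs, hk2, zero_div, Circle.exp_zero, mul_one]
  have hsq : ∀ p, s p ^ 2 = Φ.θ (q p) := by
    intro p
    simp only [hs]
    rw [mul_pow, h0.sq, sq (Circle.exp _), ← Circle.exp_add, add_halves, hk1,
      mul_div_cancel]
  have hF : Continuous (fun p => Φ.F (q p, s p)) :=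
    Φ.cF.comp_continuous (hq.prodMk hsc) (fun p => ⟨hY p, hsq p⟩)
  obtain ⟨k2, hk2c, hk21, hk22⟩ := lift_one9522
    (fun p : A × I => Φ.F (q p, s p) / Φ.F (q (p.1, 0), s (p.1, 0)))
    (hF.div' (hF.comp hz)) (fun a => div_self' _)
  have hpi : (2 * Real.pi) ≠ 0 := by positivity
  refine ⟨s, fun p => y0 p.1 + k2 p / (2 * Real.pi), ⟨hsc, ?_, hsq, ?_⟩, fun a => ⟨hs0 a, ?_⟩⟩
  · exact (h0.cy.comp continuous_fst).add (hk2c.div_const _)
  · intro p
    have h1 := h0.val p.1
    unfold ce at h1 ⊢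
    rw [mul_add, mul_div_cancel₀ _ hpi, Circle.exp_add, h1, hk21, hs0, mul_div_cancel]
  · simp only [hk22, zero_div, add_zero]

end AltGenus562
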