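import Pool.Agent.Helper562.AltG.DefsAll

noncomputable section

namespace AltGenus562

open Set Topology unitInterval

theorem ce_eq_9523 (y y' : ℝ) : ce y = ce y' ↔ ∃ k : ℤ, y' = y + k := by
  unfold ce
  rw [Circle.exp_eq_exp]
  have hpi := Real.pi_pos
  constructor
  · rintro ⟨m, hm⟩
    refine ⟨-m, ?_⟩
    have h1 : 2 * Real.pi * y = 2 * Real.pi * (y' + m) := by linarith
    have h2 := mul_left_cancel₀ (by positivity) h1
    push_cast
    linarith
  · rintro ⟨m, hm⟩
    refine ⟨-m, ?_⟩
    rw [hm]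
    push_cast
    ring

theorem ce_neg_9523 (y : ℝ) : ce (-y) = (ce y)⁻¹ := by
  unfold ce
  rw [← Circle.exp_neg]
  congr 1
  ring

theorem sq_one_9523 (z : Circle) (h : z ^ 2 = 1) : z = 1 ∨ z = -1 := by
  have h1 : (z : ℂ) ^ 2 = 1 := by
    have := congrArg (fun w : Circle => (w : ℂ)) h
    simpa using this
  have h2 : ((z : ℂ) - 1) * ((z : ℂ) + 1) = 0 := by linear_combination h1
  rcases mul_eq_zero.1 h2 with h3 | h3
  · left
    apply Circle.ext
    rw [Circle.coe_one]
    exact sub_eq_zero.1 h3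
  · right
    apply Circle.ext
    have h4 : ((-1 : Circle) : ℂ) = -1 := rfl
    rw [h4]
    exact eq_neg_of_add_eq_zero_left h3

/-- an integer valued continuous function on a preconnected space is constant -/
theorem int_const_9523 {A : Type*} [TopologicalSpace A] [PreconnectedSpace A] (f : A → ℝ)
    (hf : Continuous f) (hi : ∀ a, ∃ k : ℤ, f a = k) (a0 : A) : ∃ k : ℤ, ∀ a, f a = k := by
  obtain ⟨k, hk⟩ := hi a0
  have h1 : IsClosed {a | f a = k} := isClosed_eq hf continuous_const
  have h2 : IsOpen {a | f a = k} := by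
    have h3 : {a | f a = k} = {a | |f a - k| < 1} := by
      ext a
      simp only [mem_ofPred_eq]
      constructor
      · intro h; rw [h]; simp
      · intro h
        obtain ⟨m, hm⟩ := hi a
        rw [hm] at h ⊢
        have h4 : |((m - k : ℤ) : ℝ)| < 1 := by push_cast; exact h
        have h5 : |m - k| < 1 := by exact_mod_cast h4
        have h6 := Int.abs_lt_one_iff.1 h5
        have h7 : m = k := by omega
        rw [h7]
    rw [h3]
    exact isOpen_lt (by fun_prop) continuous_const
  have h3 : {a | f a = k} = univ := IsClopen.eq_univ ⟨h1, h2⟩ ⟨a0, hk⟩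
  exact ⟨k, fun a => by
    have : a ∈ {a | f a = k} := by rw [h3]; exact mem_univ a
    exact this⟩

-- TARGET
/-- L2: uniqueness of lifts on a connected space, up to the dihedral group. -/
theorem lift_unique (Φ : Sys) {A : Type*} [TopologicalSpace A] [PreconnectedSpace A] (q : A → ℂ)
    (hY : ∀ a, q a ∈ Φ.Y) {s s' : A → Circle} {y y' : A → ℝ}
    (h : IsLift Φ q s y) (h' : IsLift Φ q s' y') :
    ∃ (ε : ℤˣ) (k : ℤ), ∀ a, s' a = flip ε (s a) ∧ y' a = (ε : ℤ) * y a + k := by
  rcases isEmpty_or_nonempty A with hA | ⟨⟨a0⟩⟩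
  · exact ⟨1, 0, fun a => isEmptyElim a⟩
  have hsq : ∀ a, s' a = s a ∨ s' a = -s a := by
    intro a
    have h1 : (s' a * (s a)⁻¹) ^ 2 = 1 := by
      rw [mul_pow, h'.sq, inv_pow, h.sq, mul_inv_cancel]
    rcases sq_one_9523 _ h1 with h2 | h2
    · left; exact mul_inv_eq_one.1 h2
    · right
      have h3 : s' a = -1 * s a := by
        rw [← h2, inv_mul_cancel_right]
      rw [h3, neg_one_mul]
  have hne : ∀ z : Circle, z ≠ -z := by
    intro z hz
    have h1 := congrArg (fun w : Circle => (w : ℂ)) hz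
    have h2 : ((-z : Circle) : ℂ) = -(z : ℂ) := rfl
    simp only [h2] at h1
    have h3 : (z : ℂ) = 0 := self_eq_neg.1 h1
    exact Circle.coe_ne_zero z h3
  have hcl1 : IsClosed {a | s' a = s a} := isClosed_eq h'.cs h.cs
  have hcl2 : IsClosed {a | s' a = -s a} := isClosed_eq h'.cs h.cs.neg
  have hcompl : {a | s' a = s a} = {a | s' a = -s a}ᶜ := by
    ext a
    simp only [mem_ofPred_eq, mem_compl_iff]
    constructor
    · intro h1 h2
      exact hne (s a) (h1 ▸ h2)
    · intro h1
      exact (hsq a).resolve_right h1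
  have hclopen : IsClopen {a | s' a = s a} := ⟨hcl1, by rw [hcompl]; exact hcl2.isOpen_compl⟩
  rcases isClopen_iff.1 hclopen with hemp | huniv
  · have hs : ∀ a, s' a = -s a := by
      intro a
      refine (hsq a).resolve_left (fun h1 => ?_)
      have : a ∈ {a | s' a = s a} := h1
      rw [hemp] at this
      exact this
    obtain ⟨k, hk⟩ := int_const_9523 (fun a => y' a + y a) (h'.cy.add h.cy) (fun a => by
      have h1 : ce (y' a) = ce (-y a) := by
        rw [h'.val, hs, Φ.anti _ (hY a) _ (h.sq a), ← h.val, ce_neg_9523]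
      obtain ⟨m, hm⟩ := (ce_eq_9523 _ _).1 h1
      exact ⟨-m, by push_cast; linarith⟩) a0
    refine ⟨-1, k, fun a => ⟨?_, ?_⟩⟩
    · rw [hs a]
      unfold flip
      rw [if_neg (by decide)]
    · have := hk a
      push_cast
      linarith
  · have hs : ∀ a, s' a = s a := by
      intro a
      have : a ∈ {a | s' a = s a} := by rw [huniv]; exact mem_univ a
      exact this
    obtain ⟨k, hk⟩ := int_const_9523 (fun a => y' a - y a) (h'.cy.sub h.cy) (fun a => by
      have h1 : ce (y' a) = ce (y a) := by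
        rw [h'.val, hs, ← h.val]
      obtain ⟨m, hm⟩ := (ce_eq_9523 _ _).1 h1
      exact ⟨-m, by push_cast; linarith⟩) a0
    refine ⟨1, k, fun a => ⟨?_, ?_⟩⟩
    · rw [hs a]
      unfold flip
      rw [if_pos rfl]
    · have := hk a
      push_cast
      linarith

-- TARGET
/-- The dihedral group acts on lifts. -/
theorem IsLift.act {Φ : Sys} {A : Type*} [TopologicalSpace A] {q : A → ℂ}
    (hY : ∀ a, q a ∈ Φ.Y) {s : A → Circle} {y : A → ℝ} (h : IsLift Φ q s y) (ε : ℤˣ) (k : ℤ) :
    IsLift Φ q (fun a => flip ε (s a)) (fun a => (ε : ℤ) * y a + k) := by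
  rcases Int.units_eq_one_or ε with rfl | rfl
  · have hf : ∀ z, flip 1 z = z := fun z => if_pos rfl
    refine ⟨?_, ?_, ?_, ?_⟩
    · simp only [hf]; exact h.cs
    · have := h.cy
      fun_prop
    · intro a; rw [hf]; exact h.sq a
    · intro a
      rw [hf, ← h.val]
      exact ((ce_eq_9523 _ _).2 ⟨k, by push_cast; ring⟩).symm
  · have hf : ∀ z, flip (-1) z = -z := fun z => if_neg (by decide)
    refine ⟨?_, ?_, ?_, ?_⟩
    · simp only [hf]; exact h.cs.neg
    · have := h.cy
      fun_prop
    · intro a; rw [hf, neg_sq]; exact h.sq a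
    · intro a
      rw [hf, Φ.anti _ (hY a) _ (h.sq a), ← h.val, ← ce_neg_9523]
      exact ((ce_eq_9523 _ _).2 ⟨k, by push_cast; ring⟩).symm

end AltGenus562
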