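import Pool.Agent.Helper562.AltG.DefsAll
import Pool.Agent.Helper562.AltG.P.A1
import Pool.Agent.Helper562.AltG.P.A2

noncomputable section

namespace AltGenus562

open Set Topology unitInterval

theorem circ_neg_ne (z : Circle) : -z ≠ z := by
  intro h
  have h1 : ((-z : Circle) : ℂ) = (z : ℂ) := congrArg _ h
  have h2 : ((-z : Circle) : ℂ) = -(z : ℂ) := rfl
  rw [h2] at h1
  have h3 : (z : ℂ) = 0 := by
    have h4 : (2:ℂ) * z = 0 := by linear_combination -h1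
    rcases mul_eq_zero.1 h4 with h5 | h5
    · norm_num at h5
    · exact h5
  exact Circle.coe_ne_zero z h3

theorem circ_sqrt (z : Circle) : ∃ w : Circle, w ^ 2 = z := by
  refine ⟨Circle.exp (Complex.arg z / 2), ?_⟩
  rw [sq, ← Circle.exp_add, add_halves, Circle.exp_arg]

theorem ce_onto (z : Circle) : ∃ y : ℝ, ce y = z := by
  refine ⟨Complex.arg z / (2 * Real.pi), ?_⟩
  unfold ce
  rw [mul_div_cancel₀ _ (by positivity), Circle.exp_arg]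

theorem circ_flip_self {ε : ℤˣ} {z : Circle} (h : z = flip ε z) : ε = 1 := by
  by_contra hε
  unfold flip at h
  rw [if_neg hε] at h
  exact circ_neg_ne z h.symm

-- TARGET
/-- L3: lifts exist over convex sets. -/
theorem lift_convex (Φ : Sys) {E : Type*} [NormedAddCommGroup E] [NormedSpace ℝ E]
    (Q : Set E) (hQ : Convex ℝ Q) (q : Q → ℂ)
    (hq : Continuous q) (hY : ∀ a, q a ∈ Φ.Y) :
    ∃ (s : Q → Circle) (y : Q → ℝ), IsLift Φ q s y := by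
  rcases isEmpty_or_nonempty Q with hE | ⟨⟨a0, ha0⟩⟩
  · exact ⟨fun _ => 1, fun _ => 0, continuous_const, continuous_const, fun a => isEmptyElim a,
      fun a => isEmptyElim a⟩
  · obtain ⟨ζ, hζ⟩ := circ_sqrt (Φ.θ (q ⟨a0, ha0⟩))
    obtain ⟨y0, hy0⟩ := ce_onto (Φ.F (q ⟨a0, ha0⟩, ζ))
    have hmem : ∀ p : Q × I, (1 - (p.2 : ℝ)) • a0 + (p.2 : ℝ) • (p.1 : E) ∈ Q := by
      intro p
      exact hQ ha0 p.1.2 (by linarith [p.2.2.2]) p.2.2.1 (by ring)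
    have hc : Continuous (fun p : Q × I =>
        (⟨(1 - (p.2 : ℝ)) • a0 + (p.2 : ℝ) • (p.1 : E), hmem p⟩ : Q)) := by
      apply Continuous.subtype_mk
      fun_prop
    have h0 : ∀ a : Q, (⟨(1 - (((a, (0 : I)).2 : I) : ℝ)) • a0 + (((a, (0 : I)).2 : I) : ℝ) •
        ((a, (0 : I)).1 : E), hmem (a, 0)⟩ : Q) = ⟨a0, ha0⟩ := by
      intro a
      apply Subtype.ext
      simp
    have h1 : ∀ a : Q, (⟨(1 - (((a, (1 : I)).2 : I) : ℝ)) • a0 + (((a, (1 : I)).2 : I) : ℝ) •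
        ((a, (1 : I)).1 : E), hmem (a, 1)⟩ : Q) = a := by
      intro a
      apply Subtype.ext
      simp
    obtain ⟨s, y, hl, -⟩ := lift_homotopy Φ (A := Q)
      (fun p => q ⟨(1 - (p.2 : ℝ)) • a0 + (p.2 : ℝ) • (p.1 : E), hmem p⟩) (hq.comp hc)
      (fun p => hY _) (fun _ => ζ) (fun _ => y0)
      ⟨continuous_const, continuous_const, fun a => by rw [h0 a]; exact hζ,
        fun a => by rw [h0 a]; exact hy0⟩
    refine ⟨fun a => s (a, 1), fun a => y (a, 1), ?_, ?_, ?_, ?_⟩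
    · exact hl.cs.comp (by fun_prop)
    · exact hl.cy.comp (by fun_prop)
    · intro a
      have h2 := hl.sq (a, 1)
      rw [h1 a] at h2
      exact h2
    · intro a
      have h2 := hl.val (a, 1)
      rw [h1 a] at h2
      exact h2

-- TARGET
theorem Tr.exists {Φ : Sys} {p : I → ℂ} (hp : Continuous p) (hY : ∀ t, p t ∈ Φ.Y)
    {ζ : Circle} {y : ℝ} (h1 : ζ ^ 2 = Φ.θ (p 0)) (h2 : ce y = Φ.F (p 0, ζ)) :
    ∃ e', Tr Φ p (ζ, y) e' := by
  obtain ⟨s, u, hl, h0⟩ := lift_homotopy Φ (A := Unit) (fun q => p q.2) (hp.comp continuous_snd)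
    (fun q => hY _) (fun _ => ζ) (fun _ => y)
    ⟨continuous_const, continuous_const, fun _ => h1, fun _ => h2⟩
  refine ⟨(s ((), 1), u ((), 1)), fun t => s ((), t), fun t => u ((), t), ?_, ?_, rfl⟩
  · exact ⟨hl.cs.comp (by fun_prop), hl.cy.comp (by fun_prop), fun t => hl.sq ((), t),
      fun t => hl.val ((), t)⟩
  · show (s ((), 0), u ((), 0)) = (ζ, y)
    rw [(h0 ()).1, (h0 ()).2]

-- TARGET
theorem Tr.unique {Φ : Sys} {p : I → ℂ} (hY : ∀ t, p t ∈ Φ.Y) {e e1 e2 : Circle × ℝ}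
    (h1 : Tr Φ p e e1) (h2 : Tr Φ p e e2) : e1 = e2 := by
  obtain ⟨s, y, hl, ha, hb⟩ := h1
  obtain ⟨s', y', hl', ha', hb'⟩ := h2
  obtain ⟨ε, k, hk⟩ := lift_unique Φ p hY hl hl'
  have h0 := hk 0
  rw [← ha', Prod.mk.injEq] at ha
  rw [← ha.1] at h0
  have hε := circ_flip_self h0.1
  subst hε
  have hk0 : (k : ℝ) = 0 := by
    have h3 := h0.2
    rw [← ha.2] at h3
    push_cast at h3
    simp at h3
    exact_mod_cast h3
  have h1 := hk 1
  rw [hk0] at h1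
  rw [← hb, ← hb', h1.1, h1.2]
  simp [flip]

-- TARGET
theorem Tr.act {Φ : Sys} {p : I → ℂ} (hY : ∀ t, p t ∈ Φ.Y) {ζ ζ' : Circle} {y y' : ℝ}
    (h : Tr Φ p (ζ, y) (ζ', y')) (ε : ℤˣ) (k : ℤ) :
    Tr Φ p (flip ε ζ, (ε : ℤ) * y + k) (flip ε ζ', (ε : ℤ) * y' + k) := by
  obtain ⟨s, u, hl, ha, hb⟩ := h
  rw [Prod.mk.injEq] at ha hb
  refine ⟨fun t => flip ε (s t), fun t => (ε : ℤ) * u t + k, IsLift.act hY hl ε k, ?_, ?_⟩
  · show (flip ε (s 0), (ε : ℤ) * u 0 + k) = _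
    rw [ha.1, ha.2]
  · show (flip ε (s 1), (ε : ℤ) * u 1 + k) = _
    rw [hb.1, hb.2]

-- TARGET
/-- The end point of a transport lies in the fibre. -/
theorem Tr.fibre {Φ : Sys} {p : I → ℂ} {e e' : Circle × ℝ} (h : Tr Φ p e e') :
    (e.1 ^ 2 = Φ.θ (p 0) ∧ ce e.2 = Φ.F (p 0, e.1)) ∧
    (e'.1 ^ 2 = Φ.θ (p 1) ∧ ce e'.2 = Φ.F (p 1, e'.1)) := by
  obtain ⟨s, y, hl, ha, hb⟩ := h
  subst ha
  subst hb
  exact ⟨⟨hl.sq 0, hl.val 0⟩, ⟨hl.sq 1, hl.val 1⟩⟩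

end AltGenus562
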