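import Pool.Agent.Helper562.AltG.DefsAll

noncomputable section

namespace AltGenus562

open Set Topology unitInterval

theorem Tr.seg_trans_concat {Φ : Sys} {p p1 p2 : I → ℂ} {τ0 : ℝ} (h0 : 0 < τ0) (h1 : τ0 < 1)
    (hp1 : ∀ t : I, (t : ℝ) ≤ τ0 → p t = p1 (projIcc 0 1 zero_le_one ((t : ℝ) / τ0)))
    (hp2 : ∀ t : I, τ0 ≤ (t : ℝ) →
      p t = p2 (projIcc 0 1 zero_le_one (((t : ℝ) - τ0) / (1 - τ0))))
    {e e1 e2 : Circle × ℝ} (T1 : Tr Φ p1 e e1) (T2 : Tr Φ p2 e1 e2) : Tr Φ p e e2 := by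
  obtain ⟨s1, y1, L1, a1, b1⟩ := T1
  obtain ⟨s2, y2, L2, a2, b2⟩ := T2
  have hτ : 0 < 1 - τ0 := by linarith
  have hc1 : Continuous (fun t : I => (projIcc 0 1 zero_le_one ((t : ℝ) / τ0) : I)) :=
    continuous_projIcc.comp (continuous_subtype_val.div_const τ0)
  have hc2 : Continuous (fun t : I => (projIcc 0 1 zero_le_one (((t : ℝ) - τ0) / (1 - τ0)) : I)) :=
    continuous_projIcc.comp ((continuous_subtype_val.sub continuous_const).div_const _)
  have hmid1 : ∀ t : I, (t : ℝ) = τ0 → (projIcc 0 1 zero_le_one ((t : ℝ) / τ0) : I) = 1 := by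
    intro t ht
    rw [ht, div_self h0.ne']
    exact projIcc_right zero_le_one
  have hmid2 : ∀ t : I, (t : ℝ) = τ0 →
      (projIcc 0 1 zero_le_one (((t : ℝ) - τ0) / (1 - τ0)) : I) = 0 := by
    intro t ht
    rw [ht, sub_self, zero_div]
    exact projIcc_left zero_le_one
  refine ⟨fun t => if (t : ℝ) ≤ τ0 then s1 (projIcc 0 1 zero_le_one ((t : ℝ) / τ0))
      else s2 (projIcc 0 1 zero_le_one (((t : ℝ) - τ0) / (1 - τ0))),
    fun t => if (t : ℝ) ≤ τ0 then y1 (projIcc 0 1 zero_le_one ((t : ℝ) / τ0))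
      else y2 (projIcc 0 1 zero_le_one (((t : ℝ) - τ0) / (1 - τ0))), ⟨?_, ?_, ?_, ?_⟩, ?_, ?_⟩
  · apply Continuous.if_le (L1.cs.comp hc1) (L2.cs.comp hc2) continuous_subtype_val
      continuous_const
    intro t ht
    simp only [Function.comp]
    rw [hmid1 t ht, hmid2 t ht]
    have e3 := b1.trans a2.symm
    exact (Prod.mk.inj e3).1
  · apply Continuous.if_le (L1.cy.comp hc1) (L2.cy.comp hc2) continuous_subtype_val
      continuous_const
    intro t ht
    simp only [Function.comp]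
    rw [hmid1 t ht, hmid2 t ht]
    have e3 := b1.trans a2.symm
    exact (Prod.mk.inj e3).2
  · intro t
    by_cases ht : (t : ℝ) ≤ τ0
    · simp only [if_pos ht]
      rw [hp1 t ht]
      exact L1.sq _
    · simp only [if_neg ht]
      rw [hp2 t (not_le.mp ht).le]
      exact L2.sq _
  · intro t
    by_cases ht : (t : ℝ) ≤ τ0
    · simp only [if_pos ht]
      rw [hp1 t ht]
      exact L1.val _
    · simp only [if_neg ht]
      rw [hp2 t (not_le.mp ht).le]
      exact L2.val _
  · have h00 : ((0 : I) : ℝ) ≤ τ0 := h0.le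
    simp only [if_pos h00]
    have : (projIcc 0 1 zero_le_one (((0 : I) : ℝ) / τ0) : I) = 0 := by
      rw [show ((0 : I) : ℝ) = 0 from rfl, zero_div]
      exact projIcc_left zero_le_one
    rw [this]
    exact a1
  · have h11 : ¬ ((1 : I) : ℝ) ≤ τ0 := not_le.mpr h1
    simp only [if_neg h11]
    have : (projIcc 0 1 zero_le_one ((((1 : I) : ℝ) - τ0) / (1 - τ0)) : I) = 1 := by
      rw [show ((1 : I) : ℝ) = 1 from rfl, div_self hτ.ne']
      exact projIcc_right zero_le_one
    rw [this]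
    exact b2

theorem Tr.seg_trans_proj {x : ℝ} (hx : x ∈ Icc (0 : ℝ) 1) :
    ((projIcc 0 1 zero_le_one x : I) : ℝ) = x := by
  rw [projIcc_of_mem zero_le_one hx]

-- TARGET
theorem Tr.seg_trans {Φ : Sys} {f : ℝ → ℂ} {a m b : ℝ} (hm : m ∈ Set.Ioo a b)
    {e e1 e2 : Circle × ℝ} (h1 : Tr Φ (seg f b m) e e1) (h2 : Tr Φ (seg f m a) e1 e2) :
    Tr Φ (seg f b a) e e2 := by
  obtain ⟨ham, hmb⟩ := hm
  have hba : 0 < b - a := by linarith
  have ht0 : 0 < (b - m) / (b - a) := div_pos (by linarith) hba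
  have ht1 : (b - m) / (b - a) < 1 := by rw [div_lt_one hba]; linarith
  refine Tr.seg_trans_concat ht0 ht1 ?_ ?_ h1 h2
  · intro t ht
    unfold seg
    have hmem : (t : ℝ) / ((b - m) / (b - a)) ∈ Icc (0 : ℝ) 1 :=
      ⟨div_nonneg t.2.1 ht0.le, (div_le_one ht0).mpr ht⟩
    rw [Tr.seg_trans_proj hmem]
    congr 1
    have hbm : b - m ≠ 0 := by linarith
    field_simp
    ring
  · intro t ht
    unfold seg
    have h3 : 1 - (b - m) / (b - a) = (m - a) / (b - a) := by field_simp; ring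
    have hma : 0 < m - a := by linarith
    have hmem : ((t : ℝ) - (b - m) / (b - a)) / (1 - (b - m) / (b - a)) ∈ Icc (0 : ℝ) 1 := by
      refine ⟨div_nonneg (by linarith) (by linarith), (div_le_one (by linarith)).mpr ?_⟩
      linarith [t.2.2]
    rw [Tr.seg_trans_proj hmem, h3]
    congr 1
    field_simp
    ring

-- TARGET
theorem Tr.path_trans {Φ : Sys} {X : Type*} [TopologicalSpace X] (q : X → ℂ)
    {x y z : X} (γ : Path x y) (γ' : Path y z)
    {e e1 e2 : Circle × ℝ} (h1 : Tr Φ (fun t => q (γ t)) e e1)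
    (h2 : Tr Φ (fun t => q (γ' t)) e1 e2) :
    Tr Φ (fun t => q ((γ.trans γ') t)) e e2 := by
  refine Tr.seg_trans_concat (τ0 := 1 / 2) (by norm_num) (by norm_num) ?_ ?_ h1 h2
  · intro t ht
    rw [Path.trans_apply, dif_pos ht]
    congr 2
    apply Subtype.ext
    rw [Tr.seg_trans_proj ⟨by have := t.2.1; positivity, by linarith⟩]
    show 2 * (t : ℝ) = _
    ring
  · intro t ht
    rcases eq_or_lt_of_le ht with h | h
    · rw [Path.trans_apply, dif_pos h.symm.le]
      have e3 : γ ⟨2 * (t : ℝ), (unitInterval.mul_pos_mem_iff zero_lt_two).2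
          ⟨t.2.1, h.symm.le⟩⟩ = y := by
        have : (⟨2 * (t : ℝ), (unitInterval.mul_pos_mem_iff zero_lt_two).2
          ⟨t.2.1, h.symm.le⟩⟩ : I) = 1 := by
          apply Subtype.ext
          show 2 * (t : ℝ) = 1
          linarith
        rw [this]
        exact γ.target
      have e4 : γ' (projIcc 0 1 zero_le_one (((t : ℝ) - 1 / 2) / (1 - 1 / 2))) = y := by
        rw [← h, sub_self, zero_div, projIcc_left]
        exact γ'.source
      rw [e4, e3]
    · rw [Path.trans_apply, dif_neg (not_le.mpr h)]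
      congr 2
      apply Subtype.ext
      rw [Tr.seg_trans_proj ⟨div_nonneg (by linarith) (by norm_num), by
        rw [div_le_one (by norm_num)]; linarith [t.2.2]⟩]
      show 2 * (t : ℝ) - 1 = _
      ring

-- TARGET
theorem Tr.path_symm {Φ : Sys} {X : Type*} [TopologicalSpace X] (q : X → ℂ)
    {x y : X} (γ : Path x y) {e e1 : Circle × ℝ} (h1 : Tr Φ (fun t => q (γ t)) e e1) :
    Tr Φ (fun t => q (γ.symm t)) e1 e := by
  obtain ⟨s, y', L, a, b⟩ := h1
  refine ⟨fun t => s (unitInterval.symm t), fun t => y' (unitInterval.symm t),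
    ⟨L.cs.comp unitInterval.continuous_symm, L.cy.comp unitInterval.continuous_symm,
      fun t => L.sq _, fun t => L.val _⟩, ?_, ?_⟩
  · simp only [unitInterval.symm_zero]
    exact b
  · simp only [unitInterval.symm_one]
    exact a

end AltGenus562
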