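import Pool.Agent.Helper562.AltG.DefsAll
import Pool.Agent.Helper562.AltG.P.A1
import Pool.Agent.Helper562.AltG.P.A2
import Pool.Agent.Helper562.AltG.P.A3

noncomputable section

namespace AltGenus562

open Set Topology unitInterval

theorem h170_slice {Φ : Sys} {Q : I × I → ℂ} {s : I × I → Circle} {y : I × I → ℝ} (h : IsLift Φ Q s y)
    (f : I → I × I) (hf : Continuous f) : Tr Φ (fun t => Q (f t)) (s (f 0), y (f 0)) (s (f 1), y (f 1)) :=
  ⟨fun t => s (f t), fun t => y (f t),
    ⟨h.cs.comp hf, h.cy.comp hf, fun t => h.sq (f t), fun t => h.val (f t)⟩, rfl, rfl⟩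

-- TARGET
theorem Tr.homotopic {Φ : Sys} {X : Type*} [TopologicalSpace X] (q : X → ℂ) (hq : Continuous q)
    (hY : ∀ x, q x ∈ Φ.Y) {x y : X} (γ γ' : Path x y) (hγ : γ.Homotopic γ')
    {e e1 : Circle × ℝ} (h1 : Tr Φ (fun t => q (γ t)) e e1) :
    Tr Φ (fun t => q (γ' t)) e e1 := by
  obtain ⟨F⟩ := hγ
  have hfib := (Tr.fibre h1).1
  have hγ0 : γ 0 = x := γ.source
  simp only [hγ0] at hfib
  have hF0 : ∀ a : I, F (a, 0) = x := fun a => F.source a
  have hF1 : ∀ a : I, F (a, 1) = y := fun a => F.target a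
  obtain ⟨s, w, hl, hs0⟩ := lift_homotopy Φ (A := I) (fun p => q (F p)) (hq.comp F.continuous) (fun p => hY _)
    (fun _ => e.1) (fun _ => e.2)
    ⟨continuous_const, continuous_const, fun a => by rw [hF0]; exact hfib.1, fun a => by rw [hF0]; exact hfib.2⟩
  have hc : ∀ a : I, Continuous (fun t : I => ((a, t) : I × I)) := fun a => by fun_prop
  have hc' : Continuous (fun a : I => ((a, 1) : I × I)) := by fun_prop
  have t0 := h170_slice hl (fun t => ((0 : I), t)) (hc 0)
  have t1 := h170_slice hl (fun t => ((1 : I), t)) (hc 1)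
  have t2 := h170_slice hl (fun a => (a, (1 : I))) hc'
  have e0 : ∀ a : I, ((s (a, 0), w (a, 0)) : Circle × ℝ) = e := by
    intro a
    rw [(hs0 a).1, (hs0 a).2]
  simp only [e0] at t0 t1
  have f0 : (fun t : I => q (F ((0 : I), t))) = fun t => q (γ t) := by
    funext t
    rw [F.apply_zero]
    rfl
  have f1 : (fun t : I => q (F ((1 : I), t))) = fun t => q (γ' t) := by
    funext t
    rw [F.apply_one]
    rfl
  rw [f0] at t0
  rw [f1] at t1
  have u0 : (s (0, 1), w (0, 1)) = e1 := Tr.unique (fun t => hY _) t0 h1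
  -- constant transport
  have hconst : Tr Φ (fun a : I => q (F (a, (1 : I)))) (s (0, 1), w (0, 1)) (s (0, 1), w (0, 1)) := by
    refine ⟨fun _ => s (0, 1), fun _ => w (0, 1), ⟨continuous_const, continuous_const, ?_, ?_⟩, rfl, rfl⟩
    · intro a
      have h2 := hl.sq ((0 : I), (1 : I))
      rw [hF1] at h2 ⊢
      exact h2
    · intro a
      have h2 := hl.val ((0 : I), (1 : I))
      rw [hF1] at h2 ⊢
      exact h2
  have u1 : (s (1, 1), w (1, 1)) = (s (0, 1), w (0, 1)) := Tr.unique (fun t => hY _) t2 hconst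
  rw [u1, u0] at t1
  exact t1

end AltGenus562
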