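import Pool.Agent.Helper562.AltG.DefsAll
import Pool.Agent.Helper562.AltG.P.A1
import Pool.Agent.Helper562.AltG.P.A2

noncomputable section

namespace AltGenus562

open Set Topology unitInterval

-- TARGET
/-- Vertical transport between two levels over a connected set on which nothing is met: the
result differs from a given lift at the end level by a constant element of the group. -/
theorem vertical_offset {Φ : Sys} {A : Type*} [TopologicalSpace A] [PreconnectedSpace A]
    (q : A × ℝ → ℂ) (hq : Continuous q) {a b : ℝ} (hab : a ≤ b)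
    (hY : ∀ x, ∀ h ∈ Set.Icc a b, q (x, h) ∈ Φ.Y)
    {s1 s0 : A → Circle} {y1 y0 : A → ℝ}
    (h1 : IsLift Φ (fun x => q (x, b)) s1 y1) (h0 : IsLift Φ (fun x => q (x, a)) s0 y0) :
    ∃ (ε : ℤˣ) (k : ℤ), ∀ x, Tr Φ (seg (fun h => q (x, h)) b a) (s1 x, y1 x)
      (flip ε (s0 x), (ε : ℤ) * y0 x + k) := by
  have hQc : Continuous (fun p : A × I => q (p.1, b + (p.2 : ℝ) * (a - b))) := by
    apply hq.comp
    fun_prop
  have hQY : ∀ p : A × I, q (p.1, b + (p.2 : ℝ) * (a - b)) ∈ Φ.Y := by
    rintro ⟨x, τ⟩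
    apply hY
    have h0 := τ.2.1
    have h1 := τ.2.2
    constructor
    · nlinarith
    · nlinarith
  have e0 : (fun x => q (x, b + ((0 : I) : ℝ) * (a - b))) = fun x => q (x, b) := by
    funext x
    rw [Set.Icc.coe_zero, zero_mul, add_zero]
  have e1 : ∀ x, q (x, b + ((1 : I) : ℝ) * (a - b)) = q (x, a) := by
    intro x
    rw [Set.Icc.coe_one, one_mul, add_sub_cancel]
  obtain ⟨s, y, hl, h00⟩ := lift_homotopy Φ (fun p : A × I => q (p.1, b + (p.2 : ℝ) * (a - b)))
    hQc hQY s1 y1 (by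
      show IsLift Φ (fun x => q (x, b + ((0 : I) : ℝ) * (a - b))) s1 y1
      rw [e0]
      exact h1)
  have hr : IsLift Φ (fun x => q (x, a)) (fun x => s (x, 1)) (fun x => y (x, 1)) := by
    refine ⟨hl.cs.comp (by fun_prop), hl.cy.comp (by fun_prop), fun x => ?_, fun x => ?_⟩
    · have := hl.sq (x, 1)
      simp only at this
      rw [e1] at this
      exact this
    · have := hl.val (x, 1)
      simp only at this
      rw [e1] at this
      exact this
  obtain ⟨ε, k, hεk⟩ := lift_unique Φ (fun x => q (x, a))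
    (fun x => hY x a ⟨le_refl a, hab⟩) h0 hr
  refine ⟨ε, k, fun x => ⟨fun τ => s (x, τ), fun τ => y (x, τ), ?_, ?_, ?_⟩⟩
  · refine ⟨hl.cs.comp (by fun_prop), hl.cy.comp (by fun_prop), fun τ => ?_, fun τ => ?_⟩
    · exact hl.sq (x, τ)
    · exact hl.val (x, τ)
  · beta_reduce
    rw [(h00 x).1, (h00 x).2]
  · beta_reduce
    rw [(hεk x).1, (hεk x).2]

end AltGenus562
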