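import Pool.Agent.Helper562.AltG.DefsAll
import Pool.Agent.Helper562.AltG.P.A1
import Pool.Agent.Helper562.AltG.P.A2
import Pool.Agent.Helper562.AltG.P.A3
import Pool.Agent.Helper562.AltG.P.A4
import Pool.Agent.Helper562.AltG.P.A6

noncomputable section

namespace AltGenus562

open Set Topology unitInterval

theorem flip_sq_9528 (ε : ℤˣ) (ζ : Circle) : flip ε ζ ^ 2 = ζ ^ 2 := by
  unfold flip
  split_ifs
  · rfl
  · exact neg_sq ζ

theorem ne_neg_9528 (ζ : Circle) : ζ ≠ -ζ := by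
  intro h
  have h1 : (ζ : ℂ) = -(ζ : ℂ) := by
    have := congrArg (fun z : Circle => (z : ℂ)) h
    simpa using this
  have h2 : (ζ : ℂ) = 0 := by
    have h3 : (2 : ℂ) * ζ = 0 := by linear_combination h1
    simpa using h3
  exact ζ.coe_ne_zero h2

theorem flip_inj_9528 {ε ε' : ℤˣ} {ζ : Circle} (h : flip ε ζ = flip ε' ζ) : ε = ε' := by
  rcases Int.units_eq_one_or ε with rfl | rfl <;> rcases Int.units_eq_one_or ε' with rfl | rfl
  · rfl
  · exfalso
    have h1 : (-1 : ℤˣ) ≠ 1 := by decide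
    simp only [flip, if_true, h1, if_false] at h
    exact ne_neg_9528 ζ h
  · exfalso
    have h1 : (-1 : ℤˣ) ≠ 1 := by decide
    simp only [flip, if_true, h1, if_false] at h
    exact ne_neg_9528 ζ h.symm
  · rfl

theorem tr_lift_9528 {Φ : Sys} {U : Type*} [TopologicalSpace U] (q : U × ℝ → ℂ)
    (hq : Continuous q) (e : ℝ)
    {s1 : U → Circle} {y1 : U → ℝ} (h1 : IsLift Φ (fun x => q (x, e)) s1 y1) (O : Set (U × ℝ))
    (hO : ∀ p ∈ O, ∀ τ : I, q (p.1, e + τ * (p.2 - e)) ∈ Φ.Y) :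
    ∃ (S : U × ℝ → Circle) (Y : U × ℝ → ℝ), ContinuousOn S O ∧ ContinuousOn Y O ∧
      ∀ p ∈ O, S p ^ 2 = Φ.θ (q p) ∧ ce (Y p) = Φ.F (q p, S p) ∧
        Tr Φ (seg (fun h => q (p.1, h)) e p.2) (s1 p.1, y1 p.1) (S p, Y p) := by
  classical
  have hc1 : Continuous (fun p : O => p.1.1) := continuous_fst.comp continuous_subtype_val
  obtain ⟨s, y, hl, h0⟩ := lift_homotopy Φ (A := O)
    (fun p : O × I => q (p.1.1.1, e + p.2 * (p.1.1.2 - e)))
    (by fun_prop) (fun p => hO p.1.1 p.1.2 p.2) (fun p => s1 p.1.1) (fun p => y1 p.1.1)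
    ⟨h1.cs.comp hc1, h1.cy.comp hc1, fun p => by
      have := h1.sq p.1.1
      simpa using this, fun p => by
      have := h1.val p.1.1
      simpa using this⟩
  refine ⟨fun p => if h : p ∈ O then s (⟨p, h⟩, 1) else 1,
    fun p => if h : p ∈ O then y (⟨p, h⟩, 1) else 0, ?_, ?_, ?_⟩
  · rw [continuousOn_iff_continuous_domRestrict]
    have : O.domRestrict (fun p => if h : p ∈ O then s (⟨p, h⟩, 1) else 1) =
        fun p : O => s (p, 1) := by
      funext p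
      simp [Set.domRestrict]
    rw [this]
    exact hl.cs.comp (by fun_prop)
  · rw [continuousOn_iff_continuous_domRestrict]
    have : O.domRestrict (fun p => if h : p ∈ O then y (⟨p, h⟩, 1) else 0) =
        fun p : O => y (p, 1) := by
      funext p
      simp [Set.domRestrict]
    rw [this]
    exact hl.cy.comp (by fun_prop)
  · intro p hp
    simp only [dif_pos hp]
    refine ⟨?_, ?_, ?_⟩
    · have := hl.sq (⟨p, hp⟩, 1)
      simpa using this
    · have := hl.val (⟨p, hp⟩, 1)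
      simpa using this
    · refine ⟨fun τ => s (⟨p, hp⟩, τ), fun τ => y (⟨p, hp⟩, τ),
        ⟨hl.cs.comp (by fun_prop), hl.cy.comp (by fun_prop), fun τ => hl.sq (⟨p, hp⟩, τ),
          fun τ => hl.val (⟨p, hp⟩, τ)⟩, ?_, rfl⟩
      have := h0 ⟨p, hp⟩
      show (s (⟨p, hp⟩, 0), y (⟨p, hp⟩, 0)) = _
      rw [this.1, this.2]

theorem comp_9528 {Φ : Sys} {a b : ℝ} (hab : a ≤ b) (f : ℝ → ℂ)
    (hY : ∀ h ∈ Set.Icc a b, f h ∈ Φ.Y)
    {S S' : ℝ → Circle} {Y Y' : ℝ → ℝ} (hS : ContinuousOn S (Set.Icc a b))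
    (hS' : ContinuousOn S' (Set.Icc a b)) (hYc : ContinuousOn Y (Set.Icc a b))
    (hYc' : ContinuousOn Y' (Set.Icc a b))
    (hv : ∀ h ∈ Set.Icc a b, S h ^ 2 = Φ.θ (f h) ∧ ce (Y h) = Φ.F (f h, S h))
    (hv' : ∀ h ∈ Set.Icc a b, S' h ^ 2 = Φ.θ (f h) ∧ ce (Y' h) = Φ.F (f h, S' h))
    (ε : ℤˣ) (k : ℤ) (h1 : S' a = flip ε (S a)) (h2 : Y' a = (ε : ℤ) * Y a + k) :
    ∀ h ∈ Set.Icc a b, S' h = flip ε (S h) ∧ Y' h = (ε : ℤ) * Y h + k := by
  haveI : PreconnectedSpace (Set.Icc a b) := Subtype.preconnectedSpace isPreconnected_Icc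
  have hl : IsLift Φ (fun h : Set.Icc a b => f h) (fun h => S h) (fun h => Y h) :=
    ⟨continuousOn_iff_continuous_domRestrict.1 hS, continuousOn_iff_continuous_domRestrict.1 hYc,
      fun h => (hv h.1 h.2).1, fun h => (hv h.1 h.2).2⟩
  have hl' : IsLift Φ (fun h : Set.Icc a b => f h) (fun h => S' h) (fun h => Y' h) :=
    ⟨continuousOn_iff_continuous_domRestrict.1 hS', continuousOn_iff_continuous_domRestrict.1 hYc',
      fun h => (hv' h.1 h.2).1, fun h => (hv' h.1 h.2).2⟩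
  obtain ⟨ε', k', h3⟩ := lift_unique Φ (fun h : Set.Icc a b => f h) (fun h => hY h.1 h.2) hl hl'
  have h4 := h3 ⟨a, le_rfl, hab⟩
  simp only at h4
  have h5 : ε' = ε := flip_inj_9528 (h4.1.symm.trans h1)
  subst h5
  have h6 : k' = k := by
    have : (k' : ℝ) = k := by linarith [h4.2, h2]
    exact_mod_cast this
  subst h6
  exact fun h hh => h3 ⟨h, hh⟩

theorem glue_9528 {D DT DB : Set ℂ} (hoT : IsOpen DT) (hoB : IsOpen DB)
    (hcov : ∀ x ∈ D, x ∈ DT ∨ x ∈ DB) {tT tB : ℂ → Circle} (hT : ContinuousOn tT DT)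
    (hB : ContinuousOn tB DB) (hag : ∀ x ∈ DT, x ∈ DB → tT x = tB x) :
    ∃ t : ℂ → Circle, ContinuousOn t D ∧ (∀ x ∈ DT, t x = tT x) ∧ ∀ x ∈ DB, t x = tB x := by
  classical
  have e1 : ∀ x ∈ DT, (if x ∈ DT then tT x else tB x) = tT x := fun x hx => if_pos hx
  have e2 : ∀ x ∈ DB, (if x ∈ DT then tT x else tB x) = tB x := fun x hx => by
    by_cases h : x ∈ DT
    · rw [if_pos h, hag x h hx]
    · rw [if_neg h]
  refine ⟨fun x => if x ∈ DT then tT x else tB x, fun x hx => ?_, e1, e2⟩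
  apply ContinuousAt.continuousWithinAt
  rcases hcov x hx with h | h
  · have h1 : ContinuousAt tT x := hT.continuousAt (hoT.mem_nhds h)
    exact h1.congr (Filter.eventually_of_mem (hoT.mem_nhds h) fun z hz => (e1 z hz).symm)
  · have h1 : ContinuousAt tB x := hB.continuousAt (hoB.mem_nhds h)
    exact h1.congr (Filter.eventually_of_mem (hoB.mem_nhds h) fun z hz => (e2 z hz).symm)

theorem ce_eq_9528 {y y' : ℝ} (h : ce y = ce y') : ∃ m : ℤ, y - y' = m := by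
  unfold ce at h
  obtain ⟨m, hm⟩ := Circle.exp_eq_exp.1 h
  refine ⟨m, ?_⟩
  have hpi : (2 * Real.pi) ≠ 0 := by positivity
  have h2 : 2 * Real.pi * (y - y' - m) = 0 := by linear_combination hm
  rcases mul_eq_zero.1 h2 with h3 | h3
  · exact absurd h3 hpi
  · linarith

/-- `(-1) ^ A` for real `A` -/
def ex_9528 (A : ℝ) : Circle := Circle.exp (Real.pi * A)

theorem ex_cont_9528 : Continuous ex_9528 := by
  unfold ex_9528
  fun_prop

theorem ex_add_9528 (A B : ℝ) : ex_9528 (A + B) = ex_9528 A * ex_9528 B := by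
  unfold ex_9528
  rw [mul_add, Circle.exp_add]

theorem ex_two_9528 (m : ℤ) : ex_9528 (2 * m) = 1 := by
  unfold ex_9528
  have : Real.pi * (2 * (m : ℝ)) = 0 + m * (2 * Real.pi) := by ring
  rw [Circle.exp_eq_exp.2 ⟨m, this⟩, Circle.exp_zero]

theorem ex_one_9528 : ex_9528 1 = -1 := by
  unfold ex_9528
  rw [mul_one]
  apply Circle.ext
  simp

theorem ex_odd_9528 (m : ℤ) : ex_9528 (2 * m + 1) = -1 := by
  rw [ex_add_9528, ex_two_9528, ex_one_9528, one_mul]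

theorem ex_sq_9528 (m : ℤ) : ex_9528 m ^ 2 = 1 := by
  rw [sq, ← ex_add_9528, ← two_mul, ex_two_9528]

-- TARGET
/-- The strand lemma. -/
theorem strand_lemma {Φ : Sys} {U : Type*} [TopologicalSpace U] (U0 Up Um : Set U)
    (hU0 : IsClosed U0) (hUp : IsOpen Up) (hUm : IsOpen Um)
    (hcov : ∀ x, x ∈ Up ∨ x ∈ Um ∨ x ∈ U0) (hpm : Disjoint Up Um) (hp0 : Disjoint Up U0)
    (hm0 : Disjoint Um U0) {a b : ℝ} (hab : a < b) (q : U × ℝ → ℂ) (hq : Continuous q)
    (o : U → ℝ) (ho : ContinuousOn o U0) (hoab : ∀ x ∈ U0, o x ∈ Set.Ioo a b)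
    (hY : ∀ x, ∀ h ∈ Set.Icc a b, ¬ (x ∈ U0 ∧ h = o x) → q (x, h) ∈ Φ.Y)
    (c : ℂ) (hc : ∀ x ∈ U0, q (x, o x) = c)
    {s1 s0 : U → Circle} {y1 y0 : U → ℝ}
    (h1 : IsLift Φ (fun x => q (x, b)) s1 y1) (h0 : IsLift Φ (fun x => q (x, a)) s0 y0)
    (εp εm : ℤˣ) (Vp Vm : ℤ)
    (hVp : ∀ x ∈ Up, Tr Φ (seg (fun h => q (x, h)) b a) (s1 x, y1 x)
      (flip εp (s0 x), (εp : ℤ) * y0 x + Vp))
    (hVm : ∀ x ∈ Um, Tr Φ (seg (fun h => q (x, h)) b a) (s1 x, y1 x)
      (flip εm (s0 x), (εm : ℤ) * y0 x + Vm))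
    (hno : NoSqrt Φ c) (ρ : ℤ) (hloc : LocLog Φ c ρ)
    (ε' : ℝ) (hε' : 0 < ε') (w : ℂ → U × ℝ) (hw : ContinuousOn w (Metric.ball c ε' \ {c}))
    (hw2 : ∀ x ∈ Metric.ball c ε' \ {c}, (w x).2 ∈ Set.Ioo a b ∧ q (w x) = x) :
    εm = -εp ∧ Even (Vp + Vm - ρ) := by
  classical
  set OT : Set (U × ℝ) := {p | p.2 ∈ Set.Icc a b ∧ (p.1 ∈ U0 → o p.1 < p.2)} with hOT
  set OB : Set (U × ℝ) := {p | p.2 ∈ Set.Icc a b ∧ (p.1 ∈ U0 → p.2 < o p.1)} with hOB
  have hYT : ∀ p ∈ OT, ∀ τ : I, q (p.1, b + τ * (p.2 - b)) ∈ Φ.Y := by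
    rintro p ⟨⟨hp1, hp2⟩, hp3⟩ τ
    have h2 := τ.2.1
    have h3 := τ.2.2
    have h4 : p.2 ≤ b + τ * (p.2 - b) := by
      nlinarith [mul_nonneg (sub_nonneg.2 h3) (sub_nonneg.2 hp2)]
    have h5 : b + τ * (p.2 - b) ≤ b := by
      nlinarith [mul_nonneg h2 (sub_nonneg.2 hp2)]
    exact hY p.1 _ ⟨hp1.trans h4, h5⟩ fun h => by
      have := hp3 h.1
      rw [← h.2] at this
      exact absurd this (not_lt.2 h4)
  have hYB : ∀ p ∈ OB, ∀ τ : I, q (p.1, a + τ * (p.2 - a)) ∈ Φ.Y := by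
    rintro p ⟨⟨hp1, hp2⟩, hp3⟩ τ
    have h2 := τ.2.1
    have h3 := τ.2.2
    have h4 : a + τ * (p.2 - a) ≤ p.2 := by
      nlinarith [mul_nonneg (sub_nonneg.2 h3) (sub_nonneg.2 hp1)]
    have h5 : a ≤ a + τ * (p.2 - a) := by
      nlinarith [mul_nonneg h2 (sub_nonneg.2 hp1)]
    exact hY p.1 _ ⟨h5, h4.trans hp2⟩ fun h => by
      have := hp3 h.1
      rw [← h.2] at this
      exact absurd this (not_lt.2 h4)
  obtain ⟨ST, YT, cST, cYT, hT⟩ := tr_lift_9528 q hq b h1 OT hYT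
  obtain ⟨SB, YB, cSB, cYB, hB⟩ := tr_lift_9528 q hq a h0 OB hYB
  have hBa : ∀ x, x ∉ U0 → SB (x, a) = s0 x ∧ YB (x, a) = y0 x := by
    intro x hx
    have hmem : (x, a) ∈ OB := ⟨⟨le_rfl, hab.le⟩, fun h => absurd h hx⟩
    have h2 := (hB (x, a) hmem).2.2
    have h3 : Tr Φ (seg (fun h => q (x, h)) a a) (s0 x, y0 x) (s0 x, y0 x) := by
      refine ⟨fun _ => s0 x, fun _ => y0 x, ⟨continuous_const, continuous_const, fun τ => ?_,
        fun τ => ?_⟩, rfl, rfl⟩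
      · have := h0.sq x
        simpa [seg] using this
      · have := h0.val x
        simpa [seg] using this
    have h4 := Tr.unique (fun t => hYB (x, a) hmem t) h2 h3
    exact ⟨congrArg Prod.fst h4, congrArg Prod.snd h4⟩
  have side : ∀ x, x ∉ U0 → ∀ (ε : ℤˣ) (V : ℤ),
      Tr Φ (seg (fun h => q (x, h)) b a) (s1 x, y1 x) (flip ε (s0 x), (ε : ℤ) * y0 x + V) →
      ∀ h ∈ Set.Icc a b, ST (x, h) = flip ε (SB (x, h)) ∧
        YT (x, h) = (ε : ℤ) * YB (x, h) + V := by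
    intro x hx ε V htr
    have hmT : ∀ h ∈ Set.Icc a b, (x, h) ∈ OT := fun h hh => ⟨hh, fun h' => absurd h' hx⟩
    have hmB : ∀ h ∈ Set.Icc a b, (x, h) ∈ OB := fun h hh => ⟨hh, fun h' => absurd h' hx⟩
    have hcx : Continuous fun h : ℝ => (x, h) := by fun_prop
    have ha := hmT a ⟨le_rfl, hab.le⟩
    have h4 := Tr.unique (fun t => hYT (x, a) ha t) (hT (x, a) ha).2.2 htr
    have h5 : ST (x, a) = flip ε (s0 x) := congrArg Prod.fst h4
    have h6 : YT (x, a) = (ε : ℤ) * y0 x + V := congrArg Prod.snd h4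
    refine comp_9528 (Φ := Φ) hab.le (fun h => q (x, h))
      (fun h hh => hY x h hh fun h' => hx h'.1)
      (S := fun h => SB (x, h)) (S' := fun h => ST (x, h)) (Y := fun h => YB (x, h))
      (Y' := fun h => YT (x, h)) (cSB.comp hcx.continuousOn hmB) (cST.comp hcx.continuousOn hmT)
      (cYB.comp hcx.continuousOn hmB) (cYT.comp hcx.continuousOn hmT)
      (fun h hh => ⟨(hB _ (hmB h hh)).1, (hB _ (hmB h hh)).2.1⟩)
      (fun h hh => ⟨(hT _ (hmT h hh)).1, (hT _ (hmT h hh)).2.1⟩) ε V ?_ ?_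
    · rw [h5, (hBa x hx).1]
    · rw [h6, (hBa x hx).2]
  -- normalise by `εp`
  set S' : U × ℝ → Circle := fun p => flip εp (SB p) with hS'
  set Y' : U × ℝ → ℝ := fun p => (εp : ℤ) * YB p with hY'
  have cS' : ContinuousOn S' OB := by
    rcases Int.units_eq_one_or εp with h | h
    · simpa [hS', flip, h] using cSB
    · have h1 : (-1 : ℤˣ) ≠ 1 := by decide
      have : S' = fun p => -(SB p) := by
        funext p
        simp only [hS', flip, h, h1, if_false]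
      rw [this]
      exact cSB.neg
  have cY' : ContinuousOn Y' OB := continuousOn_const.mul cYB
  have hYq : ∀ p ∈ OB, q p ∈ Φ.Y := by
    intro p hp
    have := hYB p hp 1
    simpa using this
  have hB' : ∀ p ∈ OB, S' p ^ 2 = Φ.θ (q p) ∧ ce (Y' p) = Φ.F (q p, S' p) := by
    intro p hp
    obtain ⟨h2, h3, -⟩ := hB p hp
    refine ⟨by rw [hS']; simp only [flip_sq_9528, h2], ?_⟩
    rcases Int.units_eq_one_or εp with h | h
    · simp only [hS', hY', flip, h, if_true]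
      simpa using h3
    · have h1 : (-1 : ℤˣ) ≠ 1 := by decide
      simp only [hS', hY', flip, h, h1, if_false]
      rw [Φ.anti (q p) (hYq p hp) (SB p) h2, ← h3]
      unfold ce
      rw [← Circle.exp_neg]
      congr 1
      push_cast
      ring
  have hup : ∀ x ∈ Up, ∀ h ∈ Set.Icc a b, ST (x, h) = S' (x, h) ∧
      YT (x, h) = Y' (x, h) + Vp := fun x hx h hh =>
    side x (fun h' => (Set.disjoint_left.1 hp0) hx h') εp Vp (hVp x hx) h hh
  -- the punctured disc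
  have main : ∀ r > 0, r ≤ ε' → ∀ tT tB : U × ℝ → ℂ → Circle,
      ContinuousOn (fun x => tT (w x) x) (Metric.ball c r \ {c} ∩ {x | w x ∈ OT}) →
      ContinuousOn (fun x => tB (w x) x) (Metric.ball c r \ {c} ∩ {x | w x ∈ OB}) →
      (∀ x ∈ Metric.ball c r \ {c}, w x ∈ OT → tT (w x) x ^ 2 = Φ.θ x) →
      (∀ x ∈ Metric.ball c r \ {c}, w x ∈ OB → tB (w x) x ^ 2 = Φ.θ x) →
      (∀ x ∈ Metric.ball c r \ {c}, (w x).2 ∈ Set.Icc a b → ((w x).1 ∈ Up ∨ (w x).1 ∈ Um) →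
        tT (w x) x = tB (w x) x) → False := by
    intro r hr hrε tT tB hcT hcB hsT hsB hag
    have hsub : Metric.ball c r \ {c} ⊆ Metric.ball c ε' \ {c} :=
      fun x hx => ⟨Metric.ball_subset_ball hrε hx.1, hx.2⟩
    have hopen : IsOpen (Metric.ball c r \ {c}) := Metric.isOpen_ball.sdiff isClosed_singleton
    have hw' := hw.mono hsub
    have hcl : IsClosed (U0 ×ˢ (Set.univ : Set ℝ)) := hU0.prod isClosed_univ
    have hof : ContinuousOn (fun p : U × ℝ => o p.1 - p.2) (U0 ×ˢ (Set.univ : Set ℝ)) :=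
      (ho.comp continuousOn_fst fun p hp => hp.1).sub continuousOn_snd
    have hc1 := hof.preimage_isClosed_of_isClosed hcl (isClosed_Ici (a := (0 : ℝ)))
    have hc2 := hof.preimage_isClosed_of_isClosed hcl (isClosed_Iic (a := (0 : ℝ)))
    have eT : Metric.ball c r \ {c} ∩ {x | w x ∈ OT} = Metric.ball c r \ {c} ∩ w ⁻¹'
        (U0 ×ˢ (Set.univ : Set ℝ) ∩ (fun p : U × ℝ => o p.1 - p.2) ⁻¹' Set.Ici 0)ᶜ := by
      ext x
      simp only [Set.mem_inter_iff, Set.mem_ofPred_eq, Set.mem_preimage, Set.mem_compl_iff,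
        Set.mem_prod, Set.mem_univ, and_true, Set.mem_Ici, hOT, not_and, not_le]
      refine and_congr_right fun hx => ?_
      have h2 := (hw2 x (hsub hx)).1
      constructor
      · rintro ⟨-, h3⟩ h4
        linarith [h3 h4]
      · intro h3
        exact ⟨⟨h2.1.le, h2.2.le⟩, fun h4 => by linarith [h3 h4]⟩
    have eB : Metric.ball c r \ {c} ∩ {x | w x ∈ OB} = Metric.ball c r \ {c} ∩ w ⁻¹'
        (U0 ×ˢ (Set.univ : Set ℝ) ∩ (fun p : U × ℝ => o p.1 - p.2) ⁻¹' Set.Iic 0)ᶜ := by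
      ext x
      simp only [Set.mem_inter_iff, Set.mem_ofPred_eq, Set.mem_preimage, Set.mem_compl_iff,
        Set.mem_prod, Set.mem_univ, and_true, Set.mem_Iic, hOB, not_and, not_le]
      refine and_congr_right fun hx => ?_
      have h2 := (hw2 x (hsub hx)).1
      constructor
      · rintro ⟨-, h3⟩ h4
        linarith [h3 h4]
      · intro h3
        exact ⟨⟨h2.1.le, h2.2.le⟩, fun h4 => by linarith [h3 h4]⟩
    have oT : IsOpen (Metric.ball c r \ {c} ∩ {x | w x ∈ OT}) := by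
      rw [eT]
      exact hw'.isOpen_inter_preimage hopen hc1.isOpen_compl
    have oB : IsOpen (Metric.ball c r \ {c} ∩ {x | w x ∈ OB}) := by
      rw [eB]
      exact hw'.isOpen_inter_preimage hopen hc2.isOpen_compl
    obtain ⟨t, ht, ht1, ht2⟩ := glue_9528 (D := Metric.ball c r \ {c}) oT oB (by
      intro x hx
      obtain ⟨h2, h3⟩ := hw2 x (hsub hx)
      by_cases h4 : (w x).1 ∈ U0
      · rcases lt_trichotomy (o (w x).1) (w x).2 with h5 | h5 | h5
        · exact Or.inl ⟨hx, ⟨h2.1.le, h2.2.le⟩, fun _ => h5⟩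
        · exfalso
          have h6 := hc (w x).1 h4
          rw [h5] at h6
          exact hx.2 (h3.symm.trans h6)
        · exact Or.inr ⟨hx, ⟨h2.1.le, h2.2.le⟩, fun _ => h5⟩
      · exact Or.inl ⟨hx, ⟨h2.1.le, h2.2.le⟩, fun h => absurd h h4⟩) hcT hcB (by
      rintro x ⟨hx, hx1⟩ ⟨-, hx2⟩
      refine hag x hx hx1.1 ?_
      rcases hcov (w x).1 with h | h | h
      · exact Or.inl h
      · exact Or.inr h
      · exact absurd (hx1.2 h) (not_lt.2 (hx2.2 h).le))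
    refine hno r hr ⟨t, ht, fun x hx => ?_⟩
    obtain ⟨h2, h3⟩ := hw2 x (hsub hx)
    by_cases h4 : w x ∈ OT
    · rw [ht1 x ⟨hx, h4⟩]
      exact hsT x hx h4
    · have h5 : w x ∈ OB := by
        refine ⟨⟨h2.1.le, h2.2.le⟩, fun h6 => ?_⟩
        by_contra h7
        rcases (not_lt.1 h7).lt_or_eq with h8 | h8
        · exact h4 ⟨⟨h2.1.le, h2.2.le⟩, fun _ => h8⟩
        · have h9 := hc (w x).1 h6
          rw [h8] at h9
          exact hx.2 (h3.symm.trans h9)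
      rw [ht2 x ⟨hx, h5⟩]
      exact hsB x hx h5
  have hwc : ∀ r ≤ ε', ∀ O : Set (U × ℝ), ∀ {X : Type} [TopologicalSpace X] (S : U × ℝ → X),
      ContinuousOn S O →
      ContinuousOn (fun x => S (w x)) (Metric.ball c r \ {c} ∩ {x | w x ∈ O}) := by
    intro r hr O X _ S hS
    refine hS.comp (hw.mono fun x hx => ⟨Metric.ball_subset_ball hr hx.1.1, hx.1.2⟩) ?_
    exact fun x hx => hx.2
  have hεm : εm = -εp := by
    by_contra hne
    have hee : εm = εp := by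
      rcases Int.units_eq_one_or εp with h | h <;> rcases Int.units_eq_one_or εm with h' | h'
      · rw [h, h']
      · exact absurd (by rw [h, h']) hne
      · exact absurd (by rw [h, h']; rfl) hne
      · rw [h, h']
    refine main ε' hε' le_rfl (fun p _ => ST p) (fun p _ => S' p) (hwc ε' le_rfl OT ST cST)
      (hwc ε' le_rfl OB S' cS') (fun x hx h => ?_) (fun x hx h => ?_) (fun x hx h h' => ?_)
    · rw [(hT _ h).1, (hw2 x hx).2]
    · rw [(hB' _ h).1, (hw2 x hx).2]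
    · rcases h' with h' | h'
      · exact (hup (w x).1 h' (w x).2 h).1
      · have := (side (w x).1 (fun h'' => (Set.disjoint_left.1 hm0) h' h'') εm Vm
          (hVm _ h') (w x).2 h).1
        rw [hee] at this
        exact this
  refine ⟨hεm, ?_⟩
  have hum : ∀ x ∈ Um, ∀ h ∈ Set.Icc a b, ST (x, h) = -S' (x, h) ∧
      YT (x, h) = -Y' (x, h) + Vm := by
    intro x hx h hh
    obtain ⟨h2, h3⟩ := side x (fun h' => (Set.disjoint_left.1 hm0) hx h') εm Vm (hVm x hx) h hh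
    have h1 : (-1 : ℤˣ) ≠ 1 := by decide
    rw [h2, h3, hεm]
    rcases Int.units_eq_one_or εp with h4 | h4
    · simp only [hS', hY', flip, h4, h1, if_true, if_false]
      refine ⟨trivial, ?_⟩
      push_cast
      ring
    · simp only [hS', hY', flip, h4, h1, neg_neg, if_true, if_false]
      refine ⟨trivial, ?_⟩
      push_cast
      ring
  by_contra hodd
  obtain ⟨m, hm⟩ := Int.not_even_iff_odd.1 hodd
  obtain ⟨ε'', hε'', g, hg, hg2⟩ := hloc
  have hr1 : min ε' ε'' ≤ ε' := min_le_left _ _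
  have hr2 : min ε' ε'' ≤ ε'' := min_le_right _ _
  have hb1 : ∀ x ∈ Metric.ball c (min ε' ε'') \ {c}, x ∈ Metric.ball c ε' \ {c} :=
    fun x hx => ⟨Metric.ball_subset_ball hr1 hx.1, hx.2⟩
  have hb2 : ∀ x ∈ Metric.ball c (min ε' ε'') \ {c}, x ∈ Metric.ball c ε'' \ {c} :=
    fun x hx => ⟨Metric.ball_subset_ball hr2 hx.1, hx.2⟩
  have hT1 : ∀ x ∈ Metric.ball c (min ε' ε'') \ {c}, w x ∈ OT → ST (w x) ^ 2 = Φ.θ x := by
    intro x hx h
    rw [(hT _ h).1, (hw2 x (hb1 x hx)).2]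
  have hB1 : ∀ x ∈ Metric.ball c (min ε' ε'') \ {c}, w x ∈ OB → S' (w x) ^ 2 = Φ.θ x := by
    intro x hx h
    rw [(hB' _ h).1, (hw2 x (hb1 x hx)).2]
  have hT2 : ∀ x ∈ Metric.ball c (min ε' ε'') \ {c}, w x ∈ OT →
      ∃ k : ℤ, g (x, ST (w x)) - YT (w x) = k := by
    intro x hx h
    refine ce_eq_9528 ?_
    rw [(hg2 x (hb2 x hx) _ (hT1 x hx h)).1, (hT _ h).2.1, (hw2 x (hb1 x hx)).2]
  have hB2 : ∀ x ∈ Metric.ball c (min ε' ε'') \ {c}, w x ∈ OB →
      ∃ k : ℤ, g (x, S' (w x)) - Y' (w x) = k := by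
    intro x hx h
    refine ce_eq_9528 ?_
    rw [(hg2 x (hb2 x hx) _ (hB1 x hx h)).1, (hB' _ h).2, (hw2 x (hb1 x hx)).2]
  refine main (min ε' ε'') (lt_min hε' hε'') hr1
    (fun p x => ex_9528 (g (x, ST p) - YT p) * ST p)
    (fun p x => ex_9528 (g (x, S' p) - Y' p + Vp) * S' p) ?_ ?_ ?_ ?_ ?_
  · have hc1 := hwc (min ε' ε'') hr1 OT ST cST
    have hc2 := hwc (min ε' ε'') hr1 OT YT cYT
    have hc3 : ContinuousOn (fun x => g (x, ST (w x)))
        (Metric.ball c (min ε' ε'') \ {c} ∩ {x | w x ∈ OT}) :=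
      hg.comp (continuousOn_id.prodMk hc1) fun x hx => ⟨hb2 x hx.1, hT1 x hx.1 hx.2⟩
    exact (ex_cont_9528.comp_continuousOn (hc3.sub hc2)).mul hc1
  · have hc1 := hwc (min ε' ε'') hr1 OB S' cS'
    have hc2 := hwc (min ε' ε'') hr1 OB Y' cY'
    have hc3 : ContinuousOn (fun x => g (x, S' (w x)))
        (Metric.ball c (min ε' ε'') \ {c} ∩ {x | w x ∈ OB}) :=
      hg.comp (continuousOn_id.prodMk hc1) fun x hx => ⟨hb2 x hx.1, hB1 x hx.1 hx.2⟩
    exact (ex_cont_9528.comp_continuousOn ((hc3.sub hc2).add continuousOn_const)).mul hc1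
  · intro x hx h
    obtain ⟨k, hk⟩ := hT2 x hx h
    simp only [hk]
    rw [mul_pow, ex_sq_9528, one_mul, hT1 x hx h]
  · intro x hx h
    obtain ⟨k, hk⟩ := hB2 x hx h
    simp only [hk]
    have : (k : ℝ) + Vp = ((k + Vp : ℤ) : ℝ) := by push_cast; ring
    rw [this, mul_pow, ex_sq_9528, one_mul, hB1 x hx h]
  · intro x hx h h'
    have hxw : ((w x).1, (w x).2) = w x := rfl
    rcases h' with h' | h'
    · obtain ⟨h2, h3⟩ := hup (w x).1 h' (w x).2 h
      rw [hxw] at h2 h3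
      rw [h2, h3]
      have : g (x, S' (w x)) - Y' (w x) + Vp =
          (g (x, S' (w x)) - (Y' (w x) + Vp)) + 2 * (Vp : ℤ) := by ring
      rw [this, ex_add_9528, ex_two_9528, mul_one]
    · obtain ⟨h2, h3⟩ := hum (w x).1 h' (w x).2 h
      rw [hxw] at h2 h3
      have hxB : w x ∈ OB := ⟨h, fun h'' => absurd h'' fun h3 => (Set.disjoint_left.1 hm0) h' h3⟩
      obtain ⟨k, hk⟩ := hB2 x hx hxB
      have h4 := (hg2 x (hb2 x hx) _ (hB1 x hx hxB)).2
      rw [h2, h3]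
      have h5 : g (x, -S' (w x)) - (-Y' (w x) + Vm) =
          (g (x, S' (w x)) - Y' (w x) + Vp) + (2 * ((-k - m - 1 : ℤ) : ℝ) + 1) := by
        have h6 : (Vp : ℝ) + Vm - ρ = 2 * m + 1 := by exact_mod_cast hm
        push_cast
        linear_combination h4 - h6 - 2 * hk
      rw [h5, ex_add_9528, ex_odd_9528]
      simp

end AltGenus562
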