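import Pool.Agent.Helper562.AltG.DefsAll
import Pool.Agent.Helper562.AltG.P.A1
import Pool.Agent.Helper562.AltG.P.A2
import Pool.Agent.Helper562.AltG.P.A3
import Pool.Agent.Helper562.AltG.P.A4
import Pool.Agent.Helper562.AltG.P.A6
import Pool.Agent.Helper562.AltG.P.B1

noncomputable section

namespace AltGenus562

open Set Topology unitInterval

theorem circle_ne_neg (z : Circle) : z ≠ -z := by
  intro h
  have h1 : (z : ℂ) = ((-z : Circle) : ℂ) := congrArg _ h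
  rw [Circle.coe_neg] at h1
  have h2 : (z : ℂ) = 0 := by
    have : (z : ℂ) + z = 0 := by
      nth_rewrite 2 [h1]
      ring
    have h3 : (2 : ℂ) * z = 0 := by rw [two_mul]; exact this
    exact (mul_eq_zero.mp h3).resolve_left two_ne_zero
  exact Circle.coe_ne_zero z h2

theorem flip_inj {ε ε' : ℤˣ} {z : Circle} (h : flip ε z = flip ε' z) : ε = ε' := by
  rcases Int.units_eq_one_or ε with rfl | rfl <;> rcases Int.units_eq_one_or ε' with rfl | rfl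
  · rfl
  · exfalso
    simp [flip] at h
    exact circle_ne_neg z h
  · exfalso
    simp [flip] at h
    exact circle_ne_neg z h.symm
  · rfl

theorem flip_flip (ε ε' : ℤˣ) (z : Circle) : flip ε (flip ε' z) = flip (ε * ε') z := by
  rcases Int.units_eq_one_or ε with rfl | rfl <;> rcases Int.units_eq_one_or ε' with rfl | rfl <;>
    simp [flip]

theorem quad_aux {Φ : Sys} {f : ℝ → ℂ} {m : ℝ} (hm : m ∈ Set.Ioo (-1 : ℝ) 1)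
    (hY : ∀ h ∈ Set.Icc (-1 : ℝ) 1, f h ∈ Φ.Y) {s1 sm s0 : Circle} {y1 ym y0 : ℝ}
    {εp d ε1 : ℤˣ} {a b V : ℤ}
    (T1 : Tr Φ (seg f 1 m) (s1, y1) (flip εp sm, (εp : ℤ) * ym + a))
    (T2 : Tr Φ (seg f m (-1)) (sm, ym) (flip d s0, (d : ℤ) * y0 + b))
    (T : Tr Φ (seg f 1 (-1)) (s1, y1) (flip ε1 s0, (ε1 : ℤ) * y0 + V)) :
    V = (εp : ℤ) * b + a := by
  have hY1 : ∀ t : I, seg f 1 (-1) t ∈ Φ.Y := by
    intro t
    apply hY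
    have h1 := t.2.1
    have h2 := t.2.2
    constructor <;> linarith
  have hY2 : ∀ t : I, seg f m (-1) t ∈ Φ.Y := by
    intro t
    apply hY
    have h1 := t.2.1
    have h2 := t.2.2
    have h3 := hm.1
    have h4 := hm.2
    constructor <;> nlinarith
  have T3 := Tr.act hY2 T2 εp a
  have T4 := Tr.seg_trans hm T1 T3
  have h5 := Tr.unique hY1 T4 T
  rw [Prod.mk.injEq] at h5
  obtain ⟨h6, h7⟩ := h5
  rw [flip_flip] at h6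
  have h8 := flip_inj h6
  rw [← h8] at h7
  push_cast at h7
  have h9 : (V : ℝ) = ((εp : ℤ) : ℝ) * b + a := by linarith
  exact_mod_cast h9

theorem offset_on {Φ : Sys} {δ : ℝ} (q : Qbox δ × ℝ → ℂ) (hq : Continuous q)
    (C : Set (ℝ × ℝ)) (hC : Convex ℝ C) (hCQ : C ⊆ Qbox δ) {a b : ℝ} (hab : a ≤ b)
    (hY : ∀ x : Qbox δ, x.1 ∈ C → ∀ h ∈ Set.Icc a b, q (x, h) ∈ Φ.Y)
    {s1 s0 : Qbox δ → Circle} {y1 y0 : Qbox δ → ℝ}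
    (h1 : IsLift Φ (fun x => q (x, b)) s1 y1) (h0 : IsLift Φ (fun x => q (x, a)) s0 y0) :
    ∃ (ε : ℤˣ) (k : ℤ), ∀ x : Qbox δ, x.1 ∈ C → Tr Φ (seg (fun h => q (x, h)) b a) (s1 x, y1 x)
      (flip ε (s0 x), (ε : ℤ) * y0 x + k) := by
  haveI : PreconnectedSpace C := Subtype.preconnectedSpace hC.isPreconnected
  let j : C → Qbox δ := fun x => ⟨x.1, hCQ x.2⟩
  have hj : Continuous j := Continuous.subtype_mk continuous_subtype_val _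
  have hq' : Continuous (fun p : C × ℝ => q (j p.1, p.2)) :=
    hq.comp ((hj.comp continuous_fst).prodMk continuous_snd)
  have h1' : IsLift Φ (fun x : C => (fun p : C × ℝ => q (j p.1, p.2)) (x, b)) (s1 ∘ j) (y1 ∘ j) :=
    ⟨h1.cs.comp hj, h1.cy.comp hj, fun a => h1.sq (j a), fun a => h1.val (j a)⟩
  have h0' : IsLift Φ (fun x : C => (fun p : C × ℝ => q (j p.1, p.2)) (x, a)) (s0 ∘ j) (y0 ∘ j) :=
    ⟨h0.cs.comp hj, h0.cy.comp hj, fun a => h0.sq (j a), fun a => h0.val (j a)⟩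
  obtain ⟨ε, k, hT⟩ := vertical_offset (fun p : C × ℝ => q (j p.1, p.2)) hq' hab
    (fun x h hh => hY (j x) x.2 h hh) h1' h0'
  exact ⟨ε, k, fun x hx => hT ⟨x.1, hx⟩⟩

-- TARGET
/-- The relation of the four quadrants at a crossing. -/
theorem crossing_relation {Φ : Sys} {δ : ℝ} (hδ : 0 < δ)
    (q : Qbox δ × ℝ → ℂ) (hq : Continuous q)
    (o u : ℝ → ℝ) (ho : ContinuousOn o (Set.Ioo (-δ) δ)) (hu : ContinuousOn u (Set.Ioo (-δ) δ))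
    (m : ℝ) (hm : m ∈ Set.Ioo (-1 : ℝ) 1)
    (hom : ∀ x ∈ Set.Ioo (-δ) δ, o x ∈ Set.Ioo m 1)
    (hum : ∀ x ∈ Set.Ioo (-δ) δ, u x ∈ Set.Ioo (-1) m)
    (hY : ∀ x, ∀ h ∈ Set.Icc (-1 : ℝ) 1, ¬ (x.1.2 = 0 ∧ h = o x.1.1) →
      ¬ (x.1.1 = 0 ∧ h = u x.1.2) → q (x, h) ∈ Φ.Y)
    (c : ℂ) (hc : ∀ x, x.1.2 = 0 → q (x, o x.1.1) = c)
    {s1 s0 : Qbox δ → Circle}
    {y1 y0 : Qbox δ → ℝ}
    (h1 : IsLift Φ (fun x => q (x, 1)) s1 y1) (h0 : IsLift Φ (fun x => q (x, -1)) s0 y0)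
    (ε1 ε2 ε3 ε4 : ℤˣ) (V1 V2 V3 V4 : ℤ)
    (hV1 : ∀ x, 0 < x.1.1 → 0 < x.1.2 → Tr Φ (seg (fun h => q (x, h)) 1 (-1)) (s1 x, y1 x)
      (flip ε1 (s0 x), (ε1 : ℤ) * y0 x + V1))
    (hV2 : ∀ x, x.1.1 < 0 → 0 < x.1.2 → Tr Φ (seg (fun h => q (x, h)) 1 (-1)) (s1 x, y1 x)
      (flip ε2 (s0 x), (ε2 : ℤ) * y0 x + V2))
    (hV3 : ∀ x, x.1.1 < 0 → x.1.2 < 0 → Tr Φ (seg (fun h => q (x, h)) 1 (-1)) (s1 x, y1 x)
      (flip ε3 (s0 x), (ε3 : ℤ) * y0 x + V3))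
    (hV4 : ∀ x, 0 < x.1.1 → x.1.2 < 0 → Tr Φ (seg (fun h => q (x, h)) 1 (-1)) (s1 x, y1 x)
      (flip ε4 (s0 x), (ε4 : ℤ) * y0 x + V4))
    (hno : NoSqrt Φ c) (ρ : ℤ) (hloc : LocLog Φ c ρ)
    (ε' : ℝ) (hε' : 0 < ε')
    (w : ℂ → Qbox δ × ℝ)
    (hw : ContinuousOn w (Metric.ball c ε' \ {c}))
    (hw2 : ∀ x ∈ Metric.ball c ε' \ {c}, (w x).2 ∈ Set.Ioo m 1 ∧ q (w x) = x) :
    V1 + V4 = V2 + V3 := by
  have hIoo : ∀ x : Qbox δ, x.1.1 ∈ Set.Ioo (-δ) δ ∧ x.1.2 ∈ Set.Ioo (-δ) δ := fun x => x.2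
  have hm1 := hm.1
  have hm2 := hm.2
  have hup : ∀ x : Qbox δ, ∀ h ∈ Set.Icc m 1, ¬ (x.1.2 = 0 ∧ h = o x.1.1) → q (x, h) ∈ Φ.Y := by
    intro x h hh hn
    refine hY x h ⟨by linarith [hh.1], hh.2⟩ hn ?_
    rintro ⟨_, h2⟩
    have := (hum _ (hIoo x).2).2
    rw [← h2] at this
    linarith [hh.1]
  have hdown : ∀ x : Qbox δ, ∀ h ∈ Set.Icc (-1) m, ¬ (x.1.1 = 0 ∧ h = u x.1.2) → q (x, h) ∈ Φ.Y := by
    intro x h hh hn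
    refine hY x h ⟨hh.1, by linarith [hh.2]⟩ ?_ hn
    rintro ⟨_, h2⟩
    have := (hom _ (hIoo x).1).1
    rw [← h2] at this
    linarith [hh.2]
  have hlevm : ∀ x : Qbox δ, q (x, m) ∈ Φ.Y := by
    intro x
    refine hup x m ⟨le_rfl, hm2.le⟩ ?_
    rintro ⟨_, h2⟩
    have := (hom _ (hIoo x).1).1
    rw [← h2] at this
    exact lt_irrefl _ this
  have hconvQ : Convex ℝ (Qbox δ) := (convex_Ioo _ _).prod (convex_Ioo _ _)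
  obtain ⟨sm, ym, hlm⟩ := lift_convex Φ (Qbox δ) hconvQ (fun x => q (x, m))
    (hq.comp (continuous_id.prodMk continuous_const)) hlevm
  -- the four half boxes
  have hcp : Convex ℝ {x : ℝ × ℝ | x ∈ Qbox δ ∧ 0 < x.2} :=
    hconvQ.inter ((convex_Ioi (0:ℝ)).is_linear_preimage (IsLinearMap.mk (fun _ _ => rfl) (fun _ _ => rfl) : IsLinearMap ℝ (fun x : ℝ × ℝ => x.2)))
  have hcm : Convex ℝ {x : ℝ × ℝ | x ∈ Qbox δ ∧ x.2 < 0} :=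
    hconvQ.inter ((convex_Iio (0:ℝ)).is_linear_preimage (IsLinearMap.mk (fun _ _ => rfl) (fun _ _ => rfl) : IsLinearMap ℝ (fun x : ℝ × ℝ => x.2)))
  have hcr : Convex ℝ {x : ℝ × ℝ | x ∈ Qbox δ ∧ 0 < x.1} :=
    hconvQ.inter ((convex_Ioi (0:ℝ)).is_linear_preimage (IsLinearMap.mk (fun _ _ => rfl) (fun _ _ => rfl) : IsLinearMap ℝ (fun x : ℝ × ℝ => x.1)))
  have hcl : Convex ℝ {x : ℝ × ℝ | x ∈ Qbox δ ∧ x.1 < 0} :=
    hconvQ.inter ((convex_Iio (0:ℝ)).is_linear_preimage (IsLinearMap.mk (fun _ _ => rfl) (fun _ _ => rfl) : IsLinearMap ℝ (fun x : ℝ × ℝ => x.1)))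
  obtain ⟨εp, ap, hTp⟩ := offset_on q hq _ hcp (fun x hx => hx.1) hm2.le
    (fun x hx h hh => hup x h hh (fun hn => hx.2.ne' hn.1)) h1 hlm
  obtain ⟨εm, am, hTm⟩ := offset_on q hq _ hcm (fun x hx => hx.1) hm2.le
    (fun x hx h hh => hup x h hh (fun hn => hx.2.ne hn.1)) h1 hlm
  obtain ⟨dr, br, hTr⟩ := offset_on q hq _ hcr (fun x hx => hx.1) hm1.le
    (fun x hx h hh => hdown x h hh (fun hn => hx.2.ne' hn.1)) hlm h0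
  obtain ⟨dl, bl, hTl⟩ := offset_on q hq _ hcl (fun x hx => hx.1) hm1.le
    (fun x hx h hh => hdown x h hh (fun hn => hx.2.ne hn.1)) hlm h0
  have hc1 : Continuous (fun x : Qbox δ => x.1.1) := continuous_fst.comp continuous_subtype_val
  have hc2 : Continuous (fun x : Qbox δ => x.1.2) := continuous_snd.comp continuous_subtype_val
  have hstr := strand_lemma (Φ := Φ) (U := Qbox δ) {x | x.1.2 = 0} {x | 0 < x.1.2} {x | x.1.2 < 0}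
    (isClosed_eq hc2 continuous_const) (isOpen_lt continuous_const hc2) (isOpen_lt hc2 continuous_const)
    (by
      intro x
      rcases lt_trichotomy x.1.2 0 with h | h | h
      · exact Or.inr (Or.inl h)
      · exact Or.inr (Or.inr h)
      · exact Or.inl h)
    (by
      rw [Set.disjoint_left]
      intro x hx hx'
      exact lt_asymm (show 0 < x.1.2 from hx) hx')
    (by
      rw [Set.disjoint_left]
      intro x hx hx'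
      exact (show 0 < x.1.2 from hx).ne' hx')
    (by
      rw [Set.disjoint_left]
      intro x hx hx'
      exact (show x.1.2 < 0 from hx).ne hx')
    hm2 q hq (fun x => o x.1.1)
    ((ho.comp_continuous hc1 (fun x => (hIoo x).1)).continuousOn)
    (fun x _ => hom _ (hIoo x).1)
    (fun x h hh hn => hup x h hh hn)
    c (fun x hx => hc x hx) h1 hlm εp εm ap am
    (fun x hx => hTp x ⟨x.2, hx⟩) (fun x hx => hTm x ⟨x.2, hx⟩)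
    hno ρ hloc ε' hε' w hw hw2
  have hεm := hstr.1
  have hδ2 : δ / 2 ∈ Set.Ioo (-δ) δ := ⟨by linarith, by linarith⟩
  have hδ3 : -(δ / 2) ∈ Set.Ioo (-δ) δ := ⟨by linarith, by linarith⟩
  have hδp : 0 < δ / 2 := by linarith
  have hδn : -(δ / 2) < 0 := by linarith
  have hYx : ∀ x : Qbox δ, x.1.1 ≠ 0 → x.1.2 ≠ 0 → ∀ h ∈ Set.Icc (-1 : ℝ) 1, q (x, h) ∈ Φ.Y :=
    fun x h1 h2 h hh => hY x h hh (fun hn => h2 hn.1) (fun hn => h1 hn.1)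
  have e1 : V1 = (εp : ℤ) * br + ap :=
    quad_aux (f := fun h => q ((⟨(δ / 2, δ / 2), hδ2, hδ2⟩ : Qbox δ), h)) hm
      (hYx _ hδp.ne' hδp.ne')
      (hTp ⟨(δ / 2, δ / 2), hδ2, hδ2⟩ ⟨⟨hδ2, hδ2⟩, hδp⟩)
      (hTr ⟨(δ / 2, δ / 2), hδ2, hδ2⟩ ⟨⟨hδ2, hδ2⟩, hδp⟩)
      (hV1 ⟨(δ / 2, δ / 2), hδ2, hδ2⟩ hδp hδp)
  have e2 : V2 = (εp : ℤ) * bl + ap :=
    quad_aux (f := fun h => q ((⟨(-(δ / 2), δ / 2), hδ3, hδ2⟩ : Qbox δ), h)) hm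
      (hYx _ hδn.ne hδp.ne')
      (hTp ⟨(-(δ / 2), δ / 2), hδ3, hδ2⟩ ⟨⟨hδ3, hδ2⟩, hδp⟩)
      (hTl ⟨(-(δ / 2), δ / 2), hδ3, hδ2⟩ ⟨⟨hδ3, hδ2⟩, hδn⟩)
      (hV2 ⟨(-(δ / 2), δ / 2), hδ3, hδ2⟩ hδn hδp)
  have e3 : V3 = (εm : ℤ) * bl + am :=
    quad_aux (f := fun h => q ((⟨(-(δ / 2), -(δ / 2)), hδ3, hδ3⟩ : Qbox δ), h)) hm
      (hYx _ hδn.ne hδn.ne)
      (hTm ⟨(-(δ / 2), -(δ / 2)), hδ3, hδ3⟩ ⟨⟨hδ3, hδ3⟩, hδn⟩)
      (hTl ⟨(-(δ / 2), -(δ / 2)), hδ3, hδ3⟩ ⟨⟨hδ3, hδ3⟩, hδn⟩)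
      (hV3 ⟨(-(δ / 2), -(δ / 2)), hδ3, hδ3⟩ hδn hδn)
  have e4 : V4 = (εm : ℤ) * br + am :=
    quad_aux (f := fun h => q ((⟨(δ / 2, -(δ / 2)), hδ2, hδ3⟩ : Qbox δ), h)) hm
      (hYx _ hδp.ne' hδn.ne)
      (hTm ⟨(δ / 2, -(δ / 2)), hδ2, hδ3⟩ ⟨⟨hδ2, hδ3⟩, hδn⟩)
      (hTr ⟨(δ / 2, -(δ / 2)), hδ2, hδ3⟩ ⟨⟨hδ2, hδ3⟩, hδp⟩)
      (hV4 ⟨(δ / 2, -(δ / 2)), hδ2, hδ3⟩ hδp hδn)
  rw [e1, e2, e3, e4, hεm]
  push_cast
  ring

end AltGenus562
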