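import Pool.Agent.Helper562.AltG.DefsAll
import Pool.Agent.Helper562.AltG.P.A2
import Pool.Agent.Helper562.AltG.P.A3
import Pool.Agent.Helper562.AltG.P.A4

noncomputable section

namespace AltGenus562

open Set Topology unitInterval

theorem ce_neg' (y : ℝ) : ce (-y) = (ce y)⁻¹ := by
  unfold ce
  rw [mul_neg, Circle.exp_neg]

theorem ce_eq_iff' {y y' : ℝ} (h : ce y = ce y') : ∃ k : ℤ, y' = y + k := by
  unfold ce at h
  rw [Circle.exp_eq_exp] at h
  obtain ⟨m, hm⟩ := h
  refine ⟨-m, ?_⟩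
  have hpi : (2 * Real.pi) ≠ 0 := by positivity
  have : 2 * Real.pi * y = 2 * Real.pi * (y' + m) := by rw [hm]; ring
  have h2 := mul_left_cancel₀ hpi this
  push_cast
  linarith

theorem circle_neg_ne (ζ : Circle) : -ζ ≠ ζ := by
  intro h
  have h1 : ((-ζ : Circle) : ℂ) = (ζ : ℂ) := by rw [h]
  rw [Circle.coe_neg] at h1
  have h2 : (ζ : ℂ) = 0 := by
    have : (2 : ℂ) * ζ = 0 := by linear_combination -h1
    simpa using this
  exact Circle.coe_ne_zero ζ h2

theorem circle_sq_eq {ζ s : Circle} (h : ζ ^ 2 = s ^ 2) : ζ = s ∨ ζ = -s := by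
  have h1 : (ζ : ℂ) ^ 2 = (s : ℂ) ^ 2 := by
    have := congrArg (fun c : Circle => (c : ℂ)) h
    simpa using this
  rcases sq_eq_sq_iff_eq_or_eq_neg.1 h1 with h2 | h2
  · left; exact Circle.ext h2
  · right; apply Circle.ext; rw [Circle.coe_neg]; exact h2

/-- path independence up to sign -/
theorem end_unique {Φ : Sys} {S : Type*} [TopologicalSpace S] (q : S → ℂ) (hq : Continuous q)
    (hY : ∀ z, q z ∈ Φ.Y) (z0 : S) (ζ0 : Circle) (y0 : ℝ)
    (hgood : ∀ γ : Path z0 z0, Good Φ q ζ0 y0 γ) {z : S} (γ γ' : Path z0 z)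
    {e e' : Circle × ℝ} (h : Tr Φ (fun t => q (γ t)) (ζ0, y0) e)
    (h' : Tr Φ (fun t => q (γ' t)) (ζ0, y0) e') : e' = e ∨ e' = (-e.1, -e.2) := by
  have hfib := Tr.fibre h
  have hcont : Continuous (fun t => q (γ'.symm t)) := hq.comp γ'.symm.continuous
  have hf1 : e.1 ^ 2 = Φ.θ ((fun t => q (γ'.symm t)) 0) := by
    have := hfib.2.1
    simpa using this
  have hf2 : ce e.2 = Φ.F ((fun t => q (γ'.symm t)) 0, e.1) := by
    have := hfib.2.2
    simpa using this
  obtain ⟨e2, he2⟩ := Tr.exists hcont (fun t => hY _) hf1 hf2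
  have he2' : Tr Φ (fun t => q (γ'.symm t)) e e2 := he2
  have h3 := Tr.path_trans q γ γ'.symm h he2'
  have h4 := Tr.path_symm q γ'.symm he2'
  rw [Path.symm_symm] at h4
  rcases hgood (γ.trans γ'.symm) with hg | hg
  · have h5 : e2 = (ζ0, y0) := Tr.unique (fun t => hY _) h3 hg
    rw [h5] at h4
    left
    exact Tr.unique (fun t => hY _) h' h4
  · have h5 : e2 = (-ζ0, -y0) := Tr.unique (fun t => hY _) h3 hg
    rw [h5] at h4
    have h6 : Tr Φ (fun t => q (γ' t)) (flip (-1) ζ0, ((-1 : ℤˣ) : ℤ) * y0 + (0 : ℤ))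
        (flip (-1) e'.1, ((-1 : ℤˣ) : ℤ) * e'.2 + (0 : ℤ)) :=
      Tr.act (fun t => hY _) (ζ := ζ0) (ζ' := e'.1) (y := y0) (y' := e'.2) h' (-1) 0
    have h7 : Tr Φ (fun t => q (γ' t)) (-ζ0, -y0) (-e'.1, -e'.2) := by
      have hne : ¬ ((-1 : ℤˣ) = 1) := by decide
      simpa [flip, hne] using h6
    have h8 := Tr.unique (fun t => hY _) h4 h7
    right
    rw [h8]
    simp

-- TARGET
theorem antiLog_of_good {Φ : Sys} (hYo : IsOpen Φ.Y) {S : Type*} [TopologicalSpace S]
    [PathConnectedSpace S] [LocallyPathConnectedSpace S] (q : S → ℂ) (hq : Continuous q)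
    (hY : ∀ z, q z ∈ Φ.Y) (z0 : S) (ζ0 : Circle) (y0 : ℝ) (h1 : ζ0 ^ 2 = Φ.θ (q z0))
    (h2 : ce y0 = Φ.F (q z0, ζ0)) (hgood : ∀ γ : Path z0 z0, Good Φ q ζ0 y0 γ) :
    ∃ f, AntiLog Φ q f := by
  classical
  have hex : ∀ z : S, ∃ e : Circle × ℝ,
      Tr Φ (fun t => q ((PathConnectedSpace.somePath z0 z) t)) (ζ0, y0) e := by
    intro z
    apply Tr.exists (hq.comp (PathConnectedSpace.somePath z0 z).continuous) (fun t => hY _)
    · simpa using h1
    · simpa using h2
  choose E hE using hex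
  have hkey : ∀ (z : S) (γ : Path z0 z) (e' : Circle × ℝ),
      Tr Φ (fun t => q (γ t)) (ζ0, y0) e' → e' = E z ∨ e' = (-(E z).1, -(E z).2) :=
    fun z γ e' h => end_unique q hq hY z0 ζ0 y0 hgood _ γ (hE z) h
  have hfib1 : ∀ z, (E z).1 ^ 2 = Φ.θ (q z) := fun z => by
    have := (Tr.fibre (hE z)).2.1
    simpa using this
  have hfib2 : ∀ z, ce (E z).2 = Φ.F (q z, (E z).1) := fun z => by
    have := (Tr.fibre (hE z)).2.2
    simpa using this
  let f : S × Circle → ℝ := fun p => if p.2 = (E p.1).1 then (E p.1).2 else -(E p.1).2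
  have hf1 : ∀ z, f (z, (E z).1) = (E z).2 := fun z => by simp [f]
  have hf2 : ∀ z, f (z, -(E z).1) = -(E z).2 := fun z => by
    simp only [f]
    rw [if_neg (circle_neg_ne _)]
  have hf3 : ∀ z (e' : Circle × ℝ), (e' = E z ∨ e' = (-(E z).1, -(E z).2)) →
      f (z, e'.1) = e'.2 ∧ f (z, -e'.1) = -e'.2 := by
    rintro z e' (h | h)
    · rw [h]; exact ⟨hf1 z, hf2 z⟩
    · rw [h]
      refine ⟨hf2 z, ?_⟩
      simp only [neg_neg]
      exact hf1 z
  refine ⟨f, ?_, ?_, ?_⟩
  · rintro ⟨z1, ζ1⟩ hz1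
    change ζ1 ^ 2 = Φ.θ (q z1) at hz1
    obtain ⟨r, hr, hball⟩ := Metric.isOpen_iff.1 hYo (q z1) (hY z1)
    have hmem : q z1 ∈ Metric.ball (q z1) r := Metric.mem_ball_self hr
    obtain ⟨s, y, hsy⟩ := lift_convex Φ (Metric.ball (q z1) r) (convex_ball _ _)
      (fun a => (a : ℂ)) continuous_subtype_val (fun a => hball a.2)
    -- normalise
    obtain ⟨s', y', hsy', hs1, hy1⟩ : ∃ (s' : Metric.ball (q z1) r → Circle)
        (y' : Metric.ball (q z1) r → ℝ), IsLift Φ (fun a : Metric.ball (q z1) r => (a : ℂ)) s' y' ∧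
        s' ⟨q z1, hmem⟩ = (E z1).1 ∧ y' ⟨q z1, hmem⟩ = (E z1).2 := by
      have hsq := hsy.sq ⟨q z1, hmem⟩
      have hval := hsy.val ⟨q z1, hmem⟩
      have hor : (E z1).1 = s ⟨q z1, hmem⟩ ∨ (E z1).1 = -s ⟨q z1, hmem⟩ := by
        apply circle_sq_eq
        rw [hfib1 z1, hsq]
      rcases hor with ho | ho
      · have hce : ce (y ⟨q z1, hmem⟩) = ce (E z1).2 := by
          rw [hfib2 z1, ho]; exact hval
        obtain ⟨k, hk⟩ := ce_eq_iff' hce
        refine ⟨_, _, hsy.act (fun a => hball a.2) 1 k, ?_, ?_⟩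
        · simp [flip, ho]
        · simp [hk]
      · have hce : ce (-(y ⟨q z1, hmem⟩)) = ce (E z1).2 := by
          rw [hfib2 z1, ho, ce_neg', hval]
          rw [Φ.anti _ (hY z1) _ (by rw [← hsq])]
        obtain ⟨k, hk⟩ := ce_eq_iff' hce
        have hne : ¬ ((-1 : ℤˣ) = 1) := by decide
        refine ⟨_, _, hsy.act (fun a => hball a.2) (-1) k, ?_, ?_⟩
        · simp [flip, ho, hne]
        · simp [hk]
    -- neighbourhood
    have hpre : q ⁻¹' Metric.ball (q z1) r ∈ 𝓝 z1 :=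
      hq.continuousAt.preimage_mem_nhds (Metric.ball_mem_nhds _ hr)
    obtain ⟨N, ⟨hN, hNpc⟩, hNsub⟩ :=
      (LocallyPathConnectedSpace.path_connected_basis z1).mem_iff.1 hpre
    change N ⊆ q ⁻¹' Metric.ball (q z1) r at hNsub
    have hz1N : z1 ∈ N := mem_of_mem_nhds hN
    have hend : ∀ z (hz : z ∈ N), (s' ⟨q z, hNsub hz⟩, y' ⟨q z, hNsub hz⟩) = E z ∨
        (s' ⟨q z, hNsub hz⟩, y' ⟨q z, hNsub hz⟩) = (-(E z).1, -(E z).2) := by
      intro z hz
      have hj := hNpc.joinedIn z1 hz1N z hz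
      let δ := hj.somePath
      have hδ : ∀ t, δ t ∈ N := hj.somePath_mem
      have htr : Tr Φ (fun t => q (δ t)) (E z1) (s' ⟨q z, hNsub hz⟩, y' ⟨q z, hNsub hz⟩) := by
        have hcq : Continuous (fun t : I => (⟨q (δ t), hNsub (hδ t)⟩ : Metric.ball (q z1) r)) :=
          (hq.comp δ.continuous).subtype_mk _
        refine ⟨fun t => s' ⟨q (δ t), hNsub (hδ t)⟩, fun t => y' ⟨q (δ t), hNsub (hδ t)⟩,
          ⟨hsy'.cs.comp hcq, hsy'.cy.comp hcq, fun t => hsy'.sq _, fun t => hsy'.val _⟩, ?_, ?_⟩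
        · simp only [Path.source, hs1, hy1]
        · simp only [Path.target]
      have h9 := Tr.path_trans q (PathConnectedSpace.somePath z0 z1) δ (hE z1) htr
      exact hkey z _ _ h9
    -- extensions
    let sB : ℂ → Circle := fun x => if h : x ∈ Metric.ball (q z1) r then s' ⟨x, h⟩ else 1
    let yB : ℂ → ℝ := fun x => if h : x ∈ Metric.ball (q z1) r then y' ⟨x, h⟩ else 0
    have hsBc : ContinuousOn sB (Metric.ball (q z1) r) := by
      rw [continuousOn_iff_continuous_domRestrict]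
      have : (Metric.ball (q z1) r).domRestrict sB = s' := by
        funext a
        exact dif_pos a.2
      rw [this]; exact hsy'.cs
    have hyBc : ContinuousOn yB (Metric.ball (q z1) r) := by
      rw [continuousOn_iff_continuous_domRestrict]
      have : (Metric.ball (q z1) r).domRestrict yB = y' := by
        funext a
        exact dif_pos a.2
      rw [this]; exact hsy'.cy
    have hsBat : ContinuousAt sB (q z1) := hsBc.continuousAt (Metric.ball_mem_nhds _ hr)
    have hyBat : ContinuousAt yB (q z1) := hyBc.continuousAt (Metric.ball_mem_nhds _ hr)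
    have hqfst : ContinuousAt (fun p : S × Circle => q p.1) (z1, ζ1) :=
      (hq.comp continuous_fst).continuousAt
    have hsBp : ContinuousAt (fun p : S × Circle => sB (q p.1)) (z1, ζ1) :=
      ContinuousAt.comp (g := sB) (f := fun p : S × Circle => q p.1) hsBat hqfst
    have hyBp : ContinuousAt (fun p : S × Circle => yB (q p.1)) (z1, ζ1) :=
      ContinuousAt.comp (g := yB) (f := fun p : S × Circle => q p.1) hyBat hqfst
    have hfB : ∀ z ∈ N, f (z, sB (q z)) = yB (q z) ∧ f (z, -sB (q z)) = -yB (q z) := by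
      intro z hz
      have := hf3 z _ (hend z hz)
      have e1 : sB (q z) = s' ⟨q z, hNsub hz⟩ := dif_pos (hNsub hz)
      have e2 : yB (q z) = y' ⟨q z, hNsub hz⟩ := dif_pos (hNsub hz)
      rw [e1, e2]
      exact this
    have hsqB : ∀ z ∈ N, sB (q z) ^ 2 = Φ.θ (q z) := by
      intro z hz
      have e1 : sB (q z) = s' ⟨q z, hNsub hz⟩ := dif_pos (hNsub hz)
      rw [e1]
      exact hsy'.sq _
    have hNev : ∀ᶠ p : S × Circle in 𝓝 (z1, ζ1), p.1 ∈ N :=
      (continuous_fst.continuousAt (x := ((z1, ζ1) : S × Circle))).preimage_mem_nhds hN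
    have hor : ζ1 = sB (q z1) ∨ ζ1 = -sB (q z1) := by
      apply circle_sq_eq
      rw [hz1, hsqB z1 hz1N]
    rcases hor with ho | ho
    · have hne : ∀ᶠ p : S × Circle in 𝓝 (z1, ζ1), p.2 ≠ -sB (q p.1) := by
        have t1 : ContinuousAt (fun p : S × Circle => p.2) (z1, ζ1) :=
          continuous_snd.continuousAt
        have t2 : ContinuousAt (fun p : S × Circle => -sB (q p.1)) (z1, ζ1) := hsBp.neg
        refine (t1.ne_iff_eventually_ne t2).1 ?_
        change ζ1 ≠ -sB (q z1)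
        rw [ho]
        exact (circle_neg_ne _).symm
      have hcw : ContinuousWithinAt (fun p : S × Circle => yB (q p.1))
        {p | p.2 ^ 2 = Φ.θ (q p.1)} (z1, ζ1) := hyBp.continuousWithinAt
      refine hcw.congr_of_eventuallyEq ?_ ?_
      · have h10 : ∀ᶠ p : S × Circle in 𝓝[{p | p.2 ^ 2 = Φ.θ (q p.1)}] (z1, ζ1),
          p.2 ^ 2 = Φ.θ (q p.1) := eventually_mem_nhdsWithin
        filter_upwards [h10, hNev.filter_mono nhdsWithin_le_nhds,
          hne.filter_mono nhdsWithin_le_nhds]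
        rintro ⟨z, ζ⟩ ha hb hc
        simp only at ha hb hc ⊢
        have hor : ζ = sB (q z) ∨ ζ = -sB (q z) := by
          apply circle_sq_eq
          rw [ha, hsqB z hb]
        rcases hor with h | h
        · rw [h]; exact (hfB z hb).1
        · exact absurd h hc
      · rw [ho]; exact (hfB z1 hz1N).1
    · have hne : ∀ᶠ p : S × Circle in 𝓝 (z1, ζ1), p.2 ≠ sB (q p.1) := by
        have t1 : ContinuousAt (fun p : S × Circle => p.2) (z1, ζ1) :=
          continuous_snd.continuousAt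
        refine (t1.ne_iff_eventually_ne hsBp).1 ?_
        change ζ1 ≠ sB (q z1)
        rw [ho]
        exact circle_neg_ne _
      have hcw : ContinuousWithinAt (fun p : S × Circle => -yB (q p.1))
        {p | p.2 ^ 2 = Φ.θ (q p.1)} (z1, ζ1) := hyBp.neg.continuousWithinAt
      refine hcw.congr_of_eventuallyEq ?_ ?_
      · have h10 : ∀ᶠ p : S × Circle in 𝓝[{p | p.2 ^ 2 = Φ.θ (q p.1)}] (z1, ζ1),
          p.2 ^ 2 = Φ.θ (q p.1) := eventually_mem_nhdsWithin
        filter_upwards [h10, hNev.filter_mono nhdsWithin_le_nhds,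
          hne.filter_mono nhdsWithin_le_nhds]
        rintro ⟨z, ζ⟩ ha hb hc
        simp only at ha hb hc ⊢
        have hor : ζ = sB (q z) ∨ ζ = -sB (q z) := by
          apply circle_sq_eq
          rw [ha, hsqB z hb]
        rcases hor with h | h
        · exact absurd h hc
        · rw [h]; exact (hfB z hb).2
      · rw [ho]; exact (hfB z1 hz1N).2
  · intro z ζ hζ
    have hor : ζ = (E z).1 ∨ ζ = -(E z).1 := by
      apply circle_sq_eq
      rw [hζ, hfib1 z]
    rcases hor with ho | ho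
    · rw [ho, hf1, hfib2]
    · rw [ho, hf2, ce_neg', hfib2, Φ.anti _ (hY z) _ (hfib1 z)]
  · intro z ζ hζ
    have hor : ζ = (E z).1 ∨ ζ = -(E z).1 := by
      apply circle_sq_eq
      rw [hζ, hfib1 z]
    rcases hor with ho | ho
    · rw [ho, hf1, hf2]
    · rw [ho, neg_neg, hf1, hf2, neg_neg]

end AltGenus562
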