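import Pool.Agent.Helper562.AltG.DefsAll
import Pool.Agent.Helper562.AltG.P.A1
import Pool.Agent.Helper562.AltG.P.A2
import Pool.Agent.Helper562.AltG.P.A3
import Pool.Agent.Helper562.AltG.P.A4
import Pool.Agent.Helper562.AltG.P.A5

noncomputable section

namespace AltGenus562

open Set Topology unitInterval

theorem flip_neg_one (ζ : Circle) : flip (-1) ζ = -ζ := by
  unfold flip
  rw [if_neg]
  decide

/-- transport commutes with the central symmetry -/
theorem Tr.neg {Φ : Sys} {p : I → ℂ} (hY : ∀ t, p t ∈ Φ.Y) {ζ ζ' : Circle} {y y' : ℝ}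
    (h : Tr Φ p (ζ, y) (ζ', y')) : Tr Φ p (-ζ, -y) (-ζ', -y') := by
  have h1 := Tr.act hY h (-1) 0
  rw [flip_neg_one, flip_neg_one] at h1
  simpa using h1

theorem good_refl {Φ : Sys} {S : Type*} [TopologicalSpace S] (q : S → ℂ) (z0 : S) (ζ0 : Circle)
    (y0 : ℝ) (h1 : ζ0 ^ 2 = Φ.θ (q z0)) (h2 : ce y0 = Φ.F (q z0, ζ0)) :
    Good Φ q ζ0 y0 (Path.refl z0) := by
  left
  refine ⟨fun _ => ζ0, fun _ => y0, ⟨continuous_const, continuous_const, fun _ => ?_,
    fun _ => ?_⟩, rfl, rfl⟩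
  · exact h1
  · exact h2

theorem good_trans {Φ : Sys} {S : Type*} [TopologicalSpace S] {q : S → ℂ}
    (hY : ∀ z, q z ∈ Φ.Y) {z0 : S} {ζ0 : Circle} {y0 : ℝ} {γ γ' : Path z0 z0}
    (h : Good Φ q ζ0 y0 γ) (h' : Good Φ q ζ0 y0 γ') : Good Φ q ζ0 y0 (γ.trans γ') := by
  rcases h with h | h <;> rcases h' with h' | h'
  · exact Or.inl (Tr.path_trans q γ γ' h h')
  · exact Or.inr (Tr.path_trans q γ γ' h h')
  · exact Or.inr (Tr.path_trans q γ γ' h (Tr.neg (fun _ => hY _) h'))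
  · refine Or.inl (Tr.path_trans q γ γ' h ?_)
    have := Tr.neg (fun _ => hY _) h'
    simpa using this

theorem good_symm {Φ : Sys} {S : Type*} [TopologicalSpace S] {q : S → ℂ}
    (hY : ∀ z, q z ∈ Φ.Y) {z0 : S} {ζ0 : Circle} {y0 : ℝ} {γ : Path z0 z0}
    (h : Good Φ q ζ0 y0 γ) : Good Φ q ζ0 y0 γ.symm := by
  rcases h with h | h
  · exact Or.inl (Tr.path_symm q γ h)
  · right
    have h1 := Tr.path_symm q γ h
    have h2 := Tr.neg (fun _ => hY _) h1
    simpa using h2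

theorem good_congr {Φ : Sys} {S : Type*} [TopologicalSpace S] {q : S → ℂ} (hq : Continuous q)
    (hY : ∀ z, q z ∈ Φ.Y) {z0 : S} {ζ0 : Circle} {y0 : ℝ} {γ γ' : Path z0 z0}
    (hh : γ.Homotopic γ') (h : Good Φ q ζ0 y0 γ) : Good Φ q ζ0 y0 γ' := by
  rcases h with h | h
  · exact Or.inl (Tr.homotopic q hq hY γ γ' hh h)
  · exact Or.inr (Tr.homotopic q hq hY γ γ' hh h)

-- TARGET
theorem good_of_generators {Φ : Sys} {S : Type*} [TopologicalSpace S]
    (q : S → ℂ) (hq : Continuous q)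
    (hY : ∀ z, q z ∈ Φ.Y) (z0 : S) (ζ0 : Circle) (y0 : ℝ) (h1 : ζ0 ^ 2 = Φ.θ (q z0))
    (h2 : ce y0 = Φ.F (q z0, ζ0)) (G : Set (FundamentalGroup S z0))
    (hG : Subgroup.closure G = ⊤)
    (hgood : ∀ g ∈ G, ∃ γ : Path z0 z0, FundamentalGroup.fromPath ⟦γ⟧ = g ∧ Good Φ q ζ0 y0 γ)
    (γ : Path z0 z0) : Good Φ q ζ0 y0 γ := by
  -- the predicate on classes
  have key : ∀ g : FundamentalGroup S z0, g ∈ Subgroup.closure G →
      ∀ γ : Path z0 z0, Path.Homotopic.Quotient.mk γ = g → Good Φ q ζ0 y0 γ := by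
    intro g hg
    induction hg using Subgroup.closure_induction with
    | mem g hg =>
      intro γ hγ
      obtain ⟨γ', h3, h4⟩ := hgood g hg
      refine good_congr hq hY ?_ h4
      apply Path.Homotopic.Quotient.exact
      rw [hγ]
      exact h3
    | one =>
      intro γ hγ
      refine good_congr hq hY ?_ (good_refl q z0 ζ0 y0 h1 h2)
      apply Path.Homotopic.Quotient.exact
      rw [hγ]
      rfl
    | mul a b _ _ ha hb =>
      intro γ hγ
      obtain ⟨γa, hγa⟩ := Path.Homotopic.Quotient.mk_surjective a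
      obtain ⟨γb, hγb⟩ := Path.Homotopic.Quotient.mk_surjective b
      refine good_congr hq hY ?_ (good_trans hY (hb γb hγb) (ha γa hγa))
      apply Path.Homotopic.Quotient.exact
      rw [hγ, Path.Homotopic.Quotient.mk_trans, hγa, hγb]
      rfl
    | inv a _ ha =>
      intro γ hγ
      obtain ⟨γa, hγa⟩ := Path.Homotopic.Quotient.mk_surjective a
      refine good_congr hq hY ?_ (good_symm hY (ha γa hγa))
      apply Path.Homotopic.Quotient.exact
      rw [hγ, Path.Homotopic.Quotient.mk_symm, hγa]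
      rfl
  exact key (Path.Homotopic.Quotient.mk γ) (by rw [hG]; trivial) γ rfl

end AltGenus562
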