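import Pool.Agent.Helper562.AltG.DefsAll
import Pool.Agent.Helper562.AltG.P.A1
import Pool.Agent.Helper562.AltG.P.A2

noncomputable section

namespace AltGenus562

open Set Topology unitInterval

theorem ce_add' (a b : ℝ) : ce (a + b) = ce a * ce b := by
  unfold ce
  rw [mul_add, Circle.exp_add]

theorem ce_zero' : ce 0 = 1 := by
  unfold ce
  rw [mul_zero, Circle.exp_zero]

theorem ce_neg' (a : ℝ) : ce (-a) = (ce a)⁻¹ := by
  have h : ce (-a) * ce a = 1 := by rw [← ce_add', neg_add_cancel, ce_zero']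
  exact eq_inv_of_mul_eq_one_left h

theorem ce_nat' (k : ℕ) (a : ℝ) : ce (k * a) = ce a ^ k := by
  induction k with
  | zero => simp [ce_zero']
  | succ k ih =>
    push_cast
    rw [add_mul, one_mul, ce_add', ih, pow_succ]

theorem ce_int' (k : ℤ) (a : ℝ) : ce (k * a) = ce a ^ k := by
  rcases Int.eq_nat_or_neg k with ⟨n, rfl | rfl⟩
  · rw [zpow_natCast]
    exact_mod_cast ce_nat' n a
  · rw [zpow_neg, zpow_natCast, ← ce_nat', ← ce_neg']
    congr 1
    push_cast
    ring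

theorem ce_one' : ce 1 = 1 := by
  unfold ce
  rw [mul_one, Circle.exp_two_pi]

theorem ce_intcast' (k : ℤ) : ce (k : ℝ) = 1 := by
  have := ce_int' k 1
  rwa [mul_one, ce_one', one_zpow] at this

theorem ce_sum' {ι : Type*} (s : Finset ι) (f : ι → ℝ) : ce (∑ j ∈ s, f j) = ∏ j ∈ s, ce (f j) := by
  classical
  induction s using Finset.induction_on with
  | empty => simp [ce_zero']
  | insert a s ha ih => rw [Finset.sum_insert ha, Finset.prod_insert ha, ce_add', ih]

theorem ce_eq' {a b : ℝ} (h : ce a = ce b) : ∃ k : ℤ, a = b + k := by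
  unfold ce at h
  obtain ⟨m, hm⟩ := Circle.exp_eq_exp.1 h
  refine ⟨m, ?_⟩
  have hpi : (0:ℝ) < 2 * Real.pi := Real.two_pi_pos
  have : 2 * Real.pi * (a - b - m) = 0 := by linarith
  rcases mul_eq_zero.1 this with h0 | h0
  · exact absurd h0 hpi.ne'
  · linarith

theorem circle_neg_ne (ζ : Circle) : -ζ ≠ ζ := by
  intro h
  have h1 : ((-ζ : Circle) : ℂ) = (ζ : ℂ) := by rw [h]
  have h2 : (-(ζ : ℂ)) = (ζ : ℂ) := by simpa using h1
  have h3 : (ζ : ℂ) = 0 := by
    have : (2 : ℂ) * ζ = 0 := by linear_combination -h2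
    rcases mul_eq_zero.1 this with h0 | h0
    · exact absurd h0 two_ne_zero
    · exact h0
  exact ζ.coe_ne_zero h3

theorem circle_sq {z w : Circle} (h : z ^ 2 = w ^ 2) : z = w ∨ z = -w := by
  have h1 : (z : ℂ) ^ 2 = (w : ℂ) ^ 2 := by
    have := congrArg (fun u : Circle => (u : ℂ)) h
    simpa using this
  rcases sq_eq_sq_iff_eq_or_eq_neg.1 h1 with h2 | h2
  · left; exact Circle.ext h2
  · right
    apply Circle.ext
    rw [h2]
    simp

-- TARGET
/-- The holonomy of a loop, for all integer combinations at once. -/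
theorem holonomy {n : ℕ} (Ψ : NSys n) (p : I → ℂ) (hp : Continuous p) (hY : ∀ t, p t ∈ Ψ.Y)
    (h01 : p 0 = p 1) (ζ0 : Circle) (y : Fin n → ℝ) (h1 : ζ0 ^ 2 = Ψ.θ (p 0))
    (h2 : ∀ j, ce (y j) = Ψ.F j (p 0, ζ0)) :
    ∃ (ε : ℤˣ) (κ : Fin n → ℤ), ∀ (r : Fin n → ℤ) (m : ℤ),
      Tr (Ψ.comb r) p (ζ0, ∑ j, r j * y j + m)
        (flip ε ζ0, (ε : ℤ) * ∑ j, r j * y j + ∑ j, r j * κ j + m) := by
  classical
  -- general lifting of the path
  have hlift : ∀ (r : Fin n → ℤ) (y0 : ℝ), ce y0 = (Ψ.comb r).F (p 0, ζ0) →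
      ∃ (s : I → Circle) (z : I → ℝ), IsLift (Ψ.comb r) p s z ∧ s 0 = ζ0 ∧ z 0 = y0 := by
    intro r y0 hy0
    obtain ⟨s, z, hs, h0⟩ := lift_homotopy (Ψ.comb r) (A := Unit) (fun q => p q.2)
      (hp.comp continuous_snd) (fun q => hY q.2) (fun _ => ζ0) (fun _ => y0)
      ⟨continuous_const, continuous_const, fun _ => h1, fun _ => hy0⟩
    have hc : Continuous (fun t : I => ((), t)) := by fun_prop
    exact ⟨fun t => s ((), t), fun t => z ((), t),
      ⟨hs.cs.comp hc, hs.cy.comp hc, fun t => hs.sq _, fun t => hs.val _⟩, (h0 ()).1, (h0 ()).2⟩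
  have hF0 : ∀ q, (Ψ.comb 0).F q = 1 := by
    intro q
    show ∏ j, Ψ.F j q ^ ((0 : Fin n → ℤ) j) = 1
    simp
  have hF1 : ∀ j q, (Ψ.comb (Pi.single j 1)).F q = Ψ.F j q := by
    intro j q
    show ∏ i, Ψ.F i q ^ ((Pi.single j 1 : Fin n → ℤ) i) = Ψ.F j q
    rw [Finset.prod_eq_single j]
    · simp
    · intro i _ hij
      rw [Pi.single_eq_of_ne hij, zpow_zero]
    · simp
  obtain ⟨s, z, hs, hs0, -⟩ := hlift 0 0 (by rw [hF0, ce_zero'])
  have hs_lift : IsLift (Ψ.comb 0) p s (fun _ => 0) :=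
    ⟨hs.cs, continuous_const, hs.sq, fun _ => by rw [hF0, ce_zero']⟩
  have hex : ∀ j, ∃ z : I → ℝ, Continuous z ∧ (∀ t, ce (z t) = Ψ.F j (p t, s t)) ∧ z 0 = y j := by
    intro j
    obtain ⟨sj, zj, hsj, hsj0, hzj0⟩ := hlift (Pi.single j 1) (y j) (by rw [hF1]; exact h2 j)
    have hsj_lift : IsLift (Ψ.comb 0) p sj (fun _ => 0) :=
      ⟨hsj.cs, continuous_const, hsj.sq, fun _ => by rw [hF0, ce_zero']⟩
    obtain ⟨ε, k, hε⟩ := lift_unique (Ψ.comb 0) p hY hs_lift hsj_lift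
    have hε1 : ε = 1 := by
      by_contra hne
      have h3 := (hε 0).1
      rw [hs0, hsj0] at h3
      unfold flip at h3
      rw [if_neg hne] at h3
      exact circle_neg_ne ζ0 h3.symm
    have hss : ∀ t, sj t = s t := by
      intro t
      rw [(hε t).1, hε1]
      simp [flip]
    refine ⟨zj, hsj.cy, fun t => ?_, hzj0⟩
    rw [hsj.val t, hF1, hss]
  choose Z hZc hZv hZ0 using hex
  have hs1 : ∃ ε : ℤˣ, s 1 = flip ε ζ0 := by
    have h3 : s 1 ^ 2 = ζ0 ^ 2 := by
      rw [h1]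
      have := hs.sq 1
      rw [← h01] at this
      exact this
    rcases circle_sq h3 with h4 | h4
    · exact ⟨1, by rw [h4]; simp [flip]⟩
    · refine ⟨-1, ?_⟩
      rw [h4]
      unfold flip
      rw [if_neg (by decide)]
  obtain ⟨ε, hε⟩ := hs1
  have hκ : ∀ j, ∃ k : ℤ, Z j 1 = (ε : ℤ) * y j + k := by
    intro j
    apply ce_eq'
    rw [hZv j 1, ← h01, hε]
    rcases Int.units_eq_one_or ε with h3 | h3
    · rw [h3]
      simp only [flip, if_true, Units.val_one, Int.cast_one, one_mul]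
      exact (h2 j).symm
    · rw [h3]
      unfold flip
      rw [if_neg (by decide), Ψ.anti j _ (hY 0) ζ0 h1, ← h2 j, ← ce_neg']
      congr 1
      simp
  choose κ hκ using hκ
  refine ⟨ε, κ, fun r m => ⟨s, fun t => ∑ j, r j * Z j t + m, ⟨hs.cs, ?_, hs.sq, ?_⟩, ?_, ?_⟩⟩
  · exact (continuous_finsetSum _ fun j _ => continuous_const.mul (hZc j)).add continuous_const
  · intro t
    rw [ce_add', ce_intcast', mul_one, ce_sum']
    show _ = ∏ j, Ψ.F j (p t, s t) ^ r j
    refine Finset.prod_congr rfl fun j _ => ?_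
    rw [ce_int', hZv]
  · simp only [hs0, hZ0]
  · rw [hε]
    simp only [Prod.mk.injEq, true_and]
    push_cast
    rw [Finset.mul_sum, ← Finset.sum_add_distrib]
    congr 1
    refine Finset.sum_congr rfl fun j _ => ?_
    rw [hκ]
    ring

end AltGenus562
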