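import Pool.Agent.Helper562.AltG.DefsAll

noncomputable section

namespace AltGenus562

open Set Topology unitInterval

-- TARGET
/-- Integer kernel with mixed parities. -/
theorem exists_kernel_parity {ι : Type*} [Fintype ι] (n : ℕ)
    (M : Matrix ι (Fin n ⊕ Fin 2) ℤ) (h : Fintype.card ι + 2 ≤ n) :
    ∃ x : Fin n ⊕ Fin 2 → ℤ, M.mulVec x = 0 ∧ (∃ i : Fin n, Odd (x (Sum.inl i))) ∧
      (∃ j : Fin n, Even (x (Sum.inl j))) := by
  classical
  by_contra hcon
  push Not at hcon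
  set L : Submodule ℤ (Fin n ⊕ Fin 2 → ℤ) := LinearMap.ker M.mulVecLin with hL
  have hrank : 4 ≤ Module.finrank ℤ L := by
    have h1 : Module.finrank ℤ (LinearMap.range M.mulVecLin) + Module.finrank ℤ L = Module.finrank ℤ (Fin n ⊕ Fin 2 → ℤ) := by
      rw [← (LinearMap.quotKerEquivRange M.mulVecLin).finrank_eq]
      exact Submodule.finrank_quotient_add_finrank L
    have h2 : Module.finrank ℤ (LinearMap.range M.mulVecLin) ≤ Fintype.card ι := by
      have := Submodule.finrank_le (LinearMap.range M.mulVecLin)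
      simpa using this
    have h3 : Module.finrank ℤ (Fin n ⊕ Fin 2 → ℤ) = n + 2 := by simp
    omega
  let b := Module.finBasis ℤ L
  have hn : 0 < n := by omega
  let i0 : Fin n := ⟨0, hn⟩
  let v : (Fin (Module.finrank ℤ L) → Fin 2) → L := fun a => ∑ i, ((a i : ℕ) : ℤ) • b i
  let f : (Fin (Module.finrank ℤ L) → Fin 2) → (ZMod 2 × ZMod 2 × ZMod 2) := fun a =>
    ((((v a : Fin n ⊕ Fin 2 → ℤ) (Sum.inl i0) : ℤ) : ZMod 2),
      (((v a : Fin n ⊕ Fin 2 → ℤ) (Sum.inr 0) : ℤ) : ZMod 2),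
      (((v a : Fin n ⊕ Fin 2 → ℤ) (Sum.inr 1) : ℤ) : ZMod 2))
  have hni : ¬ Function.Injective f := by
    intro hinj
    have h1 := Fintype.card_le_of_injective f hinj
    have h2 : Fintype.card (ZMod 2 × ZMod 2 × ZMod 2) = 8 := by decide
    rw [h2] at h1
    simp only [Fintype.card_pi, Fintype.card_fin, Finset.prod_const, Finset.card_univ] at h1
    have h3 : 2 ^ 4 ≤ 2 ^ Module.finrank ℤ L := Nat.pow_le_pow_right (by norm_num) hrank
    omega
  simp only [Function.Injective, not_forall] at hni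
  obtain ⟨a, a', hf, hne⟩ := hni
  apply hne
  have hmem : ∀ x : L, M.mulVec (x : Fin n ⊕ Fin 2 → ℤ) = 0 := fun x => x.2
  set w : L := v a - v a' with hw
  have hf' : Even ((w : Fin n ⊕ Fin 2 → ℤ) (Sum.inl i0)) ∧
      Even ((w : Fin n ⊕ Fin 2 → ℤ) (Sum.inr 0)) ∧ Even ((w : Fin n ⊕ Fin 2 → ℤ) (Sum.inr 1)) := by
    simp only [f, Prod.mk.injEq] at hf
    have key : ∀ p q : ℤ, (p : ZMod 2) = (q : ZMod 2) → Even (p - q) := by
      intro p q hpq
      rw [← ZMod.intCast_eq_zero_iff_even] 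
      push_cast
      rw [hpq, sub_self]
    exact ⟨key _ _ hf.1, key _ _ hf.2.1, key _ _ hf.2.2⟩
  have hall : ∀ c, Even ((w : Fin n ⊕ Fin 2 → ℤ) c) := by
    rintro (i | i)
    · by_contra hodd
      rw [Int.not_even_iff_odd] at hodd
      exact hcon _ (hmem w) ⟨i, hodd⟩ i0 hf'.1
    · fin_cases i
      · exact hf'.2.1
      · exact hf'.2.2
  choose z hz using hall
  have hzL : z ∈ L := by
    rw [hL, LinearMap.mem_ker, Matrix.mulVecLin_apply]
    have h1 : M.mulVec (w : Fin n ⊕ Fin 2 → ℤ) = 0 := hmem w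
    have h2 : (w : Fin n ⊕ Fin 2 → ℤ) = (2 : ℤ) • z := by
      funext c
      rw [hz c, Pi.smul_apply, smul_eq_mul]; ring
    rw [h2, Matrix.mulVec_smul] at h1
    exact (smul_eq_zero.1 h1).resolve_left (by norm_num)
  have hwz : w = (2 : ℤ) • (⟨z, hzL⟩ : L) := by
    apply Subtype.ext
    funext c
    rw [hz c]
    simp only [Submodule.coe_smul, Pi.smul_apply, smul_eq_mul]; ring
  funext i
  have hva : ∀ a : Fin (Module.finrank ℤ L) → Fin 2, b.repr (v a) i = ((a i : ℕ) : ℤ) := by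
    intro a
    simp only [v, map_sum, map_smul, Module.Basis.repr_self, Finsupp.coe_finsetSum, Finset.sum_apply,
      Finsupp.smul_single, smul_eq_mul, mul_one, Finsupp.single_apply]
    simp
  have h1 : b.repr w i = ((a i : ℕ) : ℤ) - ((a' i : ℕ) : ℤ) := by
    rw [hw, map_sub, Finsupp.sub_apply, hva, hva]
  have h2 : b.repr w i = 2 * b.repr (⟨z, hzL⟩ : L) i := by
    rw [hwz, map_smul, Finsupp.smul_apply, smul_eq_mul]
  have h3 := (a i).2
  have h4 := (a' i).2
  apply Fin.ext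
  omega

end AltGenus562
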