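import Pool.Agent.Helper562.AltG.DefsAll

noncomputable section

namespace AltGenus562

open Set Topology unitInterval

-- TARGET
/-- The surface group of genus `g` is generated by `2g` elements. -/
theorem surfaceGroup_generated {Γ : Type*} [Group Γ] (g : ℕ) (e : Γ ≃* SurfaceGroup g) :
    ∃ G : Fin g × Bool → Γ, Subgroup.closure (Set.range G) = ⊤ := by
  refine ⟨fun x => e.symm (PresentedGroup.of x), ?_⟩
  have h1 : Subgroup.closure (Set.range (PresentedGroup.of (rels := {surfaceRelator g}))) = ⊤ :=
    PresentedGroup.closure_range_of _
  have h2 : Set.range (fun x : Fin g × Bool => e.symm (PresentedGroup.of x)) =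
      (e.symm.toMonoidHom : SurfaceGroup g →* Γ) ''
        Set.range (PresentedGroup.of (rels := {surfaceRelator g})) := by
    rw [← Set.range_comp]
    rfl
  rw [h2, ← MonoidHom.map_closure, h1]
  exact Subgroup.map_top_of_surjective _ e.symm.surjective

end AltGenus562
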