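import Pool.Agent.Helper562.AltG.DefsAll
import Pool.Agent.Helper562.AltG.P.C1
import Pool.Agent.Helper562.AltG.P.C2
import Pool.Agent.Helper562.AltG.P.C3
import Pool.Agent.Helper562.AltG.P.C4
import Pool.Agent.Helper562.AltG.P.C5

noncomputable section

namespace AltGenus562

open Set Topology unitInterval

theorem c6_ce_add (a b : ℝ) : ce (a + b) = ce a * ce b := by
  unfold ce; rw [mul_add, Circle.exp_add]

theorem c6_ce_int (m : ℤ) : ce m = 1 := by
  unfold ce; exact Circle.exp_two_pi_mul_int m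

theorem c6_ce_intmul (k : ℤ) (y : ℝ) : ce (k * y) = ce y ^ k := by
  unfold ce
  rw [show 2 * Real.pi * (k * y) = k * (2 * Real.pi * y) by ring, Circle.exp_intCast_mul]

theorem c6_ce_sum {ι : Type*} (s : Finset ι) (r : ι → ℤ) (y : ι → ℝ) :
    ce (∑ j ∈ s, r j * y j) = ∏ j ∈ s, ce (y j) ^ r j := by
  classical
  induction s using Finset.induction_on with
  | empty =>
    simp only [Finset.sum_empty, Finset.prod_empty]
    simpa using c6_ce_int 0
  | insert a s ha ih =>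
    rw [Finset.sum_insert ha, Finset.prod_insert ha, c6_ce_add, c6_ce_intmul, ih]

theorem c6_ce_surj (z : Circle) : ∃ y, ce y = z := by
  obtain ⟨t, ht⟩ := Circle.exp_surjective z
  refine ⟨t / (2 * Real.pi), ?_⟩
  unfold ce
  rw [mul_div_cancel₀ t (by positivity), ht]

theorem c6_sq_surj (z : Circle) : ∃ ζ : Circle, ζ ^ 2 = z := by
  obtain ⟨t, ht⟩ := Circle.exp_surjective z
  refine ⟨Circle.exp (t / 2), ?_⟩
  rw [← Circle.exp_nsmul, ← ht]
  congr 1
  rw [nsmul_eq_mul]; push_cast; ring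

theorem c6_side {n g : ℕ} (Ψ : NSys n) {S : Type} [TopologicalSpace S] [PathConnectedSpace S]
    [LocallyPathConnectedSpace S] (z0 : S) (G : Fin g × Bool → FundamentalGroup S z0)
    (hG : Subgroup.closure (Set.range G) = ⊤) (q : S → ℂ) (hq : Continuous q)
    (hY : ∀ z, q z ∈ Ψ.Y) :
    ∃ (ε : Fin g × Bool → ℤˣ) (κ : Fin g × Bool → Fin n → ℤ), ∀ (r : Fin n → ℤ) (m : ℤ),
      (∀ k, ∑ j, κ k j * r j + (1 - (ε k : ℤ)) * m = 0) →
        ∃ f : S × Circle → ℝ, AntiLog (Ψ.comb r) q f := by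
  obtain ⟨ζ, hζ⟩ := c6_sq_surj (Ψ.θ (q z0))
  choose y hy using fun j => c6_ce_surj (Ψ.F j (q z0, ζ))
  have hrep : ∀ k, ∃ γ : Path z0 z0, FundamentalGroup.fromPath ⟦γ⟧ = G k := by
    intro k
    obtain ⟨γ, hγ⟩ := Quotient.exists_rep (FundamentalGroup.toPath (G k))
    refine ⟨γ, ?_⟩
    rw [hγ]
  choose γ hγ using hrep
  have hh : ∀ k, ∃ (ε : ℤˣ) (κ : Fin n → ℤ), ∀ (r : Fin n → ℤ) (m : ℤ),
      Tr (Ψ.comb r) (fun t => q (γ k t)) (ζ, ∑ j, r j * y j + m)
        (flip ε ζ, (ε : ℤ) * ∑ j, r j * y j + ∑ j, r j * κ j + m) := fun k =>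
    holonomy Ψ (fun t => q (γ k t)) (hq.comp (γ k).continuous) (fun t => hY _)
      (by simp) ζ y (by simpa using hζ) (by simpa using hy)
  choose ε κ hTr using hh
  refine ⟨ε, κ, fun r m hrow => ?_⟩
  have h2 : ce (∑ j, r j * y j + m) = (Ψ.comb r).F (q z0, ζ) := by
    rw [c6_ce_add, c6_ce_int, mul_one, c6_ce_sum]
    simp only [hy]
    rfl
  refine antiLog_of_good (Φ := Ψ.comb r) Ψ.oY q hq hY z0 ζ (∑ j, r j * y j + m) hζ h2 ?_
  refine good_of_generators (Φ := Ψ.comb r) q hq hY z0 ζ (∑ j, r j * y j + m) hζ h2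
    (Set.range G) hG ?_
  rintro _ ⟨k, rfl⟩
  refine ⟨γ k, hγ k, ?_⟩
  have h3 := hTr k r m
  have h4 := hrow k
  have h5 : ((∑ j, κ k j * r j + (1 - (ε k : ℤ)) * m : ℤ) : ℝ) = 0 := by
    rw [h4]; simp
  push_cast at h5
  have h6 : ∑ j, (r j : ℝ) * κ k j = ∑ j, (κ k j : ℝ) * r j :=
    Finset.sum_congr rfl fun j _ => mul_comm _ _
  have h7 : ((∑ j, r j * κ k j : ℤ) : ℝ) = ∑ j, (κ k j : ℝ) * r j := by
    push_cast; exact h6
  rcases Int.units_eq_one_or (ε k) with h | h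
  · left
    rw [h] at h3 h5
    have e1 : flip 1 ζ = ζ := by simp [flip]
    have e2 : ((((1 : ℤˣ) : ℤ) : ℝ) * ∑ j, (r j : ℝ) * y j + ((∑ j, r j * κ k j : ℤ) : ℝ) + m) =
        ∑ j, (r j : ℝ) * y j + m := by
      rw [h7]
      simp only [Units.val_one, Int.cast_one, sub_self, zero_mul, add_zero, one_mul] at h5 ⊢
      rw [h5, add_zero]
    rw [e1, e2] at h3
    exact h3
  · right
    rw [h] at h3 h5
    have hne : (-1 : ℤˣ) ≠ 1 := by decide
    have e1 : flip (-1) ζ = -ζ := by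
      unfold flip
      rw [if_neg hne]
    have e2 : ((((-1 : ℤˣ) : ℤ) : ℝ) * ∑ j, (r j : ℝ) * y j + ((∑ j, r j * κ k j : ℤ) : ℝ) + m) =
        -(∑ j, (r j : ℝ) * y j + m) := by
      rw [h7]
      simp only [Units.val_neg, Units.val_one, Int.cast_neg, Int.cast_one] at h5 ⊢
      linarith
    rw [e1, e2] at h3
    exact h3

-- TARGET
/-- Anti-invariant logarithms over the top and the bottom exist for a combination with entries of
both parities. -/
theorem exists_reduction {n g : ℕ} (Ψ : NSys n) (hn : 4 * g + 2 ≤ n) {S : Type}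
    [TopologicalSpace S] [PathConnectedSpace S] [LocallyPathConnectedSpace S]
    (hS : ∀ z : S, Nonempty (FundamentalGroup S z ≃* SurfaceGroup g))
    (qT qB : S → ℂ) (hqT : Continuous qT) (hqB : Continuous qB)
    (hYT : ∀ z, qT z ∈ Ψ.Y) (hYB : ∀ z, qB z ∈ Ψ.Y) :
    ∃ (r : Fin n → ℤ) (fT fB : S × Circle → ℝ), (∃ i, Odd (r i)) ∧ (∃ j, Even (r j)) ∧
      AntiLog (Ψ.comb r) qT fT ∧ AntiLog (Ψ.comb r) qB fB := by
  obtain ⟨z0⟩ : Nonempty S := inferInstance
  obtain ⟨e⟩ := hS z0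
  obtain ⟨G, hG⟩ := surfaceGroup_generated g e
  obtain ⟨εT, κT, hT⟩ := c6_side Ψ z0 G hG qT hqT hYT
  obtain ⟨εB, κB, hB⟩ := c6_side Ψ z0 G hG qB hqB hYB
  let M : Matrix ((Fin g × Bool) ⊕ (Fin g × Bool)) (Fin n ⊕ Fin 2) ℤ :=
    Matrix.of (Sum.elim
      (fun k => Sum.elim (fun j => κT k j) ![1 - (εT k : ℤ), 0])
      (fun k => Sum.elim (fun j => κB k j) ![0, 1 - (εB k : ℤ)]))
  obtain ⟨x, hx, ho, he⟩ := exists_kernel_parity n M (by
    simp only [Fintype.card_sum, Fintype.card_prod, Fintype.card_fin, Fintype.card_bool]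
    omega)
  have rowT : ∀ k, ∑ j, κT k j * x (Sum.inl j) + (1 - (εT k : ℤ)) * x (Sum.inr 0) = 0 := by
    intro k
    have h1 := congrFun hx (Sum.inl k)
    simp only [Matrix.mulVec, dotProduct, Fintype.sum_sum_type, Fin.sum_univ_two, M,
      Matrix.of_apply, Sum.elim_inl, Sum.elim_inr, Matrix.cons_val_zero, Matrix.cons_val_one,
      zero_mul, add_zero, Pi.zero_apply] at h1
    exact h1
  have rowB : ∀ k, ∑ j, κB k j * x (Sum.inl j) + (1 - (εB k : ℤ)) * x (Sum.inr 1) = 0 := by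
    intro k
    have h1 := congrFun hx (Sum.inr k)
    simp only [Matrix.mulVec, dotProduct, Fintype.sum_sum_type, Fin.sum_univ_two, M,
      Matrix.of_apply, Sum.elim_inl, Sum.elim_inr, Matrix.cons_val_zero, Matrix.cons_val_one,
      zero_mul, zero_add, Pi.zero_apply] at h1
    exact h1
  obtain ⟨fT, hfT⟩ := hT (fun j => x (Sum.inl j)) (x (Sum.inr 0)) rowT
  obtain ⟨fB, hfB⟩ := hB (fun j => x (Sum.inl j)) (x (Sum.inr 1)) rowB
  exact ⟨fun j => x (Sum.inl j), fT, fB, ho, he, hfT, hfB⟩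

end AltGenus562
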