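import Pool.Agent.Helper562.AltG.DefsAll
import Pool.Agent.Helper562.AltG.P.A3

noncomputable section

namespace AltGenus562

open Set Topology unitInterval

variable {S : Type} [TopologicalSpace S]

theorem VR_ce_add (y : ℝ) (k : ℤ) : ce (y + k) = ce y := by
  unfold ce
  rw [Circle.exp_eq_exp]
  exact ⟨k, by ring⟩

theorem VR_ce_eq {y y' : ℝ} (h : ce y = ce y') : ∃ k : ℤ, y = y' + k := by
  unfold ce at h
  rw [Circle.exp_eq_exp] at h
  obtain ⟨m, hm⟩ := h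
  refine ⟨m, ?_⟩
  have hpi : (0:ℝ) < Real.pi := Real.pi_pos
  have : 2 * Real.pi * (y - (y' + m)) = 0 := by linarith
  rcases mul_eq_zero.mp this with h | h
  · exfalso; linarith
  · linarith

theorem VR_seg_mem {S : Type} [TopologicalSpace S] (K : Conf S) {z : S} (hz : z ∉ K.D.curve) :
    ∀ t, seg (fun h => K.q (z, h)) 1 (-1) t ∈ K.Φ.Y := by
  intro t
  have h0 := t.2.1
  have h1 := t.2.2
  refine K.hY z _ ⟨by linarith, by linarith⟩ ?_
  rintro ⟨i, s, h, -⟩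
  exact hz ⟨i, s, h⟩

theorem VR_seg_zero {S : Type} [TopologicalSpace S] (K : Conf S) (z : S) :
    seg (fun h => K.q (z, h)) 1 (-1) 0 = K.q (z, 1) := by
  simp [seg]

theorem VR_seg_one {S : Type} [TopologicalSpace S] (K : Conf S) (z : S) :
    seg (fun h => K.q (z, h)) 1 (-1) 1 = K.q (z, -1) := by
  simp only [seg]
  congr 2
  norm_num

theorem VR_seg_cont {S : Type} [TopologicalSpace S] (K : Conf S) (z : S) :
    Continuous (seg (fun h => K.q (z, h)) 1 (-1)) := by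
  unfold seg
  refine K.cq.comp ?_
  fun_prop

-- TARGET
theorem Conf.VRel_exists (K : Conf S) {z : S} (hz : z ∉ K.D.curve) {ζ : Circle}
    (hζ : ζ ^ 2 = K.Φ.θ (K.q (z, 1))) : ∃ v, K.VRel z ζ v := by
  obtain ⟨⟨ζ', y'⟩, he⟩ := Tr.exists (VR_seg_cont K z) (VR_seg_mem K hz) (ζ := ζ)
    (y := K.fT (z, ζ)) (by rw [VR_seg_zero]; exact hζ)
    (by rw [VR_seg_zero]; exact K.hT.val z ζ hζ)
  obtain ⟨-, h1, h2⟩ := he.fibre
  simp only at h1 h2
  rw [VR_seg_one] at h1 h2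
  have h3 := K.hB.val z ζ' h1
  obtain ⟨v, hv⟩ := VR_ce_eq (h2.trans h3.symm)
  exact ⟨v, ζ', by rw [← hv]; exact he⟩

-- TARGET
theorem Conf.VRel_unique (K : Conf S) {z : S} (hz : z ∉ K.D.curve) {ζ : Circle} {v v' : ℤ}
    (h : K.VRel z ζ v) (h' : K.VRel z ζ v') : v = v' := by
  obtain ⟨ζ1, h1⟩ := h
  obtain ⟨ζ2, h2⟩ := h'
  have h3 := Tr.unique (VR_seg_mem K hz) h1 h2
  have h4 : ζ1 = ζ2 := congrArg Prod.fst h3
  have h5 : K.fB (z, ζ1) + v = K.fB (z, ζ2) + v' := congrArg Prod.snd h3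
  subst h4
  have h6 : (v : ℝ) = v' := by linarith
  exact_mod_cast h6

-- TARGET
theorem Conf.VRel_neg (K : Conf S) {z : S} (hz : z ∉ K.D.curve) {ζ : Circle} {v : ℤ}
    (h : K.VRel z ζ v) : K.VRel z (-ζ) (-v) := by
  obtain ⟨ζ1, h1⟩ := h
  obtain ⟨⟨h2, -⟩, h3, -⟩ := h1.fibre
  simp only at h2 h3
  rw [VR_seg_zero] at h2
  rw [VR_seg_one] at h3
  have h4 := Tr.act (VR_seg_mem K hz) h1 (-1) 0
  have e1 : flip (-1) ζ = -ζ := by
    unfold flip
    rw [if_neg (by decide)]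
  have e2 : flip (-1) ζ1 = -ζ1 := by
    unfold flip
    rw [if_neg (by decide)]
  have e3 := K.hT.anti z ζ h2
  have e4 := K.hB.anti z ζ1 h3
  refine ⟨-ζ1, ?_⟩
  rw [e1, e2] at h4
  rw [e3, e4]
  convert h4 using 2
  · push_cast
    simp
  · push_cast
    simp
    ring

-- TARGET
theorem Conf.VRel_of_Tr (K : Conf S) {z : S} {ζ ζ' : Circle}
    (hζ' : ζ' ^ 2 = K.Φ.θ (K.q (z, -1))) {ε : ℤˣ} {v : ℤ}
    (h : Tr K.Φ (seg (fun h => K.q (z, h)) 1 (-1)) (ζ, K.fT (z, ζ))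
      (flip ε ζ', (ε : ℤ) * K.fB (z, ζ') + v)) : K.VRel z ζ v := by
  refine ⟨flip ε ζ', ?_⟩
  have e1 : K.fB (z, flip ε ζ') = (ε : ℤ) * K.fB (z, ζ') := by
    rcases Int.units_eq_one_or ε with h | h
    · subst h
      simp [flip]
    · subst h
      have : flip (-1) ζ' = -ζ' := by
        unfold flip
        rw [if_neg (by decide)]
      rw [this, K.hB.anti z ζ' hζ']
      simp
  rw [e1]
  exact h

end AltGenus562
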