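import Pool.Agent.Helper562.AltG.DefsAll
import Pool.Agent.Helper562.AltG.P.D1

noncomputable section

namespace AltGenus562

open Set Topology unitInterval

variable {S : Type} [TopologicalSpace S]

theorem pair_arith (ε a b a' b' : ℤ) (hε : ε = 1 ∨ ε = -1) (h1 : ε * a' = a ∨ ε * a' = b)
    (h2 : ε * b' = a ∨ ε * b' = b) (h3 : a = ε * a' ∨ a = ε * b')
    (h4 : b = ε * a' ∨ b = ε * b') : a * b = a' * b' ∧ Even (a + b - (a' + b')) := by
  rcases hε with rfl | rfl <;> rcases h3 with rfl | rfl <;> rcases h4 with rfl | rfl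
  · have : b' = a' := by omega
    subst this
    exact ⟨by ring, by rw [Int.even_iff]; omega⟩
  · exact ⟨by ring, by rw [Int.even_iff]; omega⟩
  · exact ⟨by ring, by rw [Int.even_iff]; omega⟩
  · have : a' = b' := by omega
    subst this
    exact ⟨by ring, by rw [Int.even_iff]; omega⟩
  · have : b' = a' := by omega
    subst this
    exact ⟨by ring, by rw [Int.even_iff]; omega⟩
  · exact ⟨by ring, by rw [Int.even_iff]; omega⟩
  · exact ⟨by ring, by rw [Int.even_iff]; omega⟩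
  · have : a' = b' := by omega
    subst this
    exact ⟨by ring, by rw [Int.even_iff]; omega⟩

theorem circle_sq_eq {x y : Circle} (h : x ^ 2 = y ^ 2) : x = y ∨ x = -y := by
  have h1 : (x : ℂ) ^ 2 = (y : ℂ) ^ 2 := by
    have := congrArg (fun z : Circle => (z : ℂ)) h
    simpa using this
  rcases sq_eq_sq_iff_eq_or_eq_neg.1 h1 with h2 | h2
  · exact Or.inl (Circle.ext h2)
  · right
    apply Circle.ext
    rw [h2]
    rfl

theorem circle_ne_neg (x : Circle) : x ≠ -x := by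
  intro h
  have h1 : (x : ℂ) = -(x : ℂ) := congrArg (fun z : Circle => (z : ℂ)) h
  have h2 : (x : ℂ) = 0 := by
    have h3 : (2 : ℂ) * x = 0 := by linear_combination h1
    simpa using h3
  exact x.coe_ne_zero h2

/-- two sections agree up to a constant sign near a point -/
theorem sections_near (K : Conf S) {z : S} (O O1 : Set S) (hO : IsOpen O) (hO1 : IsOpen O1)
    (hzO : z ∈ O) (hzO1 : z ∈ O1) (s s1 : S → Circle) (hs : ContinuousOn s O)
    (hs1 : ContinuousOn s1 O1) (hsq : ∀ x ∈ O, s x ^ 2 = K.Φ.θ (K.q (x, 1)))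
    (hsq1 : ∀ x ∈ O1, s1 x ^ 2 = K.Φ.θ (K.q (x, 1))) :
    ∃ N : Set S, IsOpen N ∧ z ∈ N ∧ N ⊆ O ∩ O1 ∧
      ((∀ x ∈ N, s1 x = s x) ∨ (∀ x ∈ N, s1 x = -s x)) := by
  have hOO : IsOpen (O ∩ O1) := hO.inter hO1
  have hc : ContinuousOn (fun x => s1 x * (s x)⁻¹) (O ∩ O1) :=
    (hs1.mono inter_subset_right).mul (hs.mono inter_subset_left).inv
  have hval : ∀ x ∈ O ∩ O1, s1 x = s x ∨ s1 x = -s x := fun x hx =>
    circle_sq_eq ((hsq1 x hx.2).trans (hsq x hx.1).symm)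
  rcases hval z ⟨hzO, hzO1⟩ with h | h
  · refine ⟨(O ∩ O1) ∩ (fun x => s1 x * (s x)⁻¹) ⁻¹' {(-1 : Circle)}ᶜ,
      hc.isOpen_inter_preimage hOO isClosed_singleton.isOpen_compl, ⟨⟨hzO, hzO1⟩, ?_⟩,
      inter_subset_left, Or.inl ?_⟩
    · simp only [mem_preimage, mem_compl_iff, mem_singleton_iff, h, mul_inv_cancel]
      exact circle_ne_neg 1
    · rintro x ⟨hx, hx2⟩
      rcases hval x hx with h' | h'
      · exact h'
      · exfalso
        apply hx2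
        simp only [mem_singleton_iff, h']
        rw [neg_mul, mul_inv_cancel]
  · refine ⟨(O ∩ O1) ∩ (fun x => s1 x * (s x)⁻¹) ⁻¹' {(1 : Circle)}ᶜ,
      hc.isOpen_inter_preimage hOO isClosed_singleton.isOpen_compl, ⟨⟨hzO, hzO1⟩, ?_⟩,
      inter_subset_left, Or.inr ?_⟩
    · simp only [mem_preimage, mem_compl_iff, mem_singleton_iff, h]
      rw [neg_mul, mul_inv_cancel]
      exact fun h' => circle_ne_neg 1 h'.symm
    · rintro x ⟨hx, hx2⟩
      rcases hval x hx with h' | h'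
      · exfalso
        apply hx2
        simp only [mem_singleton_iff, h']
        rw [mul_inv_cancel]
      · exact h'

-- TARGET
theorem Conf.Pair_unique (K : Conf S) {z : S} {a b a' b' : ℤ} (h : K.Pair z a b)
    (h' : K.Pair z a' b') : a * b = a' * b' ∧ Even (a + b - (a' + b')) := by
  obtain ⟨O, hO, hzO, s, hs, hsq, hval, hatt⟩ := h
  obtain ⟨O1, hO1, hzO1, s1, hs1, hsq1, hval1, hatt1⟩ := h'
  obtain ⟨N, hN, hzN, hNsub, hsgn⟩ := sections_near K O O1 hO hO1 hzO hzO1 s s1 hs hs1 hsq hsq1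
  obtain ⟨ε, hε, hrel⟩ : ∃ ε : ℤ, (ε = 1 ∨ ε = -1) ∧ ∀ x ∈ N, x ∉ K.D.curve → ∀ v : ℤ,
      K.VRel x (s1 x) v → K.VRel x (s x) (ε * v) := by
    rcases hsgn with hsgn | hsgn
    · refine ⟨1, Or.inl rfl, fun x hx _ v hv => ?_⟩
      rw [one_mul, ← hsgn x hx]; exact hv
    · refine ⟨-1, Or.inr rfl, fun x hx hxc v hv => ?_⟩
      have := K.VRel_neg hxc hv
      rw [hsgn x hx, neg_neg] at this
      rwa [neg_one_mul]
  have hv1 : ∀ v : ℤ, (v = a' ∨ v = b') → (ε * v = a ∨ ε * v = b) := by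
    intro v hv
    have hex : ∃ x ∈ O1 ∩ N, x ∉ K.D.curve ∧ K.VRel x (s1 x) v := by
      rcases hv with rfl | rfl
      · exact (hatt1 N hN hzN).1
      · exact (hatt1 N hN hzN).2
    obtain ⟨x, hx, hxc, hxv⟩ := hex
    have h1 := hrel x hx.2 hxc v hxv
    rcases hval x (hNsub hx.2).1 hxc with h2 | h2
    · exact Or.inl (K.VRel_unique hxc h1 h2)
    · exact Or.inr (K.VRel_unique hxc h1 h2)
  have hv2 : ∀ v : ℤ, (v = a ∨ v = b) → (v = ε * a' ∨ v = ε * b') := by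
    intro v hv
    have hex : ∃ x ∈ O ∩ N, x ∉ K.D.curve ∧ K.VRel x (s x) v := by
      rcases hv with rfl | rfl
      · exact (hatt N hN hzN).1
      · exact (hatt N hN hzN).2
    obtain ⟨x, hx, hxc, hxv⟩ := hex
    rcases hval1 x (hNsub hx.2).2 hxc with h2 | h2
    · exact Or.inl (K.VRel_unique hxc hxv (hrel x hx.2 hxc _ h2))
    · exact Or.inr (K.VRel_unique hxc hxv (hrel x hx.2 hxc _ h2))
  exact pair_arith ε a b a' b' hε (hv1 a' (Or.inl rfl)) (hv1 b' (Or.inr rfl))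
    (hv2 a (Or.inl rfl)) (hv2 b (Or.inr rfl))

-- TARGET
/-- A criterion for `Pair`. -/
theorem Conf.pair_of_sides (K : Conf S) {z : S} {a b : ℤ} (O : Set S) (hO : IsOpen O)
    (hz : z ∈ O) (s : S → Circle) (hs : ContinuousOn s O)
    (hsq : ∀ x ∈ O, s x ^ 2 = K.Φ.θ (K.q (x, 1))) (A B : Set S)
    (hAB : ∀ x ∈ O, x ∉ K.D.curve → x ∈ A ∨ x ∈ B)
    (hA : ∀ x ∈ O, x ∈ A → x ∉ K.D.curve → K.VRel x (s x) a)
    (hB : ∀ x ∈ O, x ∈ B → x ∉ K.D.curve → K.VRel x (s x) b)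
    (hzA : z ∈ closure {x | x ∈ A ∧ x ∉ K.D.curve})
    (hzB : z ∈ closure {x | x ∈ B ∧ x ∉ K.D.curve}) : K.Pair z a b := by
  refine ⟨O, hO, hz, s, hs, hsq, ?_, ?_⟩
  · intro x hx hxc
    rcases hAB x hx hxc with h | h
    · exact Or.inl (hA x hx h hxc)
    · exact Or.inr (hB x hx h hxc)
  · intro O' hO' hz'
    have hoo : IsOpen (O ∩ O') := hO.inter hO'
    obtain ⟨x, hx1, hx2⟩ := mem_closure_iff.1 hzA (O ∩ O') hoo ⟨hz, hz'⟩
    obtain ⟨y, hy1, hy2⟩ := mem_closure_iff.1 hzB (O ∩ O') hoo ⟨hz, hz'⟩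
    exact ⟨⟨x, hx1, hx2.2, hA x hx1.1 hx2.1 hx2.2⟩, ⟨y, hy1, hy2.2, hB y hy1.1 hy2.1 hy2.2⟩⟩

end AltGenus562
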