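import Pool.Agent.Helper562.AltG.DefsAll
import Pool.Agent.Helper562.AltG.P.A3

noncomputable section

namespace AltGenus562

open Set Topology unitInterval

variable {S : Type} [TopologicalSpace S]

-- TARGET
/-- Sections over a box, at the top and at the bottom. -/
theorem Conf.box_sections (K : Conf S) (e : OpenPartialHomeomorph S (ℝ × ℝ)) {δ : ℝ}
    (hQ : Qbox δ ⊆ e.target) :
    ∃ s1 s0 : Qbox δ → Circle,
      IsLift K.Φ (fun x => K.q (e.symm x.1, 1)) s1 (fun x => K.fT (e.symm x.1, s1 x)) ∧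
      IsLift K.Φ (fun x => K.q (e.symm x.1, -1)) s0 (fun x => K.fB (e.symm x.1, s0 x)) := by
  have hconv : Convex ℝ (Qbox δ) := (convex_Ioo _ _).prod (convex_Ioo _ _)
  have hce : Continuous (fun x : Qbox δ => e.symm x.1) :=
    e.continuousOn_symm.comp_continuous continuous_subtype_val (fun x => hQ x.2)
  have hqT : Continuous (fun x : Qbox δ => K.q (e.symm x.1, 1)) :=
    K.cq.comp (hce.prodMk continuous_const)
  have hqB : Continuous (fun x : Qbox δ => K.q (e.symm x.1, -1)) :=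
    K.cq.comp (hce.prodMk continuous_const)
  obtain ⟨s1, y1, h1⟩ := lift_convex K.Φ (Qbox δ) hconv (fun x => K.q (e.symm x.1, 1)) hqT
    (fun x => K.hY _ 1 ⟨by norm_num, le_rfl⟩ (by
      rintro ⟨i, t, _, h⟩
      exact absurd h (K.D.ht_mem i t).2.ne))
  obtain ⟨s0, y0, h0⟩ := lift_convex K.Φ (Qbox δ) hconv (fun x => K.q (e.symm x.1, -1)) hqB
    (fun x => K.hY _ (-1) ⟨le_rfl, by norm_num⟩ (by
      rintro ⟨i, t, _, h⟩
      exact absurd h (K.D.ht_mem i t).1.ne'))
  refine ⟨s1, s0, ⟨h1.cs, ?_, h1.sq, fun x => K.hT.val _ _ (h1.sq x)⟩,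
    ⟨h0.cs, ?_, h0.sq, fun x => K.hB.val _ _ (h0.sq x)⟩⟩
  · exact K.hT.cont.comp_continuous (hce.prodMk h1.cs) (fun x => h1.sq x)
  · exact K.hB.cont.comp_continuous (hce.prodMk h0.cs) (fun x => h0.sq x)

end AltGenus562
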