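import Pool.Agent.Helper562.AltG.DefsAll

noncomputable section

namespace AltGenus562

open Set Topology unitInterval

open Filter Topology

theorem param_interval_mono (f : ℝ → ℝ) (s δ : ℝ) (hδ : 0 < δ)
    (hf : ContinuousOn f (Set.Ioo (s - δ) (s + δ)))
    (hm : StrictMonoOn f (Set.Ioo (s - δ) (s + δ)))
    (h0 : f s = 0) :
    ∃ δ0 > 0, ∀ δ' > 0, δ' ≤ δ0 → ∃ g : ℝ → ℝ, ContinuousOn g (Set.Ioo (-δ') δ') ∧
      (∀ x ∈ Set.Ioo (-δ') δ', g x ∈ Set.Ioo (s - δ) (s + δ) ∧ f (g x) = x) ∧ g 0 = s ∧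
      ∃ η > 0, η ≤ δ ∧
        (((∀ u ∈ Set.Ioo s (s + η), f u ∈ Set.Ioo 0 δ') ∧
          (∀ u ∈ Set.Ioo (s - η) s, f u ∈ Set.Ioo (-δ') 0))) := by
  have ha : s - δ / 2 ∈ Set.Ioo (s - δ) (s + δ) := ⟨by linarith, by linarith⟩
  have hb : s + δ / 2 ∈ Set.Ioo (s - δ) (s + δ) := ⟨by linarith, by linarith⟩
  have hs : s ∈ Set.Ioo (s - δ) (s + δ) := ⟨by linarith, by linarith⟩
  have hfa : f (s - δ / 2) < 0 := by
    rw [← h0]
    exact hm ha hs (by linarith)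
  have hfb : 0 < f (s + δ / 2) := by
    rw [← h0]
    exact hm hs hb (by linarith)
  have hsub : Set.Icc (s - δ / 2) (s + δ / 2) ⊆ Set.Ioo (s - δ) (s + δ) := by
    intro u hu
    exact ⟨by linarith [hu.1], by linarith [hu.2]⟩
  refine ⟨min (-f (s - δ / 2)) (f (s + δ / 2)), lt_min (by linarith) hfb, ?_⟩
  intro δ' hδ' hle
  have hle1 : δ' ≤ -f (s - δ / 2) := hle.trans (min_le_left _ _)
  have hle2 : δ' ≤ f (s + δ / 2) := hle.trans (min_le_right _ _)
  have hex : ∀ x ∈ Set.Ioo (-δ') δ', ∃ y, y ∈ Set.Ioo (s - δ / 2) (s + δ / 2) ∧ f y = x := by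
    intro x hx
    have := intermediate_value_Ioo (show s - δ / 2 ≤ s + δ / 2 by linarith) (hf.mono hsub)
      (show x ∈ Set.Ioo (f (s - δ / 2)) (f (s + δ / 2)) from
        ⟨by linarith [hx.1], by linarith [hx.2]⟩)
    obtain ⟨y, hy, hxy⟩ := this
    exact ⟨y, hy, hxy⟩
  classical
  obtain ⟨g, hg⟩ : ∃ g : ℝ → ℝ, ∀ x ∈ Set.Ioo (-δ') δ',
      g x ∈ Set.Ioo (s - δ / 2) (s + δ / 2) ∧ f (g x) = x := by
    refine ⟨fun x => if h : x ∈ Set.Ioo (-δ') δ' then (hex x h).choose else 0, ?_⟩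
    intro x hx
    simp only [dif_pos hx]
    exact (hex x hx).choose_spec
  have hIoo : Set.Ioo (s - δ / 2) (s + δ / 2) ⊆ Set.Ioo (s - δ) (s + δ) :=
    Set.Ioo_subset_Icc_self.trans hsub
  refine ⟨g, ?_, fun x hx => ⟨hIoo (hg x hx).1, (hg x hx).2⟩, ?_, ?_⟩
  · intro x0 hx0
    have h1 := hg x0 hx0
    refine tendsto_order.2 ⟨?_, ?_⟩
    · intro a' ha'
      have h2 : max a' (s - δ / 2) < g x0 := max_lt ha' h1.1.1
      have h3 : max a' (s - δ / 2) ∈ Set.Ioo (s - δ) (s + δ) :=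
        ⟨by have := le_max_right a' (s - δ / 2); linarith, by linarith [h1.1.2]⟩
      have h4 : f (max a' (s - δ / 2)) < x0 := by
        have := hm h3 (hIoo h1.1) h2
        rwa [h1.2] at this
      have h5 : ∀ᶠ x in 𝓝[Set.Ioo (-δ') δ'] x0, f (max a' (s - δ / 2)) < x :=
        mem_nhdsWithin_of_mem_nhds (Ioi_mem_nhds h4)
      filter_upwards [h5, self_mem_nhdsWithin] with x hx hxS
      by_contra hc
      push Not at hc
      have h6 : g x ≤ max a' (s - δ / 2) := hc.trans (le_max_left _ _)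
      have h7 := hm.monotoneOn (hIoo (hg x hxS).1) h3 h6
      rw [(hg x hxS).2] at h7
      linarith
    · intro b' hb'
      have h2 : g x0 < min b' (s + δ / 2) := lt_min hb' h1.1.2
      have h3 : min b' (s + δ / 2) ∈ Set.Ioo (s - δ) (s + δ) :=
        ⟨by linarith [h1.1.1], by have := min_le_right b' (s + δ / 2); linarith⟩
      have h4 : x0 < f (min b' (s + δ / 2)) := by
        have := hm (hIoo h1.1) h3 h2
        rwa [h1.2] at this
      have h5 : ∀ᶠ x in 𝓝[Set.Ioo (-δ') δ'] x0, x < f (min b' (s + δ / 2)) :=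
        mem_nhdsWithin_of_mem_nhds (Iio_mem_nhds h4)
      filter_upwards [h5, self_mem_nhdsWithin] with x hx hxS
      by_contra hc
      push Not at hc
      have h6 : min b' (s + δ / 2) ≤ g x := (min_le_left _ _).trans hc
      have h7 := hm.monotoneOn h3 (hIoo (hg x hxS).1) h6
      rw [(hg x hxS).2] at h7
      linarith
  · have h1 := hg 0 ⟨by linarith, hδ'⟩
    exact hm.injOn (hIoo h1.1) hs (by rw [h1.2, h0])
  · have hc : ContinuousAt f s := hf.continuousAt (Ioo_mem_nhds hs.1 hs.2)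
    have h1 : ∀ᶠ u in 𝓝 s, f u ∈ Set.Ioo (-δ') δ' := by
      apply hc.eventually
      rw [h0]
      exact Ioo_mem_nhds (by linarith) hδ'
    rw [Metric.eventually_nhds_iff] at h1
    obtain ⟨ε, hε, h2⟩ := h1
    refine ⟨min ε δ, lt_min hε hδ, min_le_right _ _, ?_, ?_⟩
    · intro u hu
      have h3 : u < s + ε := lt_of_lt_of_le hu.2 (by linarith [min_le_left ε δ])
      have h4 : u < s + δ := lt_of_lt_of_le hu.2 (by linarith [min_le_right ε δ])
      have h5 := h2 (y := u) (by rw [Real.dist_eq, abs_lt]; constructor <;> linarith [hu.1])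
      refine ⟨?_, h5.2⟩
      rw [← h0]
      exact hm hs ⟨by linarith [hu.1], h4⟩ hu.1
    · intro u hu
      have h3 : s - ε < u := lt_of_le_of_lt (by linarith [min_le_left ε δ]) hu.1
      have h4 : s - δ < u := lt_of_le_of_lt (by linarith [min_le_right ε δ]) hu.1
      have h5 := h2 (y := u) (by rw [Real.dist_eq, abs_lt]; constructor <;> linarith [hu.2])
      refine ⟨h5.1, ?_⟩
      rw [← h0]
      exact hm ⟨h4, by linarith [hu.2]⟩ hs hu.2

-- TARGET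
/-- One dimensional inversion. -/
theorem param_interval (f : ℝ → ℝ) (s δ : ℝ) (hδ : 0 < δ)
    (hf : ContinuousOn f (Set.Ioo (s - δ) (s + δ))) (hinj : Set.InjOn f (Set.Ioo (s - δ) (s + δ)))
    (h0 : f s = 0) :
    ∃ δ0 > 0, ∀ δ' > 0, δ' ≤ δ0 → ∃ g : ℝ → ℝ, ContinuousOn g (Set.Ioo (-δ') δ') ∧
      (∀ x ∈ Set.Ioo (-δ') δ', g x ∈ Set.Ioo (s - δ) (s + δ) ∧ f (g x) = x) ∧ g 0 = s ∧
      ∃ η > 0, η ≤ δ ∧
        (((∀ u ∈ Set.Ioo s (s + η), f u ∈ Set.Ioo 0 δ') ∧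
          (∀ u ∈ Set.Ioo (s - η) s, f u ∈ Set.Ioo (-δ') 0)) ∨
         ((∀ u ∈ Set.Ioo s (s + η), f u ∈ Set.Ioo (-δ') 0) ∧
          (∀ u ∈ Set.Ioo (s - η) s, f u ∈ Set.Ioo 0 δ'))) := by
  rcases hf.strictMonoOn_of_injOn_Ioo (by linarith) hinj with hm | hm
  · obtain ⟨δ0, hδ0, H⟩ := param_interval_mono f s δ hδ hf hm h0
    refine ⟨δ0, hδ0, fun δ' h1 h2 => ?_⟩
    obtain ⟨g, a, b, c, η, d, e, k⟩ := H δ' h1 h2
    exact ⟨g, a, b, c, η, d, e, Or.inl k⟩
  · obtain ⟨δ0, hδ0, H⟩ := param_interval_mono (fun x => -f x) s δ hδ hf.neg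
      (fun x hx y hy hxy => neg_lt_neg (hm hx hy hxy)) (by simp [h0])
    refine ⟨δ0, hδ0, fun δ' h1 h2 => ?_⟩
    obtain ⟨g, a, b, c, η, d, e, k1, k2⟩ := H δ' h1 h2
    have hneg : ∀ x ∈ Set.Ioo (-δ') δ', -x ∈ Set.Ioo (-δ') δ' := by
      intro x hx
      exact ⟨by linarith [hx.2], by linarith [hx.1]⟩
    refine ⟨fun x => g (-x), a.comp continuous_neg.continuousOn hneg, ?_, by simpa using c, η, d,
      e, Or.inr ⟨?_, ?_⟩⟩
    · intro x hx
      have h3 := b (-x) (hneg x hx)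
      refine ⟨h3.1, ?_⟩
      have h4 : -f (g (-x)) = -x := h3.2
      linarith
    · intro u hu
      have h3 := k1 u hu
      exact ⟨by linarith [h3.2], by linarith [h3.1]⟩
    · intro u hu
      have h3 := k2 u hu
      exact ⟨by linarith [h3.2], by linarith [h3.1]⟩

end AltGenus562
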