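import Pool.Agent.Helper562.AltG.DefsAll
import Pool.Agent.Helper562.AltG.P.D5

noncomputable section

namespace AltGenus562

open Set Topology unitInterval

variable {S : Type} [TopologicalSpace S]

lemma per_int_aux {α : Type*} (f : ℝ → α) (h : ∀ t, f (t + 1) = f t) (a : ℤ) (t : ℝ) :
    f (t + a) = f t := by
  have h1 : Function.Periodic f 1 := h
  have h2 := h1.int_mul a
  rw [mul_one] at h2
  exact h2 t

-- TARGET
/-- The chart at a simple point, in the form needed later. -/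
theorem Diagram.simple_box (D : Diagram S) (i : Fin D.m) (s : ℝ) (hs : D.Simple i s) :
    ∃ e : OpenPartialHomeomorph S (ℝ × ℝ), ∃ δ > 0, Qbox δ ⊆ e.target ∧
      ∃ o : ℝ → ℝ, ContinuousOn o (Set.Ioo (-δ) δ) ∧
        (∀ x ∈ Qbox δ, e.symm x ∈ D.curve ↔ x.2 = 0) ∧
        (∀ x ∈ Qbox δ, ∀ h, (∃ k t, D.pr k t = e.symm x ∧ D.ht k t = h) ↔
          (x.2 = 0 ∧ h = o x.1)) ∧
        (∀ x ∈ Set.Ioo (-δ) δ, ∃ t, D.pr i t = e.symm (x, 0) ∧ D.ht i t = o x) ∧
        ∃ η > 0, ∀ u ∈ Set.Ioo (s - η) (s + η), D.pr i u ∈ e.source ∧ e (D.pr i u) ∈ Qbox δ ∧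
          (e (D.pr i u)).2 = 0 := by
  obtain ⟨e, hes, he0, δ1, hδ1, hinj, hax, hback, -⟩ := D.simple i s hs
  set f : ℝ → ℝ := fun u => (e (D.pr i u)).1 with hf
  have hfc : ContinuousOn f (Set.Ioo (s - δ1) (s + δ1)) := by
    have h1 : ContinuousOn (fun u => e (D.pr i u)) (Set.Ioo (s - δ1) (s + δ1)) :=
      e.continuousOn.comp (D.cont_pr i).continuousOn (fun u hu => (hax u hu).1)
    exact continuous_fst.comp_continuousOn h1
  have hfe : ∀ u ∈ Set.Ioo (s - δ1) (s + δ1), e (D.pr i u) = (f u, 0) := fun u hu =>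
    Prod.ext rfl (hax u hu).2
  have hfi : Set.InjOn f (Set.Ioo (s - δ1) (s + δ1)) := by
    intro u hu v hv huv
    apply hinj hu hv
    apply e.injOn (hax u hu).1 (hax v hv).1
    rw [hfe u hu, hfe v hv, huv]
  have hf0 : f s = 0 := by
    show (e (D.pr i s)).1 = 0
    rw [he0]; rfl
  obtain ⟨δ0, hδ0, hpar⟩ := param_interval f s δ1 hδ1 hfc hfi hf0
  have h0t : (0 : ℝ × ℝ) ∈ e.target := by
    rw [← he0]
    exact e.map_source hes
  obtain ⟨ε, hε, hball⟩ := Metric.isOpen_iff.mp e.open_target 0 h0t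
  have hδ : 0 < min δ0 ε := lt_min hδ0 hε
  obtain ⟨g, hgc, hg, hg0, η, hη, hηδ, hside⟩ := hpar (min δ0 ε) hδ (min_le_left _ _)
  set δ := min δ0 ε with hδdef
  have hQt : Qbox δ ⊆ e.target := by
    rintro ⟨a, b⟩ ⟨ha, hb⟩
    apply hball
    rw [mem_ball_zero_iff, Prod.norm_def]
    have h1 : δ ≤ ε := min_le_right _ _
    have ha' : |a| < δ := abs_lt.mpr ha
    have hb' : |b| < δ := abs_lt.mpr hb
    exact max_lt (lt_of_lt_of_le ha' h1) (lt_of_lt_of_le hb' h1)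
  -- points of the axis
  have hA : ∀ x ∈ Set.Ioo (-δ) δ, e.symm (x, 0) = D.pr i (g x) := by
    intro x hx
    obtain ⟨h1, h2⟩ := hg x hx
    have h3 : e (D.pr i (g x)) = (x, 0) := by rw [hfe _ h1, h2]
    rw [← h3]
    exact e.left_inv (hax _ h1).1
  -- points of the curve
  have hB : ∀ x ∈ Qbox δ, ∀ k t, D.pr k t = e.symm x →
      x.2 = 0 ∧ D.ht k t = D.ht i (g x.1) := by
    intro x hx k t hkt
    have hsrc : D.pr k t ∈ e.source := by
      rw [hkt]
      exact e.map_target (hQt hx)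
    obtain ⟨hki, a, ha⟩ := hback k t hsrc
    subst hki
    have h1 : D.pr k (t + a) = D.pr k t := per_int_aux _ (D.per_pr k) a t
    have h2 : D.ht k (t + a) = D.ht k t := per_int_aux _ (D.per_ht k) a t
    have h3 : e (D.pr k (t + a)) = x := by
      rw [h1, hkt]
      exact e.right_inv (hQt hx)
    have h4 := hfe _ ha
    rw [h3] at h4
    have h5 : x.1 = f (t + a) := by rw [h4]
    have h6 : x.2 = 0 := by rw [h4]
    refine ⟨h6, ?_⟩
    rw [← h2]
    obtain ⟨h7, h8⟩ := hg x.1 hx.1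
    have h9 : t + a = g x.1 := hfi ha h7 (by rw [h8, h5])
    rw [h9]
  refine ⟨e, δ, hδ, hQt, fun x => D.ht i (g x), ?_, ?_, ?_, ?_, η, hη, ?_⟩
  · exact (D.cont_ht i).comp_continuousOn hgc
  · intro x hx
    constructor
    · rintro ⟨k, t, hkt⟩
      exact (hB x hx k t hkt).1
    · intro h2
      refine ⟨i, g x.1, ?_⟩
      rw [← hA x.1 hx.1]
      congr 1
      exact Prod.ext rfl h2.symm
  · intro x hx h
    constructor
    · rintro ⟨k, t, hkt, hh⟩
      obtain ⟨h1, h2⟩ := hB x hx k t hkt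
      exact ⟨h1, by rw [← hh, h2]⟩
    · rintro ⟨h2, hh⟩
      refine ⟨i, g x.1, ?_, hh.symm⟩
      rw [← hA x.1 hx.1]
      congr 1
      exact Prod.ext rfl h2.symm
  · intro x hx
    exact ⟨g x, (hA x hx).symm, rfl⟩
  · intro u hu
    have hu1 : u ∈ Set.Ioo (s - δ1) (s + δ1) := ⟨by linarith [hu.1], by linarith [hu.2]⟩
    have h1 := hax u hu1
    refine ⟨h1.1, ?_, h1.2⟩
    rw [hfe u hu1]
    refine ⟨?_, ⟨by show -δ < 0; linarith, hδ⟩⟩
    show f u ∈ Set.Ioo (-δ) δ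
    rcases lt_trichotomy u s with h | h | h
    · rcases hside with ⟨-, h2⟩ | ⟨-, h2⟩
      · have := h2 u ⟨hu.1, h⟩
        exact ⟨this.1, this.2.trans hδ⟩
      · have := h2 u ⟨hu.1, h⟩
        exact ⟨by linarith [this.1], this.2⟩
    · rw [h, hf0]
      exact ⟨by linarith, hδ⟩
    · rcases hside with ⟨h2, -⟩ | ⟨h2, -⟩
      · have := h2 u ⟨h, hu.2⟩
        exact ⟨by linarith [this.1], this.2⟩
      · have := h2 u ⟨h, hu.2⟩
        exact ⟨this.1, this.2.trans hδ⟩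

end AltGenus562
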