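import Pool.Agent.Helper562.AltG.DefsAll
import Pool.Agent.Helper562.AltG.P.D5

noncomputable section

namespace AltGenus562

open Set Topology unitInterval

variable {S : Type} [TopologicalSpace S]

theorem cb_per_int {X : Type*} (f : ℝ → X) (hf : ∀ t, f (t + 1) = f t) (v : ℝ) (a : ℤ) :
    f (v + a) = f v := by
  have hnat : ∀ (n : ℕ) (y : ℝ), f (y + n) = f y := by
    intro n
    induction n with
    | zero => intro y; simp
    | succ n ih =>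
      intro y
      have : y + ((n + 1 : ℕ) : ℝ) = (y + n) + 1 := by push_cast; ring
      rw [this, hf, ih]
  rcases Int.eq_nat_or_neg a with ⟨n, rfl | rfl⟩
  · exact_mod_cast hnat n v
  · have h1 := hnat n (v + ((-(n : ℤ) : ℤ) : ℝ))
    have h2 : v + ((-(n : ℤ) : ℤ) : ℝ) + (n : ℝ) = v := by push_cast; ring
    rw [h2] at h1
    exact h1.symm

-- TARGET
/-- The chart at a crossing, in the form needed later: the upper strand is the first axis, the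
lower strand is the second axis. -/
theorem Diagram.crossing_box (D : Diagram S) (i j : Fin D.m) (s t : ℝ)
    (hst : D.pr i s = D.pr j t) (hht : D.ht j t < D.ht i s) :
    ∃ e : OpenPartialHomeomorph S (ℝ × ℝ), ∃ δ > 0, Qbox δ ⊆ e.target ∧
      ∃ o u : ℝ → ℝ, ∃ m ∈ Set.Ioo (-1 : ℝ) 1, ContinuousOn o (Set.Ioo (-δ) δ) ∧
        ContinuousOn u (Set.Ioo (-δ) δ) ∧
        (∀ x ∈ Set.Ioo (-δ) δ, o x ∈ Set.Ioo m 1) ∧ (∀ x ∈ Set.Ioo (-δ) δ, u x ∈ Set.Ioo (-1) m) ∧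
        (∀ x ∈ Qbox δ, e.symm x ∈ D.curve ↔ (x.1 = 0 ∨ x.2 = 0)) ∧
        (∀ x ∈ Qbox δ, ∀ h, (∃ k t, D.pr k t = e.symm x ∧ D.ht k t = h) ↔
          ((x.2 = 0 ∧ h = o x.1) ∨ (x.1 = 0 ∧ h = u x.2))) ∧
        (∀ x ∈ Set.Ioo (-δ) δ, ∃ t, D.pr i t = e.symm (x, 0) ∧ D.ht i t = o x) ∧
        (∀ x ∈ Set.Ioo (-δ) δ, ∃ t, D.pr j t = e.symm (0, x) ∧ D.ht j t = u x) ∧
        ∃ η > 0,
          (((∀ v ∈ Set.Ioo s (s + η), D.pr i v ∈ e.source ∧ (e (D.pr i v)).1 ∈ Set.Ioo 0 δ ∧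
              (e (D.pr i v)).2 = 0) ∧
            (∀ v ∈ Set.Ioo (s - η) s, D.pr i v ∈ e.source ∧ (e (D.pr i v)).1 ∈ Set.Ioo (-δ) 0 ∧
              (e (D.pr i v)).2 = 0)) ∨
           ((∀ v ∈ Set.Ioo s (s + η), D.pr i v ∈ e.source ∧ (e (D.pr i v)).1 ∈ Set.Ioo (-δ) 0 ∧
              (e (D.pr i v)).2 = 0) ∧
            (∀ v ∈ Set.Ioo (s - η) s, D.pr i v ∈ e.source ∧ (e (D.pr i v)).1 ∈ Set.Ioo 0 δ ∧
              (e (D.pr i v)).2 = 0))) ∧
          (((∀ v ∈ Set.Ioo t (t + η), D.pr j v ∈ e.source ∧ (e (D.pr j v)).2 ∈ Set.Ioo 0 δ ∧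
              (e (D.pr j v)).1 = 0) ∧
            (∀ v ∈ Set.Ioo (t - η) t, D.pr j v ∈ e.source ∧ (e (D.pr j v)).2 ∈ Set.Ioo (-δ) 0 ∧
              (e (D.pr j v)).1 = 0)) ∨
           ((∀ v ∈ Set.Ioo t (t + η), D.pr j v ∈ e.source ∧ (e (D.pr j v)).2 ∈ Set.Ioo (-δ) 0 ∧
              (e (D.pr j v)).1 = 0) ∧
            (∀ v ∈ Set.Ioo (t - η) t, D.pr j v ∈ e.source ∧ (e (D.pr j v)).2 ∈ Set.Ioo 0 δ ∧
              (e (D.pr j v)).1 = 0))) := by
  have hper : ∀ (k : Fin D.m) (v : ℝ) (a : ℤ), D.pr k (v + a) = D.pr k v := fun k v a =>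
    cb_per_int (D.pr k) (D.per_pr k) v a
  have hperh : ∀ (k : Fin D.m) (v : ℝ) (a : ℤ), D.ht k (v + a) = D.ht k v := fun k v a =>
    cb_per_int (D.ht k) (D.per_ht k) v a
  have hns : ¬ (i = j ∧ ∃ k : ℤ, t = s + k) := by
    rintro ⟨rfl, k, rfl⟩
    rw [hperh] at hht
    exact lt_irrefl _ hht
  obtain ⟨e, hes, he0, δ1, hδ1, hinji, hinjj, hai, haj, hall, hconv⟩ := D.double i j s t hst hns
  obtain ⟨m, hm⟩ : ∃ m : ℝ, m = (D.ht j t + D.ht i s) / 2 := ⟨_, rfl⟩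
  have hmi : m < D.ht i s := by linarith
  have hmj : D.ht j t < m := by linarith
  obtain ⟨ρi, hρi, hρi'⟩ : ∃ ρ > 0, ∀ v, |v - s| < ρ → m < D.ht i v := by
    have h1 := (D.cont_ht i).continuousAt (x := s)
    have h2 := h1.eventually (lt_mem_nhds hmi)
    rw [Metric.eventually_nhds_iff] at h2
    obtain ⟨ρ, hρ, h3⟩ := h2
    exact ⟨ρ, hρ, fun v hv => h3 (by rw [Real.dist_eq]; exact hv)⟩
  obtain ⟨ρj, hρj, hρj'⟩ : ∃ ρ > 0, ∀ v, |v - t| < ρ → D.ht j v < m := by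
    have h1 := (D.cont_ht j).continuousAt (x := t)
    have h2 := h1.eventually (gt_mem_nhds hmj)
    rw [Metric.eventually_nhds_iff] at h2
    obtain ⟨ρ, hρ, h3⟩ := h2
    exact ⟨ρ, hρ, fun v hv => h3 (by rw [Real.dist_eq]; exact hv)⟩
  obtain ⟨δ2, hδ2, hδ21, hδ2i, hδ2j⟩ : ∃ δ2 > 0, δ2 ≤ δ1 ∧ δ2 ≤ ρi ∧ δ2 ≤ ρj :=
    ⟨min δ1 (min ρi ρj), lt_min hδ1 (lt_min hρi hρj), min_le_left _ _,
      (min_le_right _ _).trans (min_le_left _ _), (min_le_right _ _).trans (min_le_right _ _)⟩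
  have hsubs : Set.Ioo (s - δ2) (s + δ2) ⊆ Set.Ioo (s - δ1) (s + δ1) :=
    Set.Ioo_subset_Ioo (by linarith) (by linarith)
  have hsubt : Set.Ioo (t - δ2) (t + δ2) ⊆ Set.Ioo (t - δ1) (t + δ1) :=
    Set.Ioo_subset_Ioo (by linarith) (by linarith)
  -- the coordinate functions
  have hinjf : Set.InjOn (fun v => (e (D.pr i v)).1) (Set.Ioo (s - δ1) (s + δ1)) := by
    intro a ha b hb hab
    obtain ⟨ha1, ha2⟩ := hai a ha
    obtain ⟨hb1, hb2⟩ := hai b hb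
    exact hinji ha hb (e.injOn ha1 hb1 (Prod.ext hab (ha2.trans hb2.symm)))
  have hinjf' : Set.InjOn (fun v => (e (D.pr j v)).2) (Set.Ioo (t - δ1) (t + δ1)) := by
    intro a ha b hb hab
    obtain ⟨ha1, ha2⟩ := haj a ha
    obtain ⟨hb1, hb2⟩ := haj b hb
    exact hinjj ha hb (e.injOn ha1 hb1 (Prod.ext (ha2.trans hb2.symm) hab))
  have hcf : ContinuousOn (fun v => (e (D.pr i v)).1) (Set.Ioo (s - δ2) (s + δ2)) := by
    apply continuous_fst.comp_continuousOn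
    exact e.continuousOn.comp (D.cont_pr i).continuousOn (fun v hv => (hai v (hsubs hv)).1)
  have hcf' : ContinuousOn (fun v => (e (D.pr j v)).2) (Set.Ioo (t - δ2) (t + δ2)) := by
    apply continuous_snd.comp_continuousOn
    exact e.continuousOn.comp (D.cont_pr j).continuousOn (fun v hv => (haj v (hsubt hv)).1)
  obtain ⟨δ0, hδ0, hpar⟩ := param_interval (fun v => (e (D.pr i v)).1) s δ2 hδ2 hcf
    (hinjf.mono hsubs) (by simp only [he0]; rfl)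
  obtain ⟨δ0', hδ0', hpar'⟩ := param_interval (fun v => (e (D.pr j v)).2) t δ2 hδ2 hcf'
    (hinjf'.mono hsubt) (by simp only [← hst, he0]; rfl)
  obtain ⟨δb, hδb, hbox⟩ : ∃ δb > 0, Qbox δb ⊆ e.target := by
    have h0 : (0 : ℝ × ℝ) ∈ e.target := by rw [← he0]; exact e.map_source hes
    obtain ⟨r, hr, hr'⟩ := Metric.isOpen_iff.1 e.open_target 0 h0
    refine ⟨r, hr, fun x hx => hr' ?_⟩
    rw [mem_ball_zero_iff, Prod.norm_def, max_lt_iff, Real.norm_eq_abs, Real.norm_eq_abs,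
      abs_lt, abs_lt]
    exact ⟨⟨hx.1.1, hx.1.2⟩, ⟨hx.2.1, hx.2.2⟩⟩
  obtain ⟨δ, hδ, hδle, hδle', hδb'⟩ : ∃ δ > 0, δ ≤ δ0 ∧ δ ≤ δ0' ∧ δ ≤ δb :=
    ⟨min δ0 (min δ0' δb), lt_min hδ0 (lt_min hδ0' hδb), min_le_left _ _,
      (min_le_right _ _).trans (min_le_left _ _), (min_le_right _ _).trans (min_le_right _ _)⟩
  obtain ⟨g, hgc, hg, hg0, η1, hη1, hη1', hsg⟩ := hpar δ hδ hδle
  obtain ⟨g', hgc', hg', hg0', η2, hη2, hη2', hsg'⟩ := hpar' δ hδ hδle'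
  have hQ : Qbox δ ⊆ e.target := by
    intro x hx
    apply hbox
    exact ⟨⟨by linarith [hx.1.1], by linarith [hx.1.2]⟩,
      ⟨by linarith [hx.2.1], by linarith [hx.2.2]⟩⟩
  -- the points on the axes
  have hax : ∀ x ∈ Set.Ioo (-δ) δ, D.pr i (g x) = e.symm (x, 0) := by
    intro x hx
    obtain ⟨h1, h2⟩ := hg x hx
    obtain ⟨h3, h4⟩ := hai _ (hsubs h1)
    have h5 : e (D.pr i (g x)) = (x, 0) := Prod.ext h2 h4
    rw [← h5, e.left_inv h3]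
  have hax' : ∀ x ∈ Set.Ioo (-δ) δ, D.pr j (g' x) = e.symm (0, x) := by
    intro x hx
    obtain ⟨h1, h2⟩ := hg' x hx
    obtain ⟨h3, h4⟩ := haj _ (hsubt h1)
    have h5 : e (D.pr j (g' x)) = (0, x) := Prod.ext h4 h2
    rw [← h5, e.left_inv h3]
  have hpts : ∀ x ∈ Qbox δ, ∀ k v, D.pr k v = e.symm x →
      (x.2 = 0 ∧ D.ht k v = D.ht i (g x.1)) ∨ (x.1 = 0 ∧ D.ht k v = D.ht j (g' x.2)) := by
    intro x hx k v hkv
    have hxt := hQ hx
    have hsrc : D.pr k v ∈ e.source := by rw [hkv]; exact e.map_target hxt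
    rcases hall k v hsrc with ⟨rfl, a, ha⟩ | ⟨rfl, a, ha⟩
    · left
      have h1 : e (D.pr k (v + a)) = x := by rw [hper, hkv, e.right_inv hxt]
      obtain ⟨h2, h3⟩ := hai _ ha
      obtain ⟨h4, h5⟩ := hg x.1 hx.1
      have h6 : v + a = g x.1 := by
        apply hinjf ha (hsubs h4)
        show (e (D.pr k (v + a))).1 = _
        rw [h1]
        exact h5.symm
      refine ⟨by rw [← h1]; exact h3, ?_⟩
      rw [← h6, hperh]
    · right
      have h1 : e (D.pr k (v + a)) = x := by rw [hper, hkv, e.right_inv hxt]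
      obtain ⟨h2, h3⟩ := haj _ ha
      obtain ⟨h4, h5⟩ := hg' x.2 hx.2
      have h6 : v + a = g' x.2 := by
        apply hinjf' ha (hsubt h4)
        show (e (D.pr k (v + a))).2 = _
        rw [h1]
        exact h5.symm
      refine ⟨by rw [← h1]; exact h3, ?_⟩
      rw [← h6, hperh]
  refine ⟨e, δ, hδ, hQ, fun x => D.ht i (g x), fun x => D.ht j (g' x), m, ?_, ?_, ?_, ?_, ?_, ?_,
    ?_, ?_, ?_, min η1 η2, lt_min hη1 hη2, ?_, ?_⟩
  · exact ⟨by linarith [(D.ht_mem j t).1], by linarith [(D.ht_mem i s).2]⟩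
  · exact (D.cont_ht i).comp_continuousOn hgc
  · exact (D.cont_ht j).comp_continuousOn hgc'
  · intro x hx
    obtain ⟨h1, -⟩ := hg x hx
    refine ⟨hρi' _ ?_, (D.ht_mem _ _).2⟩
    rw [abs_lt]
    exact ⟨by linarith [h1.1], by linarith [h1.2]⟩
  · intro x hx
    obtain ⟨h1, -⟩ := hg' x hx
    refine ⟨(D.ht_mem _ _).1, hρj' _ ?_⟩
    rw [abs_lt]
    exact ⟨by linarith [h1.1], by linarith [h1.2]⟩
  · intro x hx
    constructor
    · rintro ⟨k, v, hkv⟩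
      rcases hpts x hx k v hkv with h1 | h1
      · exact Or.inr h1.1
      · exact Or.inl h1.1
    · rintro (h1 | h1)
      · refine ⟨j, g' x.2, ?_⟩
        rw [hax' _ hx.2]
        congr 1
        exact Prod.ext h1.symm rfl
      · refine ⟨i, g x.1, ?_⟩
        rw [hax _ hx.1]
        congr 1
        exact Prod.ext rfl h1.symm
  · intro x hx h
    constructor
    · rintro ⟨k, v, hkv, hh⟩
      rcases hpts x hx k v hkv with h1 | h1
      · exact Or.inl ⟨h1.1, by rw [← hh]; exact h1.2⟩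
      · exact Or.inr ⟨h1.1, by rw [← hh]; exact h1.2⟩
    · rintro (⟨h1, h2⟩ | ⟨h1, h2⟩)
      · refine ⟨i, g x.1, ?_, h2.symm⟩
        rw [hax _ hx.1]
        congr 1
        exact Prod.ext rfl h1.symm
      · refine ⟨j, g' x.2, ?_, h2.symm⟩
        rw [hax' _ hx.2]
        congr 1
        exact Prod.ext h1.symm rfl
  · intro x hx
    exact ⟨g x, hax x hx, rfl⟩
  · intro x hx
    exact ⟨g' x, hax' x hx, rfl⟩
  · have hr : ∀ v ∈ Set.Ioo s (s + min η1 η2), v ∈ Set.Ioo s (s + η1) ∧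
        v ∈ Set.Ioo (s - δ1) (s + δ1) := by
      intro v hv
      have := min_le_left η1 η2
      exact ⟨⟨hv.1, by linarith [hv.2]⟩, ⟨by linarith [hv.1], by linarith [hv.2]⟩⟩
    have hl : ∀ v ∈ Set.Ioo (s - min η1 η2) s, v ∈ Set.Ioo (s - η1) s ∧
        v ∈ Set.Ioo (s - δ1) (s + δ1) := by
      intro v hv
      have := min_le_left η1 η2
      exact ⟨⟨by linarith [hv.1], hv.2⟩, ⟨by linarith [hv.1], by linarith [hv.2]⟩⟩
    rcases hsg with ⟨h1, h2⟩ | ⟨h1, h2⟩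
    · left
      exact ⟨fun v hv => ⟨(hai v (hr v hv).2).1, h1 v (hr v hv).1, (hai v (hr v hv).2).2⟩,
        fun v hv => ⟨(hai v (hl v hv).2).1, h2 v (hl v hv).1, (hai v (hl v hv).2).2⟩⟩
    · right
      exact ⟨fun v hv => ⟨(hai v (hr v hv).2).1, h1 v (hr v hv).1, (hai v (hr v hv).2).2⟩,
        fun v hv => ⟨(hai v (hl v hv).2).1, h2 v (hl v hv).1, (hai v (hl v hv).2).2⟩⟩
  · have hr : ∀ v ∈ Set.Ioo t (t + min η1 η2), v ∈ Set.Ioo t (t + η2) ∧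
        v ∈ Set.Ioo (t - δ1) (t + δ1) := by
      intro v hv
      have := min_le_right η1 η2
      exact ⟨⟨hv.1, by linarith [hv.2]⟩, ⟨by linarith [hv.1], by linarith [hv.2]⟩⟩
    have hl : ∀ v ∈ Set.Ioo (t - min η1 η2) t, v ∈ Set.Ioo (t - η2) t ∧
        v ∈ Set.Ioo (t - δ1) (t + δ1) := by
      intro v hv
      have := min_le_right η1 η2
      exact ⟨⟨by linarith [hv.1], hv.2⟩, ⟨by linarith [hv.1], by linarith [hv.2]⟩⟩
    rcases hsg' with ⟨h1, h2⟩ | ⟨h1, h2⟩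
    · left
      exact ⟨fun v hv => ⟨(haj v (hr v hv).2).1, h1 v (hr v hv).1, (haj v (hr v hv).2).2⟩,
        fun v hv => ⟨(haj v (hl v hv).2).1, h2 v (hl v hv).1, (haj v (hl v hv).2).2⟩⟩
    · right
      exact ⟨fun v hv => ⟨(haj v (hr v hv).2).1, h1 v (hr v hv).1, (haj v (hr v hv).2).2⟩,
        fun v hv => ⟨(haj v (hl v hv).2).1, h2 v (hl v hv).1, (haj v (hl v hv).2).2⟩⟩

end AltGenus562
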