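import Pool.Agent.Helper562.AltG.DefsAll
import Pool.Agent.Helper562.AltG.P.A6
import Pool.Agent.Helper562.AltG.P.B1
import Pool.Agent.Helper562.AltG.P.D1
import Pool.Agent.Helper562.AltG.P.D3
import Pool.Agent.Helper562.AltG.P.D4
import Pool.Agent.Helper562.AltG.P.D6

noncomputable section

namespace AltGenus562

open Set Topology unitInterval

variable {S : Type} [TopologicalSpace S]

theorem ep_lift_comp {Φ : Sys} {A B : Type*} [TopologicalSpace A] [TopologicalSpace B] {q : A → ℂ}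
    {s : A → Circle} {y : A → ℝ} (h : IsLift Φ q s y) {g : B → A} (hg : Continuous g) :
    IsLift Φ (fun x => q (g x)) (fun x => s (g x)) (fun x => y (g x)) where
  cs := h.cs.comp hg
  cy := h.cy.comp hg
  sq := fun a => h.sq (g a)
  val := fun a => h.val (g a)

theorem ep_cont (K : Conf S) (e : OpenPartialHomeomorph S (ℝ × ℝ)) {V : Set (ℝ × ℝ)}
    (hV : V ⊆ e.target) : Continuous (fun p : V × ℝ => K.q (e.symm p.1.1, p.2)) := by
  have h1 : Continuous (fun p : V × ℝ => e.symm p.1.1) :=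
    e.continuousOn_symm.comp_continuous (continuous_subtype_val.comp continuous_fst)
      (fun p => hV p.1.2)
  exact K.cq.comp (h1.prodMk continuous_snd)

theorem ep_half (K : Conf S) (e : OpenPartialHomeomorph S (ℝ × ℝ)) {δ : ℝ}
    (hQ : Qbox δ ⊆ e.target) (s1 s0 : Qbox δ → Circle)
    (h1 : IsLift K.Φ (fun x => K.q (e.symm x.1, 1)) s1 (fun x => K.fT (e.symm x.1, s1 x)))
    (h0 : IsLift K.Φ (fun x => K.q (e.symm x.1, -1)) s0 (fun x => K.fB (e.symm x.1, s0 x)))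
    (V : Set (ℝ × ℝ)) (hV : IsPreconnected V) (hVQ : V ⊆ Qbox δ)
    (hVY : ∀ x ∈ V, ∀ h ∈ Set.Icc (-1 : ℝ) 1, K.q (e.symm x, h) ∈ K.Φ.Y) :
    ∃ (ε : ℤˣ) (k : ℤ), ∀ x : Qbox δ, x.1 ∈ V →
      Tr K.Φ (seg (fun h => K.q (e.symm x.1, h)) 1 (-1)) (s1 x, K.fT (e.symm x.1, s1 x))
        (flip ε (s0 x), (ε : ℤ) * K.fB (e.symm x.1, s0 x) + k) := by
  have hP : PreconnectedSpace V := Subtype.preconnectedSpace hV
  have hj : Continuous (Set.inclusion hVQ) := continuous_inclusion hVQ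
  have hc : Continuous (fun p : V × ℝ => K.q (e.symm p.1.1, p.2)) :=
    ep_cont K e (hVQ.trans hQ)
  obtain ⟨ε, k, h⟩ := vertical_offset (Φ := K.Φ) (A := V)
    (fun p : V × ℝ => K.q (e.symm p.1.1, p.2)) hc (a := -1) (b := 1) (by norm_num)
    (fun x h hh => hVY x.1 x.2 h hh) (ep_lift_comp h1 hj) (ep_lift_comp h0 hj)
  exact ⟨ε, k, fun x hx => h ⟨x.1, hx⟩⟩

theorem ep_convex (δ : ℝ) (t : Set ℝ) (ht : Convex ℝ t) :
    IsPreconnected (Set.Ioo (-δ) δ ×ˢ t : Set (ℝ × ℝ)) :=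
  ((convex_Ioo (-δ) δ).prod ht).isPreconnected

theorem ep_closure (K : Conf S) (e : OpenPartialHomeomorph S (ℝ × ℝ)) {δ : ℝ}
    (hQ : Qbox δ ⊆ e.target) (hcurve : ∀ x ∈ Qbox δ, e.symm x ∈ K.D.curve ↔ x.2 = 0)
    {z : S} (hz : z ∈ e.source) (hzQ : e z ∈ Qbox δ) (hz0 : (e z).2 = 0) (sg : ℝ)
    (hsg : sg = 1 ∨ sg = -1) :
    z ∈ closure {x | x ∈ {y : S | 0 < sg * (e y).2} ∧ x ∉ K.D.curve} := by
  have hδ : 0 < δ := by
    have h1 := hzQ.1.1
    have h2 := hzQ.1.2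
    linarith
  have hcont : ContinuousAt e.symm (e z) := e.symm.continuousAt (e.map_source hz)
  have htend : Filter.Tendsto (fun t : ℝ => e.symm ((e z).1, sg * t)) (𝓝[>] 0) (𝓝 z) := by
    have h1 : Filter.Tendsto (fun t : ℝ => ((e z).1, sg * t)) (𝓝[>] 0) (𝓝 (e z)) := by
      have h2 : Continuous (fun t : ℝ => ((e z).1, sg * t)) := by fun_prop
      have h3 := (h2.tendsto 0).mono_left (nhdsWithin_le_nhds (s := Set.Ioi (0:ℝ)))
      have h4 : ((e z).1, sg * 0) = e z := by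
        rw [mul_zero, ← hz0]
      rw [h4] at h3
      exact h3
    have h5 := hcont.tendsto.comp h1
    rw [e.left_inv hz] at h5
    exact h5
  apply mem_closure_of_tendsto htend
  have hev : ∀ᶠ t : ℝ in 𝓝[>] 0, t < δ := by
    apply mem_nhdsWithin_of_mem_nhds
    exact Iio_mem_nhds hδ
  filter_upwards [hev, self_mem_nhdsWithin] with t ht1 ht2
  have ht0 : 0 < t := ht2
  have hmem : (((e z).1, sg * t) : ℝ × ℝ) ∈ Qbox δ := by
    refine ⟨hzQ.1, ?_, ?_⟩
    · rcases hsg with h | h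
      · show -δ < sg * t
        rw [h]
        linarith
      · show -δ < sg * t
        rw [h]
        linarith
    · rcases hsg with h | h
      · show sg * t < δ
        rw [h]
        linarith
      · show sg * t < δ
        rw [h]
        linarith
  constructor
  · show 0 < sg * (e (e.symm ((e z).1, sg * t))).2
    rw [e.right_inv (hQ hmem)]
    show 0 < sg * (sg * t)
    rcases hsg with h | h
    · rw [h]
      linarith
    · rw [h]
      linarith
  · rw [hcurve _ hmem]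
    show ¬ sg * t = 0
    rcases hsg with h | h
    · rw [h]
      linarith
    · rw [h]
      linarith

-- TARGET
/-- Near a simple point of the diagram. -/
theorem Conf.edge_pair (K : Conf S) (i : Fin K.D.m) (s : ℝ) (hs : K.D.Simple i s) :
    ∃ a b : ℤ, Even (a + b - K.ρ i) ∧ ∃ η > 0, ∀ u ∈ Set.Ioo (s - η) (s + η),
      K.Pair (K.D.pr i u) a b := by
  classical
  obtain ⟨e, δ, hδ, hQ, o, ho, hcurve, hpts, hstr, η, hη, hη'⟩ := K.D.simple_box i s hs
  obtain ⟨s1, s0, h1, h0⟩ := K.box_sections e hQ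
  have hQo : IsOpen (Qbox δ) := isOpen_Ioo.prod isOpen_Ioo
  have hYQ : ∀ x ∈ Qbox δ, ∀ h ∈ Set.Icc (-1 : ℝ) 1, ¬ (x.2 = 0 ∧ h = o x.1) →
      K.q (e.symm x, h) ∈ K.Φ.Y := by
    intro x hx h hh hne
    apply K.hY _ h hh
    rw [hpts x hx h]
    exact hne
  have hVp1 : Set.Ioo (-δ) δ ×ˢ Set.Ioo 0 δ ⊆ Qbox δ :=
    Set.prod_mono_right (Set.Ioo_subset_Ioo_left (by linarith))
  have hVm1 : Set.Ioo (-δ) δ ×ˢ Set.Ioo (-δ) 0 ⊆ Qbox δ :=
    Set.prod_mono_right (Set.Ioo_subset_Ioo_right hδ.le)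
  obtain ⟨εp, Vp, hVp⟩ := ep_half K e hQ s1 s0 h1 h0 (Set.Ioo (-δ) δ ×ˢ Set.Ioo 0 δ)
    (ep_convex δ _ (convex_Ioo 0 δ)) hVp1 (fun x hx h hh => hYQ x (hVp1 hx) h hh (by
      rintro ⟨h2, -⟩
      have h3 : 0 < x.2 := hx.2.1
      linarith))
  obtain ⟨εm, Vm, hVm⟩ := ep_half K e hQ s1 s0 h1 h0 (Set.Ioo (-δ) δ ×ˢ Set.Ioo (-δ) 0)
    (ep_convex δ _ (convex_Ioo (-δ) 0)) hVm1 (fun x hx h hh => hYQ x (hVm1 hx) h hh (by
      rintro ⟨h2, -⟩
      have h3 : x.2 < 0 := hx.2.2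
      linarith))
  have h0Q : (0 : ℝ × ℝ) ∈ Qbox δ := ⟨⟨by simpa using hδ, hδ⟩, ⟨by simpa using hδ, hδ⟩⟩
  -- retraction to the box
  set r : ℝ × ℝ → Qbox δ := fun y => if h : y ∈ Qbox δ then ⟨y, h⟩ else ⟨0, h0Q⟩ with hr
  have hr1 : ∀ y ∈ Qbox δ, (r y).1 = y := by
    intro y hy
    rw [hr]
    simp only
    rw [dif_pos hy]
  have hrc : ContinuousOn r (Qbox δ) := by
    rw [Topology.IsInducing.subtypeVal.continuousOn_iff]
    exact continuousOn_id.congr (fun y hy => hr1 y hy)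
  -- the open sets
  have hOS : IsOpen (e.source ∩ e ⁻¹' Qbox δ) := e.isOpen_inter_preimage hQo
  set O : Set (S × ℝ) := (e.source ∩ e ⁻¹' Qbox δ) ×ˢ Set.Ioo (-1) 1 with hO
  have hOo : IsOpen O := hOS.prod isOpen_Ioo
  have hsη := hη' s ⟨by linarith, by linarith⟩
  have hmemO : (K.D.pr i s, K.D.ht i s) ∈ O := ⟨⟨hsη.1, hsη.2.1⟩, K.D.ht_mem i s⟩
  obtain ⟨ε', hε', w, hw, hw2⟩ := K.hsec i s O hOo hmemO
  have hstrand := strand_lemma (Φ := K.Φ) (U := Qbox δ) {x | x.1.2 = 0} {x | 0 < x.1.2}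
    {x | x.1.2 < 0}
    (isClosed_eq (continuous_snd.comp continuous_subtype_val) continuous_const)
    (isOpen_lt continuous_const (continuous_snd.comp continuous_subtype_val))
    (isOpen_lt (continuous_snd.comp continuous_subtype_val) continuous_const)
    (by
      intro x
      rcases lt_trichotomy x.1.2 0 with h | h | h
      · exact Or.inr (Or.inl h)
      · exact Or.inr (Or.inr h)
      · exact Or.inl h)
    (by
      rw [Set.disjoint_left]
      intro x hx hx'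
      exact lt_asymm (show (0:ℝ) < x.1.2 from hx) hx')
    (by
      rw [Set.disjoint_left]
      intro x hx hx'
      exact (ne_of_gt (show (0:ℝ) < x.1.2 from hx)) hx')
    (by
      rw [Set.disjoint_left]
      intro x hx hx'
      exact (ne_of_lt (show x.1.2 < (0:ℝ) from hx)) hx')
    (a := -1) (b := 1) (by norm_num) (fun p => K.q (e.symm p.1.1, p.2)) (ep_cont K e hQ)
    (fun x => o x.1.1)
    (ho.comp (continuous_fst.comp continuous_subtype_val).continuousOn (fun x _ => x.2.1))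
    (by
      intro x _
      obtain ⟨t, -, ht⟩ := hstr x.1.1 x.2.1
      rw [← ht]
      exact K.D.ht_mem i t)
    (fun x h hh hne => hYQ x.1 x.2 h hh hne)
    (K.c i)
    (by
      intro x hx
      obtain ⟨t, ht1, ht2⟩ := hstr x.1.1 x.2.1
      have hx' : x.1 = (x.1.1, (0:ℝ)) := by
        rw [← (show x.1.2 = 0 from hx)]
      have h2 := K.hc i t
      rw [ht1, ht2, ← hx'] at h2
      exact h2)
    h1 h0 εp εm Vp Vm
    (fun x hx => hVp x ⟨x.2.1, hx, x.2.2.2⟩)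
    (fun x hx => hVm x ⟨x.2.1, x.2.2.1, hx⟩)
    (K.hno i) (K.ρ i) (K.hloc i) ε' hε' (fun x => (r (e (w x).1), (w x).2))
    (by
      have hw1 : ContinuousOn (fun x => (w x).1) (Metric.ball (K.c i) ε' \ {K.c i}) :=
        continuous_fst.comp_continuousOn hw
      have hw3 : ContinuousOn (fun x => e (w x).1) (Metric.ball (K.c i) ε' \ {K.c i}) :=
        e.continuousOn.comp hw1 (fun x hx => (hw2 x hx).1.1.1)
      have hw4 : ContinuousOn (fun x => r (e (w x).1)) (Metric.ball (K.c i) ε' \ {K.c i}) :=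
        hrc.comp hw3 (fun x hx => (hw2 x hx).1.1.2)
      exact hw4.prodMk (continuous_snd.comp_continuousOn hw))
    (by
      intro x hx
      obtain ⟨⟨⟨a1, a2⟩, a3⟩, a4⟩ := hw2 x hx
      refine ⟨a3, ?_⟩
      show K.q (e.symm (r (e (w x).1)).1, (w x).2) = x
      rw [hr1 _ a2, e.left_inv a1]
      exact a4)
  refine ⟨Vp, Vm, hstrand.2, η, hη, ?_⟩
  intro u hu
  obtain ⟨hu1, hu2, hu3⟩ := hη' u hu
  have hVRp : ∀ y : Qbox δ, 0 < y.1.2 → K.VRel (e.symm y.1) (s1 y) Vp := fun y hy =>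
    K.VRel_of_Tr (h0.sq y) (hVp y ⟨y.2.1, hy, y.2.2.2⟩)
  have hVRm : ∀ y : Qbox δ, y.1.2 < 0 → K.VRel (e.symm y.1) (s1 y) Vm := fun y hy =>
    K.VRel_of_Tr (h0.sq y) (hVm y ⟨y.2.1, y.2.2.1, hy⟩)
  have hback : ∀ x ∈ e.source ∩ e ⁻¹' Qbox δ, e.symm (r (e x)).1 = x := by
    intro x hx
    rw [hr1 _ hx.2, e.left_inv hx.1]
  refine K.pair_of_sides (e.source ∩ e ⁻¹' Qbox δ) hOS ⟨hu1, hu2⟩ (fun x => s1 (r (e x))) ?_ ?_
    {y : S | 0 < 1 * (e y).2} {y : S | 0 < (-1) * (e y).2} ?_ ?_ ?_ ?_ ?_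
  · exact h1.cs.comp_continuousOn (hrc.comp (e.continuousOn.mono Set.inter_subset_left)
      (fun x hx => hx.2))
  · intro x hx
    have h2 := h1.sq (r (e x))
    rw [hback x hx] at h2
    exact h2
  · intro x hx hxc
    have h2 := hcurve (e x) hx.2
    rw [e.left_inv hx.1] at h2
    have h3 : (e x).2 ≠ 0 := fun h => hxc (h2.mpr h)
    rcases lt_or_gt_of_ne h3 with h4 | h4
    · right
      show 0 < (-1) * (e x).2
      linarith
    · left
      show 0 < 1 * (e x).2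
      linarith
  · intro x hx hxA _
    have h2 : 0 < (r (e x)).1.2 := by
      rw [hr1 _ hx.2]
      have h3 : 0 < 1 * (e x).2 := hxA
      linarith
    have h4 := hVRp (r (e x)) h2
    rw [hback x hx] at h4
    exact h4
  · intro x hx hxB _
    have h2 : (r (e x)).1.2 < 0 := by
      rw [hr1 _ hx.2]
      have h3 : 0 < (-1) * (e x).2 := hxB
      linarith
    have h4 := hVRm (r (e x)) h2
    rw [hback x hx] at h4
    exact h4
  · exact ep_closure K e hQ hcurve hu1 hu2 hu3 1 (Or.inl rfl)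
  · exact ep_closure K e hQ hcurve hu1 hu2 hu3 (-1) (Or.inr rfl)

end AltGenus562
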