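import Pool.Agent.Helper562.AltG.DefsAll
import Pool.Agent.Helper562.AltG.P.A6
import Pool.Agent.Helper562.AltG.P.B2
import Pool.Agent.Helper562.AltG.P.D1
import Pool.Agent.Helper562.AltG.P.D3
import Pool.Agent.Helper562.AltG.P.D4
import Pool.Agent.Helper562.AltG.P.D7

noncomputable section

namespace AltGenus562

open Set Topology unitInterval

variable {S : Type} [TopologicalSpace S]

theorem h399_quad (K : Conf S) (e : OpenPartialHomeomorph S (ℝ × ℝ)) {δ : ℝ}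
    (hQ : Qbox δ ⊆ e.target)
    (hcurve : ∀ x ∈ Qbox δ, e.symm x ∈ K.D.curve ↔ (x.1 = 0 ∨ x.2 = 0))
    {s1 s0 : Qbox δ → Circle}
    (hL1 : IsLift K.Φ (fun x : Qbox δ => K.q (e.symm x.1, 1)) s1
      (fun x => K.fT (e.symm x.1, s1 x)))
    (hL0 : IsLift K.Φ (fun x : Qbox δ => K.q (e.symm x.1, -1)) s0
      (fun x => K.fB (e.symm x.1, s0 x)))
    (R : Set (ℝ × ℝ)) (hR : R ⊆ Qbox δ) (hRc : IsPreconnected R)
    (hR0 : ∀ x ∈ R, ¬ (x.1 = 0 ∨ x.2 = 0)) :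
    ∃ (ε : ℤˣ) (V : ℤ), ∀ x : Qbox δ, x.1 ∈ R →
      Tr K.Φ (seg (fun h => K.q (e.symm x.1, h)) 1 (-1)) (s1 x, K.fT (e.symm x.1, s1 x))
       (flip ε (s0 x), (ε : ℤ) * K.fB (e.symm x.1, s0 x) + V) := by
  have : PreconnectedSpace R := Subtype.preconnectedSpace hRc
  let ι : R → Qbox δ := fun a => ⟨a.1, hR a.2⟩
  have hι : Continuous ι := Continuous.subtype_mk continuous_subtype_val _
  have hcont : Continuous (fun p : R × ℝ => K.q (e.symm p.1.1, p.2)) := by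
    refine K.cq.comp (Continuous.prodMk ?_ continuous_snd)
    exact e.continuousOn_symm.comp_continuous (continuous_subtype_val.comp continuous_fst)
      (fun p => hQ (hR p.1.2))
  obtain ⟨ε, k, h⟩ := vertical_offset (Φ := K.Φ) (A := R) (fun p => K.q (e.symm p.1.1, p.2))
    hcont (a := -1) (b := 1) (by norm_num)
    (fun x h hh => K.hY _ h hh (fun hex => by
      obtain ⟨k, t, h1, h2⟩ := hex
      exact hR0 x.1 x.2 ((hcurve x.1 (hR x.2)).1 ⟨k, t, h1⟩)))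
    (s1 := fun x => s1 (ι x)) (s0 := fun x => s0 (ι x))
    (y1 := fun x => K.fT (e.symm x.1, s1 (ι x))) (y0 := fun x => K.fB (e.symm x.1, s0 (ι x)))
    ⟨hL1.cs.comp hι, hL1.cy.comp hι, fun a => hL1.sq (ι a), fun a => hL1.val (ι a)⟩
    ⟨hL0.cs.comp hι, hL0.cy.comp hι, fun a => hL0.sq (ι a), fun a => hL0.val (ι a)⟩
  exact ⟨ε, k, fun x hx => h ⟨x.1, hx⟩⟩

theorem h399_pair (K : Conf S) (e : OpenPartialHomeomorph S (ℝ × ℝ)) {δ : ℝ}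
    (hQ : Qbox δ ⊆ e.target)
    (hcurve : ∀ x ∈ Qbox δ, e.symm x ∈ K.D.curve ↔ (x.1 = 0 ∨ x.2 = 0))
    {s1 : Qbox δ → Circle} {y1 : Qbox δ → ℝ}
    (hL1 : IsLift K.Φ (fun x : Qbox δ => K.q (e.symm x.1, 1)) s1 y1)
    (W RA RB : Set (ℝ × ℝ)) (hWo : IsOpen W) (hW : W ⊆ Qbox δ) (hRA : RA ⊆ W) (hRB : RB ⊆ W)
    (hcov : ∀ x ∈ W, ¬ (x.1 = 0 ∨ x.2 = 0) → x ∈ RA ∨ x ∈ RB)
    (hRA0 : ∀ x ∈ RA, ¬ (x.1 = 0 ∨ x.2 = 0)) (hRB0 : ∀ x ∈ RB, ¬ (x.1 = 0 ∨ x.2 = 0))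
    (a b : ℤ) (hVa : ∀ x : Qbox δ, x.1 ∈ RA → K.VRel (e.symm x.1) (s1 x) a)
    (hVb : ∀ x : Qbox δ, x.1 ∈ RB → K.VRel (e.symm x.1) (s1 x) b)
    {z : S} (hz : z ∈ e.source) (hzW : e z ∈ W) (hzA : e z ∈ closure RA)
    (hzB : e z ∈ closure RB) : K.Pair z a b := by
  classical
  let sg : S → Circle := fun x => if h : e x ∈ Qbox δ then s1 ⟨e x, h⟩ else 1
  have hsg : ∀ x, ∀ h : e x ∈ Qbox δ, sg x = s1 ⟨e x, h⟩ := fun x h => dif_pos h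
  have hcl : ∀ R : Set (ℝ × ℝ), R ⊆ W → (∀ x ∈ R, ¬ (x.1 = 0 ∨ x.2 = 0)) → e z ∈ closure R →
      z ∈ closure {x | x ∈ {x | x ∈ e.source ∧ e x ∈ R} ∧ x ∉ K.D.curve} := by
    intro R hRW hR0 hzR
    have h1 : ContinuousWithinAt e.symm R (e z) :=
      (e.continuousOn_symm (e z) (hQ (hW hzW))).mono (fun x hx => hQ (hW (hRW hx)))
    have h2 := h1.mem_closure_image hzR
    rw [e.left_inv hz] at h2
    refine closure_mono ?_ h2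
    rintro _ ⟨x, hx, rfl⟩
    have hxt : x ∈ e.target := hQ (hW (hRW hx))
    refine ⟨⟨e.map_target hxt, ?_⟩, fun hc => hR0 x hx ((hcurve x (hW (hRW hx))).1 hc)⟩
    rw [e.right_inv hxt]
    exact hx
  refine K.pair_of_sides (e.source ∩ e ⁻¹' W) (e.isOpen_inter_preimage hWo) ⟨hz, hzW⟩ sg ?_ ?_
    {x | x ∈ e.source ∧ e x ∈ RA} {x | x ∈ e.source ∧ e x ∈ RB} ?_ ?_ ?_
    (hcl RA hRA hRA0 hzA) (hcl RB hRB hRB0 hzB)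
  · rw [continuousOn_iff_continuous_domRestrict]
    have h1 : (e.source ∩ e ⁻¹' W).domRestrict sg =
        fun x : (e.source ∩ e ⁻¹' W : Set S) => s1 ⟨e x.1, hW x.2.2⟩ := by
      funext x
      exact hsg x.1 (hW x.2.2)
    rw [h1]
    refine hL1.cs.comp (Continuous.subtype_mk ?_ _)
    exact (e.continuousOn.mono inter_subset_left).domRestrict
  · rintro x ⟨hx, hxW⟩
    have h1 := hL1.sq ⟨e x, hW hxW⟩
    rw [hsg x (hW hxW), h1]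
    show K.Φ.θ (K.q (e.symm (e x), 1)) = _
    rw [e.left_inv hx]
  · rintro x ⟨hx, hxW⟩ hxc
    have h1 : ¬ ((e x).1 = 0 ∨ (e x).2 = 0) := by
      intro h
      have := (hcurve (e x) (hW hxW)).2 h
      rw [e.left_inv hx] at this
      exact hxc this
    rcases hcov (e x) hxW h1 with h | h
    · exact Or.inl ⟨hx, h⟩
    · exact Or.inr ⟨hx, h⟩
  · rintro x ⟨hx, hxW⟩ hxA _
    have h1 := hVa ⟨e x, hW hxW⟩ hxA.2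
    rw [hsg x (hW hxW)]
    have h2 : e.symm (e x) = x := e.left_inv hx
    rw [h2] at h1
    exact h1
  · rintro x ⟨hx, hxW⟩ hxB _
    have h1 := hVb ⟨e x, hW hxW⟩ hxB.2
    rw [hsg x (hW hxW)]
    have h2 : e.symm (e x) = x := e.left_inv hx
    rw [h2] at h1
    exact h1

theorem h399_section (K : Conf S) (e : OpenPartialHomeomorph S (ℝ × ℝ)) {δ : ℝ} (hδ : 0 < δ)
    (i : Fin K.D.m) (t : ℝ) {m : ℝ} (hz : K.D.pr i t ∈ e.source)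
    (hzQ : e (K.D.pr i t) ∈ Qbox δ) (hh : K.D.ht i t ∈ Set.Ioo m 1) :
    ∃ ε' > 0, ∃ w : ℂ → Qbox δ × ℝ, ContinuousOn w (Metric.ball (K.c i) ε' \ {K.c i}) ∧
      ∀ x ∈ Metric.ball (K.c i) ε' \ {K.c i}, (w x).2 ∈ Set.Ioo m 1 ∧
        K.q (e.symm (w x).1.1, (w x).2) = x := by
  classical
  have hO : IsOpen ((e.source ∩ e ⁻¹' (Qbox δ)) ×ˢ Set.Ioo m 1) :=
    (e.isOpen_inter_preimage (isOpen_Ioo.prod isOpen_Ioo)).prod isOpen_Ioo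
  obtain ⟨ε', hε', w', hw', hw2⟩ := K.hsec i t _ hO ⟨⟨hz, hzQ⟩, hh⟩
  let w : ℂ → Qbox δ × ℝ := fun x =>
    if h : e (w' x).1 ∈ Qbox δ then (⟨e (w' x).1, h⟩, (w' x).2)
    else (⟨(0, 0), ⟨⟨by linarith, hδ⟩, ⟨by linarith, hδ⟩⟩⟩, 0)
  have hw : ∀ x, ∀ h : e (w' x).1 ∈ Qbox δ, w x = (⟨e (w' x).1, h⟩, (w' x).2) :=
    fun x h => dif_pos h
  refine ⟨ε', hε', w, ?_, fun x hx => ?_⟩
  · rw [continuousOn_iff_continuous_domRestrict]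
    have h1 : (Metric.ball (K.c i) ε' \ {K.c i}).domRestrict w =
        fun x : (Metric.ball (K.c i) ε' \ {K.c i} : Set ℂ) =>
          ((⟨e (w' x.1).1, (hw2 x.1 x.2).1.1.2⟩ : Qbox δ), (w' x.1).2) := by
      funext x
      exact hw x.1 (hw2 x.1 x.2).1.1.2
    rw [h1]
    have h2 : Continuous (fun x : (Metric.ball (K.c i) ε' \ {K.c i} : Set ℂ) => w' x.1) :=
      hw'.domRestrict
    refine Continuous.prodMk (Continuous.subtype_mk ?_ _) (continuous_snd.comp h2)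
    exact e.continuousOn.comp_continuous (continuous_fst.comp h2) (fun x => (hw2 x.1 x.2).1.1.1)
  · have h1 := hw2 x hx
    rw [hw x h1.1.1.2]
    refine ⟨h1.1.2, ?_⟩
    show K.q (e.symm (e (w' x).1), (w' x).2) = x
    rw [e.left_inv h1.1.1.1]
    exact h1.2

-- TARGET
/-- Near a crossing of the diagram; the component `i` is on the upper strand. -/
theorem Conf.crossing_pairs (K : Conf S) (i j : Fin K.D.m) (s t : ℝ)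
    (hst : K.D.pr i s = K.D.pr j t) (hht : K.D.ht j t < K.D.ht i s) :
    ∃ V1 V2 V3 V4 : ℤ, V1 + V4 = V2 + V3 ∧ ∃ η > 0,
      (((∀ u ∈ Set.Ioo s (s + η), K.Pair (K.D.pr i u) V1 V4) ∧
        (∀ u ∈ Set.Ioo (s - η) s, K.Pair (K.D.pr i u) V2 V3)) ∨
       ((∀ u ∈ Set.Ioo s (s + η), K.Pair (K.D.pr i u) V2 V3) ∧
        (∀ u ∈ Set.Ioo (s - η) s, K.Pair (K.D.pr i u) V1 V4))) ∧
      (((∀ u ∈ Set.Ioo t (t + η), K.Pair (K.D.pr j u) V1 V2) ∧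
        (∀ u ∈ Set.Ioo (t - η) t, K.Pair (K.D.pr j u) V3 V4)) ∨
       ((∀ u ∈ Set.Ioo t (t + η), K.Pair (K.D.pr j u) V3 V4) ∧
        (∀ u ∈ Set.Ioo (t - η) t, K.Pair (K.D.pr j u) V1 V2))) := by
  obtain ⟨e, δ, hδ, hQ, o, u, m, hm, hco, hcu, hom, hum, hcurve, hgrid, hi, hj, η, hη, hdi, hdj⟩ :=
    K.D.crossing_box i j s t hst hht
  obtain ⟨s1, s0, hL1, hL0⟩ := K.box_sections e hQ
  -- the quadrants
  have hpos : Set.Ioo (0:ℝ) δ ⊆ Set.Ioo (-δ) δ := fun x hx => ⟨by linarith [hx.1], hx.2⟩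
  have hneg : Set.Ioo (-δ) (0:ℝ) ⊆ Set.Ioo (-δ) δ := fun x hx => ⟨hx.1, by linarith [hx.2]⟩
  have hR1 : (Set.Ioo (0:ℝ) δ ×ˢ Set.Ioo (0:ℝ) δ) ⊆ Qbox δ := Set.prod_mono hpos hpos
  have hR2 : (Set.Ioo (-δ) (0:ℝ) ×ˢ Set.Ioo (0:ℝ) δ) ⊆ Qbox δ := Set.prod_mono hneg hpos
  have hR3 : (Set.Ioo (-δ) (0:ℝ) ×ˢ Set.Ioo (-δ) (0:ℝ)) ⊆ Qbox δ := Set.prod_mono hneg hneg
  have hR4 : (Set.Ioo (0:ℝ) δ ×ˢ Set.Ioo (-δ) (0:ℝ)) ⊆ Qbox δ := Set.prod_mono hpos hneg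
  have z1 : ∀ x ∈ (Set.Ioo (0:ℝ) δ ×ˢ Set.Ioo (0:ℝ) δ), ¬ (x.1 = 0 ∨ x.2 = 0) := by
    rintro x ⟨h1, h2⟩ (h | h)
    · exact h1.1.ne' h
    · exact h2.1.ne' h
  have z2 : ∀ x ∈ (Set.Ioo (-δ) (0:ℝ) ×ˢ Set.Ioo (0:ℝ) δ), ¬ (x.1 = 0 ∨ x.2 = 0) := by
    rintro x ⟨h1, h2⟩ (h | h)
    · exact h1.2.ne h
    · exact h2.1.ne' h
  have z3 : ∀ x ∈ (Set.Ioo (-δ) (0:ℝ) ×ˢ Set.Ioo (-δ) (0:ℝ)), ¬ (x.1 = 0 ∨ x.2 = 0) := by
    rintro x ⟨h1, h2⟩ (h | h)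
    · exact h1.2.ne h
    · exact h2.2.ne h
  have z4 : ∀ x ∈ (Set.Ioo (0:ℝ) δ ×ˢ Set.Ioo (-δ) (0:ℝ)), ¬ (x.1 = 0 ∨ x.2 = 0) := by
    rintro x ⟨h1, h2⟩ (h | h)
    · exact h1.1.ne' h
    · exact h2.2.ne h
  obtain ⟨ε1, V1, hV1⟩ := h399_quad K e hQ hcurve hL1 hL0 _ hR1
    (isPreconnected_Ioo.prod isPreconnected_Ioo) z1
  obtain ⟨ε2, V2, hV2⟩ := h399_quad K e hQ hcurve hL1 hL0 _ hR2
    (isPreconnected_Ioo.prod isPreconnected_Ioo) z2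
  obtain ⟨ε3, V3, hV3⟩ := h399_quad K e hQ hcurve hL1 hL0 _ hR3
    (isPreconnected_Ioo.prod isPreconnected_Ioo) z3
  obtain ⟨ε4, V4, hV4⟩ := h399_quad K e hQ hcurve hL1 hL0 _ hR4
    (isPreconnected_Ioo.prod isPreconnected_Ioo) z4
  have hW1 : ∀ x : Qbox δ, x.1 ∈ (Set.Ioo (0:ℝ) δ ×ˢ Set.Ioo (0:ℝ) δ) →
      K.VRel (e.symm x.1) (s1 x) V1 := fun x hx => K.VRel_of_Tr (hL0.sq x) (hV1 x hx)
  have hW2 : ∀ x : Qbox δ, x.1 ∈ (Set.Ioo (-δ) (0:ℝ) ×ˢ Set.Ioo (0:ℝ) δ) →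
      K.VRel (e.symm x.1) (s1 x) V2 := fun x hx => K.VRel_of_Tr (hL0.sq x) (hV2 x hx)
  have hW3 : ∀ x : Qbox δ, x.1 ∈ (Set.Ioo (-δ) (0:ℝ) ×ˢ Set.Ioo (-δ) (0:ℝ)) →
      K.VRel (e.symm x.1) (s1 x) V3 := fun x hx => K.VRel_of_Tr (hL0.sq x) (hV3 x hx)
  have hW4 : ∀ x : Qbox δ, x.1 ∈ (Set.Ioo (0:ℝ) δ ×ˢ Set.Ioo (-δ) (0:ℝ)) →
      K.VRel (e.symm x.1) (s1 x) V4 := fun x hx => K.VRel_of_Tr (hL0.sq x) (hV4 x hx)
  -- the relation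
  have h0Q : ((0, 0) : ℝ × ℝ) ∈ Qbox δ := ⟨⟨by linarith, hδ⟩, ⟨by linarith, hδ⟩⟩
  obtain ⟨t0, ht0, ht0'⟩ := hi 0 ⟨by linarith, hδ⟩
  obtain ⟨ε', hε', w, hw, hw2⟩ := h399_section K e hδ i t0 (m := m)
    (by rw [ht0]; exact e.map_target (hQ h0Q))
    (by rw [ht0, e.right_inv (hQ h0Q)]; exact h0Q)
    (by rw [ht0']; exact hom 0 ⟨by linarith, hδ⟩)
  have hcont : Continuous (fun p : Qbox δ × ℝ => K.q (e.symm p.1.1, p.2)) := by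
    refine K.cq.comp (Continuous.prodMk ?_ continuous_snd)
    exact e.continuousOn_symm.comp_continuous (continuous_subtype_val.comp continuous_fst)
      (fun p => hQ p.1.2)
  have hrel : V1 + V4 = V2 + V3 := by
    refine crossing_relation hδ (fun p : Qbox δ × ℝ => K.q (e.symm p.1.1, p.2)) hcont o u hco hcu
      m hm hom hum ?_ (K.c i) ?_ hL1 hL0 ε1 ε2 ε3 ε4 V1 V2 V3 V4 ?_ ?_ ?_ ?_ (K.hno i) (K.ρ i)
      (K.hloc i) ε' hε' w hw hw2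
    · intro x h hh h1 h2
      refine K.hY _ h hh fun hex => ?_
      rcases (hgrid x.1 x.2 h).1 hex with h3 | h3
      · exact h1 h3
      · exact h2 h3
    · intro x hx
      obtain ⟨t1, ht1, ht1'⟩ := hi x.1.1 x.2.1
      have h1 : x.1 = (x.1.1, 0) := Prod.ext rfl hx
      have h2 := K.hc i t1
      rw [ht1, ht1'] at h2
      show K.q (e.symm x.1, o x.1.1) = K.c i
      rw [h1]
      exact h2
    · exact fun x h1 h2 => hV1 x ⟨⟨h1, x.2.1.2⟩, ⟨h2, x.2.2.2⟩⟩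
    · exact fun x h1 h2 => hV2 x ⟨⟨x.2.1.1, h1⟩, ⟨h2, x.2.2.2⟩⟩
    · exact fun x h1 h2 => hV3 x ⟨⟨x.2.1.1, h1⟩, ⟨x.2.2.1, h2⟩⟩
    · exact fun x h1 h2 => hV4 x ⟨⟨h1, x.2.1.2⟩, ⟨x.2.2.1, h2⟩⟩
  -- the pairs
  have P14 : ∀ z ∈ e.source, (e z).1 ∈ Set.Ioo 0 δ → (e z).2 = 0 → K.Pair z V1 V4 := by
    intro z hz hz1 hz2
    refine h399_pair K e hQ hcurve hL1 (Set.Ioo (0:ℝ) δ ×ˢ Set.Ioo (-δ) δ) _ _
      (isOpen_Ioo.prod isOpen_Ioo) (Set.prod_mono hpos subset_rfl)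
      (Set.prod_mono subset_rfl hpos) (Set.prod_mono subset_rfl hneg) ?_ z1 z4 V1 V4 hW1 hW4 hz
      ?_ ?_ ?_
    · rintro x ⟨h1, h2⟩ h3
      rcases lt_trichotomy x.2 0 with h | h | h
      · exact Or.inr ⟨h1, ⟨h2.1, h⟩⟩
      · exact absurd (Or.inr h) h3
      · exact Or.inl ⟨h1, ⟨h, h2.2⟩⟩
    · exact ⟨hz1, by rw [hz2]; exact ⟨by linarith, hδ⟩⟩
    · rw [closure_prod_eq, closure_Ioo hδ.ne]
      exact ⟨⟨hz1.1.le, hz1.2.le⟩, by rw [hz2]; exact ⟨le_rfl, hδ.le⟩⟩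
    · rw [closure_prod_eq, closure_Ioo hδ.ne, closure_Ioo (by linarith : -δ ≠ 0)]
      exact ⟨⟨hz1.1.le, hz1.2.le⟩, by rw [hz2]; exact ⟨by linarith, le_rfl⟩⟩
  have P23 : ∀ z ∈ e.source, (e z).1 ∈ Set.Ioo (-δ) 0 → (e z).2 = 0 → K.Pair z V2 V3 := by
    intro z hz hz1 hz2
    refine h399_pair K e hQ hcurve hL1 (Set.Ioo (-δ) (0:ℝ) ×ˢ Set.Ioo (-δ) δ) _ _
      (isOpen_Ioo.prod isOpen_Ioo) (Set.prod_mono hneg subset_rfl)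
      (Set.prod_mono subset_rfl hpos) (Set.prod_mono subset_rfl hneg) ?_ z2 z3 V2 V3 hW2 hW3 hz
      ?_ ?_ ?_
    · rintro x ⟨h1, h2⟩ h3
      rcases lt_trichotomy x.2 0 with h | h | h
      · exact Or.inr ⟨h1, ⟨h2.1, h⟩⟩
      · exact absurd (Or.inr h) h3
      · exact Or.inl ⟨h1, ⟨h, h2.2⟩⟩
    · exact ⟨hz1, by rw [hz2]; exact ⟨by linarith, hδ⟩⟩
    · rw [closure_prod_eq, closure_Ioo hδ.ne, closure_Ioo (by linarith : -δ ≠ 0)]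
      exact ⟨⟨hz1.1.le, hz1.2.le⟩, by rw [hz2]; exact ⟨le_rfl, hδ.le⟩⟩
    · rw [closure_prod_eq, closure_Ioo (by linarith : -δ ≠ 0)]
      exact ⟨⟨hz1.1.le, hz1.2.le⟩, by rw [hz2]; exact ⟨by linarith, le_rfl⟩⟩
  have P12 : ∀ z ∈ e.source, (e z).2 ∈ Set.Ioo 0 δ → (e z).1 = 0 → K.Pair z V1 V2 := by
    intro z hz hz1 hz2
    refine h399_pair K e hQ hcurve hL1 (Set.Ioo (-δ) δ ×ˢ Set.Ioo (0:ℝ) δ) _ _
      (isOpen_Ioo.prod isOpen_Ioo) (Set.prod_mono subset_rfl hpos)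
      (Set.prod_mono hpos subset_rfl) (Set.prod_mono hneg subset_rfl) ?_ z1 z2 V1 V2 hW1 hW2 hz
      ?_ ?_ ?_
    · rintro x ⟨h1, h2⟩ h3
      rcases lt_trichotomy x.1 0 with h | h | h
      · exact Or.inr ⟨⟨h1.1, h⟩, h2⟩
      · exact absurd (Or.inl h) h3
      · exact Or.inl ⟨⟨h, h1.2⟩, h2⟩
    · exact ⟨by rw [hz2]; exact ⟨by linarith, hδ⟩, hz1⟩
    · rw [closure_prod_eq, closure_Ioo hδ.ne]
      exact ⟨by rw [hz2]; exact ⟨le_rfl, hδ.le⟩, ⟨hz1.1.le, hz1.2.le⟩⟩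
    · rw [closure_prod_eq, closure_Ioo hδ.ne, closure_Ioo (by linarith : -δ ≠ 0)]
      exact ⟨by rw [hz2]; exact ⟨by linarith, le_rfl⟩, ⟨hz1.1.le, hz1.2.le⟩⟩
  have P34 : ∀ z ∈ e.source, (e z).2 ∈ Set.Ioo (-δ) 0 → (e z).1 = 0 → K.Pair z V3 V4 := by
    intro z hz hz1 hz2
    refine h399_pair K e hQ hcurve hL1 (Set.Ioo (-δ) δ ×ˢ Set.Ioo (-δ) (0:ℝ)) _ _
      (isOpen_Ioo.prod isOpen_Ioo) (Set.prod_mono subset_rfl hneg)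
      (Set.prod_mono hneg subset_rfl) (Set.prod_mono hpos subset_rfl) ?_ z3 z4 V3 V4 hW3 hW4 hz
      ?_ ?_ ?_
    · rintro x ⟨h1, h2⟩ h3
      rcases lt_trichotomy x.1 0 with h | h | h
      · exact Or.inl ⟨⟨h1.1, h⟩, h2⟩
      · exact absurd (Or.inl h) h3
      · exact Or.inr ⟨⟨h, h1.2⟩, h2⟩
    · exact ⟨by rw [hz2]; exact ⟨by linarith, hδ⟩, hz1⟩
    · rw [closure_prod_eq, closure_Ioo (by linarith : -δ ≠ 0)]
      exact ⟨by rw [hz2]; exact ⟨by linarith, le_rfl⟩, ⟨hz1.1.le, hz1.2.le⟩⟩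
    · rw [closure_prod_eq, closure_Ioo hδ.ne, closure_Ioo (by linarith : -δ ≠ 0)]
      exact ⟨by rw [hz2]; exact ⟨le_rfl, hδ.le⟩, ⟨hz1.1.le, hz1.2.le⟩⟩
  refine ⟨V1, V2, V3, V4, hrel, η, hη, ?_, ?_⟩
  · rcases hdi with ⟨ha, hb⟩ | ⟨ha, hb⟩
    · exact Or.inl ⟨fun v hv => P14 _ (ha v hv).1 (ha v hv).2.1 (ha v hv).2.2,
        fun v hv => P23 _ (hb v hv).1 (hb v hv).2.1 (hb v hv).2.2⟩
    · exact Or.inr ⟨fun v hv => P23 _ (ha v hv).1 (ha v hv).2.1 (ha v hv).2.2,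
        fun v hv => P14 _ (hb v hv).1 (hb v hv).2.1 (hb v hv).2.2⟩
  · rcases hdj with ⟨ha, hb⟩ | ⟨ha, hb⟩
    · exact Or.inl ⟨fun v hv => P12 _ (ha v hv).1 (ha v hv).2.1 (ha v hv).2.2,
        fun v hv => P34 _ (hb v hv).1 (hb v hv).2.1 (hb v hv).2.2⟩
    · exact Or.inr ⟨fun v hv => P34 _ (ha v hv).1 (ha v hv).2.1 (ha v hv).2.2,
        fun v hv => P12 _ (hb v hv).1 (hb v hv).2.1 (hb v hv).2.2⟩

end AltGenus562
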