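import Pool.Agent.Helper562.AltG.DefsAll

noncomputable section

namespace AltGenus562

open Set Topology unitInterval

-- TARGET
/-- A telescoping sum around a circle. -/
theorem alternating_sum (K : Set ℝ) (hper : ∀ s, s + 1 ∈ K ↔ s ∈ K)
    (hfin : (K ∩ Set.Ico 0 1).Finite) (sg R L : ℝ → ℤ)
    (psg : ∀ s, sg (s + 1) = sg s) (pR : ∀ s, R (s + 1) = R s) (pL : ∀ s, L (s + 1) = L s)
    (hsg : ∀ s ∈ K, ∀ s' ∈ K, s < s' → (∀ u ∈ Set.Ioo s s', u ∉ K) → sg s' = -sg s)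
    (hRL : ∀ s ∈ K, ∀ s' ∈ K, s < s' → (∀ u ∈ Set.Ioo s s', u ∉ K) → R s = L s') :
    ∑ s ∈ hfin.toFinset, sg s * (R s + L s) = 0 := by
  classical
  have hF : ∀ s, s ∈ hfin.toFinset ↔ s ∈ K ∧ 0 ≤ s ∧ s < 1 := by
    intro s
    rw [Set.Finite.mem_toFinset]
    rfl
  generalize hfin.toFinset = F at hF
  rcases F.eq_empty_or_nonempty with rfl | hne
  · simp
  have hk : 0 < F.card := hne.card_pos
  obtain ⟨k, hkdef⟩ : ∃ k, k = F.card := ⟨_, rfl⟩
  have hk' : 0 < k := by omega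
  set e := F.orderEmbOfFin hkdef.symm with he
  have hemem : ∀ i, e i ∈ F := fun i => F.orderEmbOfFin_mem hkdef.symm i
  have hesurj : ∀ s ∈ F, ∃ i, e i = s := by
    intro s hs
    have := F.range_orderEmbOfFin hkdef.symm
    have h2 : s ∈ Set.range e := by
      rw [he, this]; exact hs
    exact h2
  have hsum : ∀ g : ℝ → ℤ, ∑ s ∈ F, g s = ∑ i : Fin k, g (e i) := by
    intro g
    have := F.map_orderEmbOfFin_univ hkdef.symm
    conv_lhs => rw [← this]
    rw [Finset.sum_map]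
    rfl
  let T : ℕ → ℝ := fun l => if h : l < k then e ⟨l, h⟩ else e ⟨0, hk'⟩ + 1
  have hT : ∀ (l : ℕ) (h : l < k), T l = e ⟨l, h⟩ := fun l h => dif_pos h
  have hTk : T k = e ⟨0, hk'⟩ + 1 := dif_neg (lt_irrefl k)
  have hTK : ∀ l, l ≤ k → T l ∈ K := by
    intro l hl
    rcases hl.lt_or_eq with h | h
    · rw [hT l h]; exact ((hF _).1 (hemem _)).1
    · rw [h, hTk, hper]; exact ((hF _).1 (hemem _)).1
  have hstep : ∀ l, l < k → T l < T (l + 1) ∧ ∀ u ∈ Set.Ioo (T l) (T (l + 1)), u ∉ K := by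
    intro l hl
    rw [hT l hl]
    obtain ⟨-, hl0, hl1⟩ := (hF _).1 (hemem ⟨l, hl⟩)
    rcases Nat.lt_or_ge (l + 1) k with h | h
    · rw [hT (l + 1) h]
      obtain ⟨-, hm0, hm1⟩ := (hF _).1 (hemem ⟨l + 1, h⟩)
      refine ⟨e.lt_iff_lt.2 (by simp), fun u hu huK => ?_⟩
      obtain ⟨j, hj⟩ := hesurj u ((hF u).2 ⟨huK, by linarith [hu.1], by linarith [hu.2]⟩)
      have h1 : (⟨l, hl⟩ : Fin k) < j := e.lt_iff_lt.1 (by rw [hj]; exact hu.1)
      have h2 : j < ⟨l + 1, h⟩ := e.lt_iff_lt.1 (by rw [hj]; exact hu.2)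
      rw [Fin.lt_def] at h1 h2
      simp only at h1 h2
      omega
    · have hlk : l + 1 = k := by omega
      rw [hlk, hTk]
      obtain ⟨-, hm0, hm1⟩ := (hF _).1 (hemem ⟨0, hk'⟩)
      refine ⟨by linarith, fun u hu huK => ?_⟩
      rcases lt_or_ge u 1 with h3 | h3
      · obtain ⟨j, hj⟩ := hesurj u ((hF u).2 ⟨huK, by linarith [hu.1], h3⟩)
        have h1 : (⟨l, hl⟩ : Fin k) < j := e.lt_iff_lt.1 (by rw [hj]; exact hu.1)
        rw [Fin.lt_def] at h1
        simp only at h1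
        have := j.2
        omega
      · have h4 : u - 1 ∈ K := by
          rw [← hper]; simpa using huK
        obtain ⟨j, hj⟩ := hesurj (u - 1) ((hF _).2 ⟨h4, by linarith, by linarith [hu.2]⟩)
        have h1 : j < ⟨0, hk'⟩ := e.lt_iff_lt.1 (by rw [hj]; linarith [hu.2])
        rw [Fin.lt_def] at h1
        simp at h1
  rw [hsum]
  have e1 : ∑ i : Fin k, sg (e i) * (R (e i) + L (e i)) =
      ∑ l ∈ Finset.range k, sg (T l) * (R (T l) + L (T l)) := by
    rw [Finset.sum_range]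
    refine Finset.sum_congr rfl fun i _ => ?_
    rw [hT i i.2]
  rw [e1]
  have e2 : ∀ l ∈ Finset.range k, sg (T l) * (R (T l) + L (T l)) =
      (fun l => sg (T l) * L (T l)) l - (fun l => sg (T l) * L (T l)) (l + 1) := by
    intro l hl
    rw [Finset.mem_range] at hl
    obtain ⟨h1, h2⟩ := hstep l hl
    have h3 := hsg _ (hTK l hl.le) _ (hTK (l + 1) hl) h1 h2
    have h4 := hRL _ (hTK l hl.le) _ (hTK (l + 1) hl) h1 h2
    simp only
    rw [h3, h4]
    ring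
  rw [Finset.sum_congr rfl e2, Finset.sum_range_sub']
  rw [hTk, hT 0 hk', psg, pL, sub_self]

end AltGenus562
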