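import Pool.Agent.Helper562.AltG.DefsAll

noncomputable section

namespace AltGenus562

open Set Topology unitInterval

variable {S : Type} [TopologicalSpace S]

theorem Diagram.pr_int_9564 (D : Diagram S) (i : Fin D.m) (t : ℝ) (a : ℤ) :
    D.pr i (t + a) = D.pr i t := by
  have h : Function.Periodic (D.pr i) 1 := D.per_pr i
  have := h.int_mul a t
  simpa using this

theorem Diagram.ht_int_9564 (D : Diagram S) (i : Fin D.m) (t : ℝ) (a : ℤ) :
    D.ht i (t + a) = D.ht i t := by
  have h : Function.Periodic (D.ht i) 1 := D.per_ht i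
  have := h.int_mul a t
  simpa using this

theorem Diagram.no_triple_9564 (D : Diagram S) {i j k : Fin D.m} {s t v : ℝ}
    (h1 : D.pr i s = D.pr j t) (hne : ¬ (i = j ∧ ∃ a : ℤ, t = s + a)) (h2 : D.pr k v = D.pr i s) :
    (i = k ∧ ∃ a : ℤ, v = s + a) ∨ (j = k ∧ ∃ a : ℤ, v = t + a) := by
  obtain ⟨e, hes, -, δ, hδ, inji, injj, -, -, hcov, -⟩ := D.double i j s t h1 hne
  have hs : s ∈ Set.Ioo (s - δ) (s + δ) := ⟨by linarith, by linarith⟩
  have ht : t ∈ Set.Ioo (t - δ) (t + δ) := ⟨by linarith, by linarith⟩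
  rcases hcov k v (by rw [h2]; exact hes) with ⟨rfl, a, ha⟩ | ⟨rfl, a, ha⟩
  · left
    refine ⟨rfl, -a, ?_⟩
    have h3 : v + a = s := inji ha hs (by rw [D.pr_int_9564, h2])
    push_cast
    linarith
  · right
    refine ⟨rfl, -a, ?_⟩
    have h3 : v + a = t := injj ha ht (by rw [D.pr_int_9564, h2, h1])
    push_cast
    linarith

-- TARGET
/-- There are finitely many crossing times in a period. -/
theorem Diagram.finite_times (D : Diagram S) (i : Fin D.m) :
    ({s | ¬ D.Simple i s} ∩ Set.Ico 0 1).Finite := by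
  apply Set.Finite.of_finite_fibers (D.pr i)
  · apply D.finite.subset
    rintro z ⟨s, ⟨hs, -⟩, rfl⟩
    have hs' : ¬ D.Simple i s := hs
    unfold Diagram.Simple at hs'
    push Not at hs'
    obtain ⟨j, t, h1, h2⟩ := hs'
    exact ⟨i, j, s, t, rfl, h1, fun h => by
      obtain ⟨k, hk⟩ := h.2
      exact h2 h.1 k hk⟩
  · rintro z ⟨s, ⟨hs, -⟩, rfl⟩
    have hs' : ¬ D.Simple i s := hs
    unfold Diagram.Simple at hs'
    push Not at hs'
    obtain ⟨j, t, h1, h2⟩ := hs'
    have hne : ¬ (i = j ∧ ∃ a : ℤ, t = s + a) := fun h => by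
      obtain ⟨k, hk⟩ := h.2
      exact h2 h.1 k hk
    apply (Set.toFinite {Int.fract s, Int.fract t}).subset
    rintro v ⟨⟨-, hv0, hv1⟩, hv⟩
    have hv' : D.pr i v = D.pr i s := hv
    have hfr : Int.fract v = v := Int.fract_eq_self.2 ⟨hv0, hv1⟩
    rcases D.no_triple_9564 h1.symm hne hv' with ⟨-, a, ha⟩ | ⟨-, a, ha⟩
    · left
      rw [← hfr, ha, Int.fract_add_intCast]
    · right
      rw [Set.mem_singleton_iff, ← hfr, ha, Int.fract_add_intCast]

end AltGenus562
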