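import Pool.Agent.Helper562.AltG.DefsAll

noncomputable section

namespace AltGenus562

open Set Topology unitInterval

variable {S : Type} [TopologicalSpace S]

theorem Diagram.pr_int_9566 (D : Diagram S) (i : Fin D.m) (t : ℝ) (a : ℤ) :
    D.pr i (t + a) = D.pr i t := by
  have h : Function.Periodic (D.pr i) 1 := D.per_pr i
  have := h.int_mul a t
  simpa using this

theorem Diagram.ht_int_9566 (D : Diagram S) (i : Fin D.m) (t : ℝ) (a : ℤ) :
    D.ht i (t + a) = D.ht i t := by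
  have h : Function.Periodic (D.ht i) 1 := D.per_ht i
  have := h.int_mul a t
  simpa using this

-- TARGET
/-- No triple points. -/
theorem Diagram.no_triple (D : Diagram S) {i j k : Fin D.m} {s t v : ℝ}
    (h1 : D.pr i s = D.pr j t) (hne : ¬ (i = j ∧ ∃ a : ℤ, t = s + a)) (h2 : D.pr k v = D.pr i s) :
    (i = k ∧ ∃ a : ℤ, v = s + a) ∨ (j = k ∧ ∃ a : ℤ, v = t + a) := by
  obtain ⟨e, hes, -, δ, hδ, inji, injj, -, -, hcov, -⟩ := D.double i j s t h1 hne
  have hs : s ∈ Set.Ioo (s - δ) (s + δ) := ⟨by linarith, by linarith⟩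
  have ht : t ∈ Set.Ioo (t - δ) (t + δ) := ⟨by linarith, by linarith⟩
  rcases hcov k v (by rw [h2]; exact hes) with ⟨rfl, a, ha⟩ | ⟨rfl, a, ha⟩
  · left
    refine ⟨rfl, -a, ?_⟩
    have h3 : v + a = s := inji ha hs (by rw [D.pr_int_9566, h2])
    push_cast
    linarith
  · right
    refine ⟨rfl, -a, ?_⟩
    have h3 : v + a = t := injj ha ht (by rw [D.pr_int_9566, h2, h1])
    push_cast
    linarith

-- TARGET
theorem Diagram.not_simple_iff (D : Diagram S) (i : Fin D.m) (s : ℝ) :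
    ¬ D.Simple i s ↔ D.Over i s ∨ D.Under i s := by
  constructor
  · intro hs'
    unfold Diagram.Simple at hs'
    push Not at hs'
    obtain ⟨j, t, h1, h2⟩ := hs'
    have hne : D.ht i s ≠ D.ht j t := fun h => by
      obtain ⟨h3, k, hk⟩ := D.inj i j s t h1.symm h
      exact h2 h3 k hk
    rcases lt_or_gt_of_ne hne with h | h
    · right
      exact ⟨j, t, h1, h⟩
    · left
      exact ⟨j, t, h1, h⟩
  · intro h hs
    rcases h with ⟨j, t, h1, h2⟩ | ⟨j, t, h1, h2⟩
    · obtain ⟨rfl, k, rfl⟩ := hs j t h1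
      rw [D.ht_int_9566] at h2
      exact lt_irrefl _ h2
    · obtain ⟨rfl, k, rfl⟩ := hs j t h1
      rw [D.ht_int_9566] at h2
      exact lt_irrefl _ h2

-- TARGET
theorem Diagram.over_not_under (D : Diagram S) (i : Fin D.m) (s : ℝ) (h : D.Over i s) :
    ¬ D.Under i s := by
  rintro ⟨k, v, h3, h4⟩
  obtain ⟨j, t, h1, h2⟩ := h
  have hne : ¬ (i = j ∧ ∃ a : ℤ, t = s + a) := by
    rintro ⟨rfl, a, rfl⟩
    rw [D.ht_int_9566] at h2
    exact lt_irrefl _ h2
  rcases D.no_triple h1.symm hne h3 with ⟨rfl, a, rfl⟩ | ⟨rfl, a, rfl⟩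
  · rw [D.ht_int_9566] at h4
    exact lt_irrefl _ h4
  · rw [D.ht_int_9566] at h4
    exact lt_asymm h2 h4

end AltGenus562
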