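import Pool.Agent.Helper562.AltG.DefsAll
import Pool.Agent.Helper562.AltG.P.E1
import Pool.Agent.Helper562.AltG.P.E2
import Pool.Agent.Helper562.AltG.P.E2b

noncomputable section

namespace AltGenus562

open Set Topology unitInterval

variable {S : Type} [TopologicalSpace S]

open Classical in
/-- choose a value -/
def e3pick (p : ℤ → Prop) : ℤ := if h : ∃ v, p v then h.choose else 0

theorem e3pick_spec {p : ℤ → Prop} (h : ∃ v, p v) : p (e3pick p) := by
  unfold e3pick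
  rw [dif_pos h]
  exact h.choose_spec

/-- value immediately to the right -/
def e3RV (P : ℝ → ℤ) (s : ℝ) (v : ℤ) : Prop := ∃ η : ℝ, η > 0 ∧ ∀ u ∈ Set.Ioo s (s + η), P u = v

/-- value immediately to the left -/
def e3LV (P : ℝ → ℤ) (s : ℝ) (v : ℤ) : Prop := ∃ η : ℝ, η > 0 ∧ ∀ u ∈ Set.Ioo (s - η) s, P u = v

theorem e3RV_unique {P : ℝ → ℤ} {s : ℝ} {v v' : ℤ} (h : e3RV P s v) (h' : e3RV P s v') : v = v' := by
  obtain ⟨η, hη, h⟩ := h
  obtain ⟨η', hη', h'⟩ := h'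
  have h0 : 0 < min η η' := lt_min hη hη'
  have h1 := min_le_left η η'
  have h2 := min_le_right η η'
  rw [← h (s + min η η' / 2) ⟨by linarith, by linarith⟩,
    ← h' (s + min η η' / 2) ⟨by linarith, by linarith⟩]

theorem e3LV_unique {P : ℝ → ℤ} {s : ℝ} {v v' : ℤ} (h : e3LV P s v) (h' : e3LV P s v') : v = v' := by
  obtain ⟨η, hη, h⟩ := h
  obtain ⟨η', hη', h'⟩ := h'
  have h0 : 0 < min η η' := lt_min hη hη'
  have h1 := min_le_left η η'
  have h2 := min_le_right η η'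
  rw [← h (s - min η η' / 2) ⟨by linarith, by linarith⟩,
    ← h' (s - min η η' / 2) ⟨by linarith, by linarith⟩]

theorem e3RV_shift {P : ℝ → ℤ} (hP : ∀ s, P (s + 1) = P s) (s : ℝ) : e3RV P (s + 1) = e3RV P s := by
  funext v
  apply propext
  constructor
  · rintro ⟨η, hη, h⟩
    refine ⟨η, hη, fun u hu => ?_⟩
    rw [← hP u]
    exact h (u + 1) ⟨by linarith [hu.1], by linarith [hu.2]⟩
  · rintro ⟨η, hη, h⟩
    refine ⟨η, hη, fun u hu => ?_⟩
    have e : P u = P (u - 1) := by rw [← hP (u - 1)]; ring_nf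
    rw [e]
    exact h (u - 1) ⟨by linarith [hu.1], by linarith [hu.2]⟩

theorem e3LV_shift {P : ℝ → ℤ} (hP : ∀ s, P (s + 1) = P s) (s : ℝ) : e3LV P (s + 1) = e3LV P s := by
  funext v
  apply propext
  constructor
  · rintro ⟨η, hη, h⟩
    refine ⟨η, hη, fun u hu => ?_⟩
    rw [← hP u]
    exact h (u + 1) ⟨by linarith [hu.1], by linarith [hu.2]⟩
  · rintro ⟨η, hη, h⟩
    refine ⟨η, hη, fun u hu => ?_⟩
    have e : P u = P (u - 1) := by rw [← hP (u - 1)]; ring_nf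
    rw [e]
    exact h (u - 1) ⟨by linarith [hu.1], by linarith [hu.2]⟩

theorem e3fract {α : Type*} (g : ℝ → α) (h : ∀ s, g (s + 1) = g s) (s : ℝ) :
    g (Int.fract s) = g s := by
  have hp : Function.Periodic g 1 := h
  have this := hp.sub_zsmul_eq (x := s) ⌊s⌋
  have e : Int.fract s = s - ⌊s⌋ • (1:ℝ) := by
    rw [zsmul_one]
    rfl
  rw [e]
  exact this

theorem e3const {P : ℝ → ℤ} {a b : ℝ}
    (h : ∀ u ∈ Set.Ioo a b, ∃ η > 0, ∀ v ∈ Set.Ioo (u - η) (u + η), P v = P u) :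
    ∀ x ∈ Set.Ioo a b, ∀ y ∈ Set.Ioo a b, P x = P y := by
  intro x hx y hy
  have hc : ContinuousOn P (Set.Ioo a b) := by
    intro u hu
    obtain ⟨η, hη, hv⟩ := h u hu
    apply ContinuousAt.continuousWithinAt
    have : P =ᶠ[𝓝 u] fun _ => P u := by
      filter_upwards [Ioo_mem_nhds (show u - η < u by linarith) (show u < u + η by linarith)] with v hv2
      exact hv v hv2
    exact continuousAt_const.congr this.symm
  exact isPreconnected_Ioo.constant hc hx hy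

-- TARGET
/-- The energy identity. -/
theorem energy (D : Diagram S) (halt : D.Alternating) (P : Fin D.m → ℝ → ℤ)
    (hPper : ∀ i s, P i (s + 1) = P i s)
    (hPloc : ∀ i s, D.Simple i s → ∃ η > 0, ∀ u ∈ Set.Ioo (s - η) (s + η), P i u = P i s)
    (hX : ∀ i j s t, D.pr i s = D.pr j t → D.ht j t < D.ht i s →
      ∃ V1 V2 V3 V4, QuadAt D P i j s t V1 V2 V3 V4) :
    ∀ i j s t, D.pr i s = D.pr j t → D.ht j t < D.ht i s →
      ∀ V1 V2 V3 V4, QuadAt D P i j s t V1 V2 V3 V4 → V1 = V3 ∧ V2 = V4 := by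
  classical
  -- periodicity
  have hprI : ∀ i (s : ℝ) (k : ℤ), D.pr i (s + k) = D.pr i s := by
    intro i s k
    have hp : Function.Periodic (D.pr i) 1 := D.per_pr i
    have := hp.zsmul k s
    simpa using this
  have hhtI : ∀ i (s : ℝ) (k : ℤ), D.ht i (s + k) = D.ht i s := by
    intro i s k
    have hp : Function.Periodic (D.ht i) 1 := D.per_ht i
    have := hp.zsmul k s
    simpa using this
  have hsimp : ∀ i s, ¬ D.Simple i (s + 1) ↔ ¬ D.Simple i s := by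
    intro i s
    apply not_congr
    unfold Diagram.Simple
    rw [D.per_pr i s]
    constructor
    · intro h j t hjt
      obtain ⟨h1, k, hk⟩ := h j t hjt
      exact ⟨h1, k + 1, by rw [hk]; push_cast; ring⟩
    · intro h j t hjt
      obtain ⟨h1, k, hk⟩ := h j t hjt
      exact ⟨h1, k - 1, by rw [hk]; push_cast; ring⟩
  have hover : ∀ i s, D.Over i (s + 1) ↔ D.Over i s := by
    intro i s
    unfold Diagram.Over
    rw [D.per_pr i s, D.per_ht i s]
  -- values at a crossing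
  have hval : ∀ i j s t, ∀ V1 V2 V3 V4, QuadAt D P i j s t V1 V2 V3 V4 →
      (∃ a b, e3RV (P i) s a ∧ e3LV (P i) s b ∧ a + b = V1 * V4 + V2 * V3) ∧
      (∃ a b, e3RV (P j) t a ∧ e3LV (P j) t b ∧ a + b = V1 * V2 + V3 * V4) := by
    rintro i j s t V1 V2 V3 V4 ⟨_, η, hη, h1, h2⟩
    constructor
    · rcases h1 with ⟨hr, hl⟩ | ⟨hr, hl⟩
      · exact ⟨_, _, ⟨η, hη, hr⟩, ⟨η, hη, hl⟩, rfl⟩
      · exact ⟨_, _, ⟨η, hη, hr⟩, ⟨η, hη, hl⟩, by ring⟩
    · rcases h2 with ⟨hr, hl⟩ | ⟨hr, hl⟩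
      · exact ⟨_, _, ⟨η, hη, hr⟩, ⟨η, hη, hl⟩, rfl⟩
      · exact ⟨_, _, ⟨η, hη, hr⟩, ⟨η, hη, hl⟩, by ring⟩
  have hex : ∀ i s, ¬ D.Simple i s → (∃ v, e3RV (P i) s v) ∧ (∃ v, e3LV (P i) s v) := by
    intro i s hs
    rcases (D.not_simple_iff i s).1 hs with ⟨j, t, hjt, hh⟩ | ⟨j, t, hjt, hh⟩
    · obtain ⟨V1, V2, V3, V4, hV⟩ := hX i j s t hjt.symm hh
      obtain ⟨⟨a, b, ha, hb, _⟩, _⟩ := hval i j s t V1 V2 V3 V4 hV
      exact ⟨⟨a, ha⟩, ⟨b, hb⟩⟩
    · obtain ⟨V1, V2, V3, V4, hV⟩ := hX j i t s hjt hh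
      obtain ⟨_, ⟨a, b, ha, hb, _⟩⟩ := hval j i t s V1 V2 V3 V4 hV
      exact ⟨⟨a, ha⟩, ⟨b, hb⟩⟩
  let R : Fin D.m → ℝ → ℤ := fun i s => e3pick (e3RV (P i) s)
  let L : Fin D.m → ℝ → ℤ := fun i s => e3pick (e3LV (P i) s)
  let sg : Fin D.m → ℝ → ℤ := fun i s => if D.Over i s then 1 else -1
  have hR : ∀ i s, ¬ D.Simple i s → e3RV (P i) s (R i s) := fun i s hs => e3pick_spec (hex i s hs).1
  have hL : ∀ i s, ¬ D.Simple i s → e3LV (P i) s (L i s) := fun i s hs => e3pick_spec (hex i s hs).2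
  have hRp : ∀ i s, R i (s + 1) = R i s := by
    intro i s
    simp only [R]
    rw [e3RV_shift (hPper i)]
  have hLp : ∀ i s, L i (s + 1) = L i s := by
    intro i s
    simp only [L]
    rw [e3LV_shift (hPper i)]
  have hsgp : ∀ i s, sg i (s + 1) = sg i s := by
    intro i s
    simp only [sg]
    rw [if_congr (hover i s) rfl rfl]
  -- the alternating sums
  have hsum : ∀ i, ∑ s ∈ (D.finite_times i).toFinset, sg i s * (R i s + L i s) = 0 := by
    intro i
    refine alternating_sum {s | ¬ D.Simple i s} (hsimp i) (D.finite_times i) (sg i) (R i) (L i)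
      (hsgp i) (hRp i) (hLp i) ?_ ?_
    · intro s hs s' hs' hlt hno
      have hno' : ∀ u ∈ Set.Ioo s s', ¬ D.Over i u ∧ ¬ D.Under i u := by
        intro u hu
        have h1 := hno u hu
        have h2 : D.Simple i u := by
          by_contra h3
          exact h1 h3
        constructor
        · intro h3
          exact (D.not_simple_iff i u).2 (Or.inl h3) h2
        · intro h3
          exact (D.not_simple_iff i u).2 (Or.inr h3) h2
      obtain ⟨h1, h2⟩ := halt i s s' hlt hno'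
      simp only [sg]
      by_cases ho : D.Over i s
      · rw [if_pos ho, if_neg (h1 ho)]
      · have hu : D.Under i s := by
          rcases (D.not_simple_iff i s).1 hs with h | h
          · exact absurd h ho
          · exact h
        have ho' : D.Over i s' := by
          rcases (D.not_simple_iff i s').1 hs' with h | h
          · exact h
          · exact absurd h (h2 hu)
        rw [if_neg ho, if_pos ho']
        norm_num
    · intro s hs s' hs' hlt hno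
      obtain ⟨η, hη, h1⟩ := hR i s hs
      obtain ⟨η', hη', h2⟩ := hL i s' hs'
      have hc := e3const (P := P i) (a := s) (b := s') (fun u hu => by
        apply hPloc
        by_contra h3
        exact hno u hu h3)
      have hm1 : 0 < min η (s' - s) := lt_min hη (by linarith)
      have hm2 : 0 < min η' (s' - s) := lt_min hη' (by linarith)
      have a1 := min_le_left η (s' - s)
      have a2 := min_le_right η (s' - s)
      have a3 := min_le_left η' (s' - s)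
      have a4 := min_le_right η' (s' - s)
      rw [← h1 (s + min η (s' - s) / 2) ⟨by linarith, by linarith⟩,
        ← h2 (s' - min η' (s' - s) / 2) ⟨by linarith, by linarith⟩]
      exact hc _ ⟨by linarith, by linarith⟩ _ ⟨by linarith, by linarith⟩
  -- all crossing times
  let T : Fin D.m → Finset ℝ := fun i => (D.finite_times i).toFinset
  have hT : ∀ i s, s ∈ T i ↔ (¬ D.Simple i s ∧ 0 ≤ s ∧ s < 1) := by
    intro i s
    simp only [T, Set.Finite.mem_toFinset]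
    rfl
  let X : Finset (Σ _ : Fin D.m, ℝ) := Finset.univ.sigma T
  let A : (Σ _ : Fin D.m, ℝ) → ℤ := fun x => R x.1 x.2 + L x.1 x.2
  have hXmem : ∀ x, x ∈ X ↔ x.2 ∈ T x.1 := by
    intro x
    simp only [X, Finset.mem_sigma, Finset.mem_univ, true_and]
  have htot : ∑ x ∈ X, (if D.Over x.1 x.2 then (1 : ℤ) else -1) * A x = 0 := by
    rw [Finset.sum_sigma]
    exact Finset.sum_eq_zero (fun i _ => hsum i)
  let O := X.filter (fun x => D.Over x.1 x.2)
  let U := X.filter (fun x => ¬ D.Over x.1 x.2)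
  have hOU : ∑ x ∈ O, A x - ∑ x ∈ U, A x = 0 := by
    rw [← htot, ← Finset.sum_filter_add_sum_filter_not X (fun x => D.Over x.1 x.2)]
    have e1 : ∑ x ∈ X.filter (fun x => D.Over x.1 x.2), (if D.Over x.1 x.2 then (1 : ℤ) else -1) * A x =
        ∑ x ∈ O, A x := by
      apply Finset.sum_congr rfl
      intro x hx
      rw [if_pos (Finset.mem_filter.1 hx).2, one_mul]
    have e2 : ∑ x ∈ X.filter (fun x => ¬ D.Over x.1 x.2), (if D.Over x.1 x.2 then (1 : ℤ) else -1) * A x =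
        -∑ x ∈ U, A x := by
      rw [← Finset.sum_neg_distrib]
      apply Finset.sum_congr rfl
      intro x hx
      rw [if_neg (Finset.mem_filter.1 hx).2]
      ring
    rw [e1, e2]
    ring
  let Tw : (Σ _ : Fin D.m, ℝ) → (Σ _ : Fin D.m, ℝ) → Prop :=
    fun x y => D.pr x.1 x.2 = D.pr y.1 y.2 ∧ D.ht y.1 y.2 < D.ht x.1 x.2
  have hns : ∀ x y, Tw x y → ¬ (x.1 = y.1 ∧ ∃ a : ℤ, y.2 = x.2 + a) := by
    rintro ⟨i, s⟩ ⟨j, t⟩ ⟨_, h2⟩ ⟨h3, a, ha⟩
    simp only at h2 h3 ha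
    subst h3
    rw [ha, hhtI] at h2
    exact lt_irrefl _ h2
  have hfr : ∀ (a b : ℝ) (k : ℤ), 0 ≤ a → a < 1 → 0 ≤ b → b < 1 → b = a + k → b = a := by
    intro a b k ha ha' hb hb' h
    have h1 : (k : ℝ) < 1 := by linarith
    have h2 : (-1 : ℝ) < k := by linarith
    have h3 : k < 1 := by exact_mod_cast h1
    have h4 : -1 < k := by exact_mod_cast h2
    have h5 : k = 0 := by omega
    rw [h, h5]
    simp
  have hlow : ∀ x y y', Tw x y → Tw x y' → y ∈ X → y' ∈ X → y = y' := by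
    rintro ⟨i, s⟩ ⟨j, t⟩ ⟨j', t'⟩ h h' hy hy'
    have h1 := (hT _ _).1 ((hXmem _).1 hy)
    have h2 := (hT _ _).1 ((hXmem _).1 hy')
    rcases D.no_triple h.1 (hns _ _ h) h'.1.symm with h3 | ⟨h3, a, ha⟩
    · exact absurd h3 (hns _ _ h')
    · simp only at h3 ha
      subst h3
      rw [hfr t t' a h1.2.1 h1.2.2 h2.2.1 h2.2.2 ha]
  have hupp : ∀ x x' y, Tw x y → Tw x' y → x ∈ X → x' ∈ X → x = x' := by
    rintro ⟨i, s⟩ ⟨i', s'⟩ ⟨j, t⟩ h h' hy hy'
    have h1 := (hT _ _).1 ((hXmem _).1 hy)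
    have h2 := (hT _ _).1 ((hXmem _).1 hy')
    have hne : ¬ (j = i ∧ ∃ a : ℤ, s = t + a) := by
      rintro ⟨h3, a, ha⟩
      apply hns _ _ h
      refine ⟨h3.symm, -a, ?_⟩
      simp only
      rw [ha]; push_cast; ring
    have hne' : ¬ (j = i' ∧ ∃ a : ℤ, s' = t + a) := by
      rintro ⟨h3, a, ha⟩
      apply hns _ _ h'
      refine ⟨h3.symm, -a, ?_⟩
      simp only
      rw [ha]; push_cast; ring
    have e1 : D.pr j t = D.pr i s := h.1.symm
    have e2 : D.pr i' s' = D.pr j t := h'.1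
    rcases D.no_triple e1 hne e2 with h3 | ⟨h3, a, ha⟩
    · exact absurd h3 hne'
    · subst h3
      rw [hfr s s' a h1.2.1 h1.2.2 h2.2.1 h2.2.2 ha]
  have hTwX : ∀ i j s t, D.pr i s = D.pr j t → D.ht j t < D.ht i s →
      (⟨i, Int.fract s⟩ : Σ _ : Fin D.m, ℝ) ∈ O ∧ (⟨j, Int.fract t⟩ : Σ _ : Fin D.m, ℝ) ∈ U ∧
      Tw ⟨i, Int.fract s⟩ ⟨j, Int.fract t⟩ := by
    intro i j s t h1 h2
    have hTw : Tw ⟨i, Int.fract s⟩ ⟨j, Int.fract t⟩ := by
      constructor
      · simp only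
        rw [e3fract (D.pr i) (D.per_pr i), e3fract (D.pr j) (D.per_pr j)]
        exact h1
      · simp only
        rw [e3fract (D.ht i) (D.per_ht i), e3fract (D.ht j) (D.per_ht j)]
        exact h2
    have ho : D.Over i (Int.fract s) := ⟨j, Int.fract t, hTw.1.symm, hTw.2⟩
    have hu : D.Under j (Int.fract t) := ⟨i, Int.fract s, hTw.1, hTw.2⟩
    have hu' : ¬ D.Over j (Int.fract t) := fun h => D.over_not_under j _ h hu
    refine ⟨?_, ?_, hTw⟩
    · refine Finset.mem_filter.2 ⟨(hXmem _).2 ((hT _ _).2 ⟨(D.not_simple_iff i _).2 (Or.inl ho),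
        Int.fract_nonneg s, Int.fract_lt_one s⟩), ho⟩
    · refine Finset.mem_filter.2 ⟨(hXmem _).2 ((hT _ _).2 ⟨(D.not_simple_iff j _).2 (Or.inr hu),
        Int.fract_nonneg t, Int.fract_lt_one t⟩), hu'⟩
  have hfx : ∀ x ∈ X, Int.fract x.2 = x.2 := by
    intro x hx
    have h1 := (hT _ _).1 ((hXmem _).1 hx)
    exact Int.fract_eq_self.2 ⟨h1.2.1, h1.2.2⟩
  have hOX : ∀ x ∈ O, x ∈ X := fun x hx => (Finset.mem_filter.1 hx).1
  have hUX : ∀ x ∈ U, x ∈ X := fun x hx => (Finset.mem_filter.1 hx).1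
  have hτ : ∀ x, x ∈ O → ∃ y, y ∈ U ∧ Tw x y := by
    intro x hx
    obtain ⟨j, t, hjt, hh⟩ := (Finset.mem_filter.1 hx).2
    obtain ⟨_, h2, h3⟩ := hTwX x.1 j x.2 t hjt.symm hh
    rw [hfx x (hOX x hx)] at h3
    exact ⟨_, h2, h3⟩
  have hτ' : ∀ y, y ∈ U → ∃ x, x ∈ O ∧ Tw x y := by
    intro y hy
    have hns' := ((hT _ _).1 ((hXmem _).1 (hUX y hy))).1
    have hu : D.Under y.1 y.2 := by
      rcases (D.not_simple_iff _ _).1 hns' with h | h
      · exact absurd h (Finset.mem_filter.1 hy).2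
      · exact h
    obtain ⟨i, s, his, hh⟩ := hu
    obtain ⟨h1, _, h3⟩ := hTwX i y.1 s y.2 his hh
    rw [hfx y (hUX y hy)] at h3
    exact ⟨_, h1, h3⟩
  choose! τ hτU hτT using hτ
  have hbij : ∑ x ∈ O, A (τ x) = ∑ y ∈ U, A y := by
    refine Finset.sum_bij (fun x _ => τ x) hτU ?_ ?_ (fun _ _ => rfl)
    · intro x hx x' hx' h
      have h1 := hτT x hx
      have h2 := hτT x' hx'
      rw [← h] at h2
      exact hupp x x' (τ x) h1 h2 (hOX x hx) (hOX x' hx')
    · intro y hy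
      obtain ⟨x, hx, hxy⟩ := hτ' y hy
      exact ⟨x, hx, hlow x (τ x) y (hτT x hx) hxy (hUX _ (hτU x hx)) (hUX y hy)⟩
  have hzero : ∑ x ∈ O, (A (τ x) - A x) = 0 := by
    rw [Finset.sum_sub_distrib, hbij]
    linarith
  have hkey : ∀ i j s t, D.pr i s = D.pr j t → D.ht j t < D.ht i s →
      ∀ V1 V2 V3 V4, QuadAt D P i j s t V1 V2 V3 V4 →
      A ⟨j, t⟩ - A ⟨i, s⟩ = (V1 - V3) ^ 2 := by
    intro i j s t h1 h2 V1 V2 V3 V4 hV
    have hi : ¬ D.Simple i s := (D.not_simple_iff i s).2 (Or.inl ⟨j, t, h1.symm, h2⟩)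
    have hj : ¬ D.Simple j t := (D.not_simple_iff j t).2 (Or.inr ⟨i, s, h1, h2⟩)
    obtain ⟨⟨a, b, ha, hb, hab⟩, ⟨a', b', ha', hb', hab'⟩⟩ := hval i j s t V1 V2 V3 V4 hV
    have e1 : R i s = a := e3RV_unique (hR i s hi) ha
    have e2 : L i s = b := e3LV_unique (hL i s hi) hb
    have e3 : R j t = a' := e3RV_unique (hR j t hj) ha'
    have e4 : L j t = b' := e3LV_unique (hL j t hj) hb'
    have hsumV := hV.1
    have e5 : V4 = V2 + V3 - V1 := by linarith
    simp only [A]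
    rw [e1, e2, e3, e4, hab, hab', e5]
    ring
  have hnn : ∀ x ∈ O, 0 ≤ A (τ x) - A x := by
    rintro ⟨i, s⟩ hx
    have hTw := hτT _ hx
    obtain ⟨V1, V2, V3, V4, hV⟩ := hX i (τ ⟨i, s⟩).1 s (τ ⟨i, s⟩).2 hTw.1 hTw.2
    have := hkey i (τ ⟨i, s⟩).1 s (τ ⟨i, s⟩).2 hTw.1 hTw.2 V1 V2 V3 V4 hV
    have h2 : A (τ ⟨i, s⟩) - A ⟨i, s⟩ = (V1 - V3) ^ 2 := this
    rw [h2]
    positivity
  have hall := (Finset.sum_eq_zero_iff_of_nonneg hnn).1 hzero
  have hAper : ∀ i s, A ⟨i, Int.fract s⟩ = A ⟨i, s⟩ := by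
    intro i s
    simp only [A]
    rw [e3fract (R i) (hRp i), e3fract (L i) (hLp i)]
  intro i j s t h1 h2 V1 V2 V3 V4 hV
  have hk := hkey i j s t h1 h2 V1 V2 V3 V4 hV
  obtain ⟨hO, hU, hTw⟩ := hTwX i j s t h1 h2
  have e0 : τ ⟨i, Int.fract s⟩ = ⟨j, Int.fract t⟩ :=
    hlow _ _ _ (hτT _ hO) hTw (hUX _ (hτU _ hO)) (hUX _ hU)
  have hz := hall _ hO
  rw [e0, hAper, hAper, hk] at hz
  have hz' : V1 - V3 = 0 := by
    have := pow_eq_zero_iff (two_ne_zero) |>.1 hz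
    exact this
  have hs := hV.1
  constructor
  · linarith
  · linarith

end AltGenus562
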