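import Pool.Agent.Helper562.AltG.DefsAll
import Pool.Agent.Helper562.AltG.P.D3
import Pool.Agent.Helper562.AltG.P.D8
import Pool.Agent.Helper562.AltG.P.D9
import Pool.Agent.Helper562.AltG.P.E2
import Pool.Agent.Helper562.AltG.P.E3

noncomputable section

namespace AltGenus562

open Set Topology unitInterval

variable {S : Type} [TopologicalSpace S]

theorem Diagram.simple_of_fract (D : Diagram S) (i : Fin D.m) (u : ℝ)
    (h : D.Simple i (Int.fract u)) : D.Simple i u := by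
  have hper : Function.Periodic (D.pr i) 1 := D.per_pr i
  have e : D.pr i (Int.fract u) = D.pr i u := by
    have := hper.sub_zsmul_eq ⌊u⌋ (x := u)
    rw [zsmul_one] at this
    exact this
  intro j t ht
  obtain ⟨h1, k, hk⟩ := h j t (ht.trans e.symm)
  refine ⟨h1, k - ⌊u⌋, ?_⟩
  rw [hk, Int.fract]
  push_cast
  ring

theorem Diagram.exists_simple (D : Diagram S) (i : Fin D.m) (s η : ℝ) (hη : 0 < η) :
    ∃ u ∈ Set.Ioo s (s + η), D.Simple i u := by
  by_contra hcon
  push Not at hcon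
  have hfin := D.finite_times i
  have hinf : (Set.Ioo s (s + min η 1)).Infinite :=
    Set.Ioo_infinite (by have : 0 < min η 1 := lt_min hη one_pos
                         linarith)
  refine hinf (Set.Finite.of_finite_image (f := Int.fract) (hfin.subset ?_) ?_)
  · rintro _ ⟨u, hu, rfl⟩
    refine ⟨fun h => ?_, Int.fract_nonneg u, Int.fract_lt_one u⟩
    refine hcon u ⟨hu.1, hu.2.trans_le ?_⟩ (D.simple_of_fract i u h)
    have := min_le_left η 1
    linarith
  · intro u hu v hv huv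
    have h1 : u - v = (⌊u⌋ - ⌊v⌋ : ℤ) := by
      have h2 : Int.fract u = Int.fract v := huv
      rw [Int.fract, Int.fract] at h2
      push_cast
      linarith
    have h3 : |u - v| < 1 := by
      have h4 := min_le_right η 1
      rw [abs_lt]
      constructor <;> linarith [hu.1, hu.2, hv.1, hv.2]
    rw [h1] at h3
    have h5 : |(⌊u⌋ - ⌊v⌋ : ℤ)| < 1 := by exact_mod_cast h3
    rw [Int.abs_lt_one_iff] at h5
    rw [h5] at h1
    simpa [sub_eq_zero] using h1

theorem Conf.right_par (K : Conf S) (i : Fin K.D.m) (s η : ℝ) (hη : 0 < η) (a b : ℤ)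
    (h : ∀ u ∈ Set.Ioo s (s + η), K.Pair (K.D.pr i u) a b) : Even (a + b - K.ρ i) := by
  obtain ⟨u, hu, hs⟩ := K.D.exists_simple i s η hη
  obtain ⟨a', b', ⟨r1, hr1⟩, η', hη', h'⟩ := K.edge_pair i u hs
  obtain ⟨-, r2, hr2⟩ := K.Pair_unique (h u hu) (h' u ⟨by linarith, by linarith⟩)
  exact ⟨r1 + r2, by linarith⟩

open Classical in
/-- the product of the two values at a point -/
noncomputable def Conf.prodVal (K : Conf S) (z : S) : ℤ :=
  if h : ∃ ab : ℤ × ℤ, K.Pair z ab.1 ab.2 then h.choose.1 * h.choose.2 else 0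

theorem Conf.prodVal_eq (K : Conf S) {z : S} {a b : ℤ} (h : K.Pair z a b) :
    K.prodVal z = a * b := by
  have h' : ∃ ab : ℤ × ℤ, K.Pair z ab.1 ab.2 := ⟨(a, b), h⟩
  unfold Conf.prodVal
  rw [dif_pos h']
  exact (K.Pair_unique h'.choose_spec h).1

-- TARGET
/-- At a crossing the weights of the two components have the same parity. -/
theorem crossing_parity (K : Conf S) (halt : K.D.Alternating) (i j : Fin K.D.m) (s t : ℝ)
    (hst : K.D.pr i s = K.D.pr j t) (hht : K.D.ht j t < K.D.ht i s) :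
    Even (K.ρ i - K.ρ j) := by
  have hquad : ∀ i j s t, K.D.pr i s = K.D.pr j t → K.D.ht j t < K.D.ht i s →
      ∃ V1 V2 V3 V4, QuadAt K.D (fun i s => K.prodVal (K.D.pr i s)) i j s t V1 V2 V3 V4 ∧
        (Even (V1 + V4 - K.ρ i)) ∧ (Even (V1 + V2 - K.ρ j) ∨ Even (V3 + V4 - K.ρ j)) := by
    intro i j s t h1 h2
    obtain ⟨V1, V2, V3, V4, h3, η, hη, h4, h5⟩ := K.crossing_pairs i j s t h1 h2
    refine ⟨V1, V2, V3, V4, ⟨h3, η, hη, ?_, ?_⟩, ?_, ?_⟩
    · rcases h4 with ⟨h6, h7⟩ | ⟨h6, h7⟩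
      · exact Or.inl ⟨fun u hu => K.prodVal_eq (h6 u hu), fun u hu => K.prodVal_eq (h7 u hu)⟩
      · exact Or.inr ⟨fun u hu => K.prodVal_eq (h6 u hu), fun u hu => K.prodVal_eq (h7 u hu)⟩
    · rcases h5 with ⟨h6, h7⟩ | ⟨h6, h7⟩
      · exact Or.inl ⟨fun u hu => K.prodVal_eq (h6 u hu), fun u hu => K.prodVal_eq (h7 u hu)⟩
      · exact Or.inr ⟨fun u hu => K.prodVal_eq (h6 u hu), fun u hu => K.prodVal_eq (h7 u hu)⟩
    · rcases h4 with ⟨h6, _⟩ | ⟨h6, _⟩
      · exact K.right_par i s η hη _ _ h6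
      · rw [h3]
        exact K.right_par i s η hη _ _ h6
    · rcases h5 with ⟨h6, _⟩ | ⟨h6, _⟩
      · exact Or.inl (K.right_par j t η hη _ _ h6)
      · exact Or.inr (K.right_par j t η hη _ _ h6)
  obtain ⟨V1, V2, V3, V4, hq, hi, hj⟩ := hquad i j s t hst hht
  obtain ⟨h13, h24⟩ := energy K.D halt (fun i s => K.prodVal (K.D.pr i s))
    (fun i s => by simp only [K.D.per_pr]) (fun i s hs => by
      obtain ⟨a, b, _, η, hη, h⟩ := K.edge_pair i s hs
      refine ⟨η, hη, fun u hu => ?_⟩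
      show K.prodVal (K.D.pr i u) = K.prodVal (K.D.pr i s)
      rw [K.prodVal_eq (h u hu), K.prodVal_eq (h s ⟨by linarith, by linarith⟩)])
    (fun i j s t h1 h2 => by
      obtain ⟨V1, V2, V3, V4, h3, _⟩ := hquad i j s t h1 h2
      exact ⟨V1, V2, V3, V4, h3⟩) i j s t hst hht V1 V2 V3 V4 hq
  subst h13 h24
  obtain ⟨r1, hr1⟩ := hi
  rcases hj with ⟨r2, hr2⟩ | ⟨r2, hr2⟩
  · exact ⟨r2 - r1, by linarith⟩
  · exact ⟨r2 - r1, by linarith⟩

end AltGenus562
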