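import Pool.Agent.Helper562.AltG.DefsAll

noncomputable section

namespace AltGenus562

open Set Topology unitInterval

variable {S : Type} [TopologicalSpace S]

-- TARGET
/-- If the projection is connected all weights have the same parity. -/
theorem all_same_parity [T2Space S] (D : Diagram S) (ρ : Fin D.m → ℤ)
    (hconn : IsPreconnected D.curve)
    (hpar : ∀ i j s t, D.pr i s = D.pr j t → D.ht j t < D.ht i s → Even (ρ i - ρ j))
    (i j : Fin D.m) : Even (ρ i - ρ j) := by
  by_contra hodd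
  have hcl : ∀ k, IsClosed (Set.range (D.pr k)) := by
    intro k
    have h1 : Set.range (D.pr k) = D.pr k '' Set.Icc 0 (0 + 1) :=
      (Function.Periodic.image_Icc (f := D.pr k) (c := (1 : ℝ)) (D.per_pr k) one_pos 0).symm
    rw [h1]
    exact (isCompact_Icc.image (D.cont_pr k)).isClosed
  have hA : IsClosed (⋃ k ∈ {k : Fin D.m | Even (ρ i - ρ k)}, Set.range (D.pr k)) :=
    Set.Finite.isClosed_biUnion (Set.toFinite _) (fun k _ => hcl k)
  have hB : IsClosed (⋃ k ∈ {k : Fin D.m | ¬ Even (ρ i - ρ k)}, Set.range (D.pr k)) :=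
    Set.Finite.isClosed_biUnion (Set.toFinite _) (fun k _ => hcl k)
  rw [isPreconnected_closed_iff] at hconn
  obtain ⟨z, -, hzA, hzB⟩ := hconn _ _ hA hB
    (by
      rintro z ⟨k, t, rfl⟩
      by_cases h : Even (ρ i - ρ k)
      · left
        exact Set.mem_biUnion (x := k) h ⟨t, rfl⟩
      · right
        exact Set.mem_biUnion (x := k) h ⟨t, rfl⟩)
    ⟨D.pr i 0, ⟨i, 0, rfl⟩, Set.mem_biUnion (x := i) (by simp) ⟨0, rfl⟩⟩
    ⟨D.pr j 0, ⟨j, 0, rfl⟩, Set.mem_biUnion (x := j) hodd ⟨0, rfl⟩⟩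
  rw [Set.mem_iUnion₂] at hzA hzB
  obtain ⟨k, hk, s, hs⟩ := hzA
  obtain ⟨l, hl, t, ht⟩ := hzB
  rw [Set.mem_setOf_eq] at hk hl
  have hkl : ¬ Even (ρ k - ρ l) := by
    intro h
    apply hl
    have h2 : ρ i - ρ l = (ρ i - ρ k) + (ρ k - ρ l) := by ring
    rw [h2]
    exact hk.add h
  have hpr : D.pr k s = D.pr l t := hs.trans ht.symm
  rcases lt_trichotomy (D.ht k s) (D.ht l t) with h | h | h
  · have h3 := hpar l k t s hpr.symm h
    apply hkl
    have h4 : ρ k - ρ l = -(ρ l - ρ k) := by ring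
    rw [h4]
    exact h3.neg
  · have h3 := (D.inj k l s t hpr h).1
    subst h3
    exact hkl (by simp)
  · exact hkl (hpar k l s t hpr h)

end AltGenus562
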