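import Pool.Agent.Helper562.AltG.DefsAll

noncomputable section

namespace AltGenus562

open Set Topology unitInterval

variable {S : Type} [TopologicalSpace S]

section CellConn

theorem cc_compl_ball (R : ℝ) : IsPreconnected (Metric.closedBall (0 : ℝ × ℝ) R)ᶜ := by
  have h1 : (Metric.closedBall (0 : ℝ × ℝ) R)ᶜ =
      (({p : ℝ × ℝ | R < p.1} ∪ {p | R < p.2}) ∪ {p | p.1 < -R}) ∪ {p | p.2 < -R} := by
    ext p
    have : p ∈ Metric.closedBall (0 : ℝ × ℝ) R ↔ |p.1| ≤ R ∧ |p.2| ≤ R := by
      rw [mem_closedBall_zero_iff, Prod.norm_def, max_le_iff, Real.norm_eq_abs, Real.norm_eq_abs]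
    rw [mem_compl_iff, this, not_and_or, not_le, not_le, lt_abs, lt_abs]
    simp only [mem_union, mem_ofPred_eq]
    constructor
    · rintro ((h | h) | (h | h))
      · exact Or.inl (Or.inl (Or.inl h))
      · exact Or.inl (Or.inr (by linarith))
      · exact Or.inl (Or.inl (Or.inr h))
      · exact Or.inr (by linarith)
    · rintro (((h | h) | h) | h)
      · exact Or.inl (Or.inl h)
      · exact Or.inr (Or.inl h)
      · exact Or.inl (Or.inr (by linarith))
      · exact Or.inr (Or.inr (by linarith))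
  have c1 : Convex ℝ {p : ℝ × ℝ | R < p.1} := (convex_Ioi R).linear_preimage (LinearMap.fst ℝ ℝ ℝ)
  have c2 : Convex ℝ {p : ℝ × ℝ | R < p.2} := (convex_Ioi R).linear_preimage (LinearMap.snd ℝ ℝ ℝ)
  have c3 : Convex ℝ {p : ℝ × ℝ | p.1 < -R} :=
    (convex_Iio (-R)).linear_preimage (LinearMap.fst ℝ ℝ ℝ)
  have c4 : Convex ℝ {p : ℝ × ℝ | p.2 < -R} :=
    (convex_Iio (-R)).linear_preimage (LinearMap.snd ℝ ℝ ℝ)
  rw [h1]
  refine IsPreconnected.union (R + 1, -R - 1) ?_ ?_ (IsPreconnected.union (-R - 1, R + 1) ?_ ?_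
    (IsPreconnected.union (R + 1, R + 1) ?_ ?_ c1.isPreconnected c2.isPreconnected)
    c3.isPreconnected) c4.isPreconnected
  · left; left; change R < R + 1; linarith
  · change -R - 1 < -R; linarith
  · right; change R < R + 1; linarith
  · change -R - 1 < -R; linarith
  · change R < R + 1; linarith
  · change R < R + 1; linarith

theorem cc_closure [LocallyConnectedSpace S] {Γ : Set S} (z : S) (hz : z ∉ Γ) {x : S}
    (hx : x ∈ closure (connectedComponentIn Γᶜ z)) (hxΓ : x ∉ Γ) :
    x ∈ connectedComponentIn Γᶜ z := by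
  set F := connectedComponentIn Γᶜ z with hF
  have hFsub : F ⊆ Γᶜ := connectedComponentIn_subset _ _
  have h1 : IsPreconnected (insert x F) := by
    apply isPreconnected_connectedComponentIn.subset_closure (subset_insert x F)
    rw [insert_subset_iff]
    exact ⟨hx, subset_closure⟩
  have h2 : insert x F ⊆ F := by
    apply h1.subset_connectedComponentIn
    · exact mem_insert_of_mem x (mem_connectedComponentIn hz)
    · rw [insert_subset_iff]
      exact ⟨hxΓ, hFsub⟩
  exact h2 (mem_insert x F)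

theorem cc_main [T2Space S] [CompactSpace S] [ConnectedSpace S]
    [LocallyConnectedSpace S] {Γ : Set S} (hΓ : IsClosed Γ)
    (hcell : ∀ z ∉ Γ, Nonempty (connectedComponentIn Γᶜ z ≃ₜ ℝ × ℝ)) : IsPreconnected Γ := by
  rw [isPreconnected_closed_iff]
  intro A B hA hB hsub hneA hneB
  by_contra hcon
  rw [not_nonempty_iff_eq_empty] at hcon
  set A' := Γ ∩ A with hA'
  set B' := Γ ∩ B with hB'
  have hA'c : IsClosed A' := hΓ.inter hA
  have hB'c : IsClosed B' := hΓ.inter hB
  have hdisj : Disjoint A' B' := by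
    rw [disjoint_iff_inter_eq_empty]
    rw [← hcon]
    ext x
    simp only [hA', hB', mem_inter_iff]
    tauto
  have hun : ∀ x ∈ Γ, x ∈ A' ∨ x ∈ B' := by
    intro x hx
    rcases hsub hx with h | h
    · exact Or.inl ⟨hx, h⟩
    · exact Or.inr ⟨hx, h⟩
  obtain ⟨OA, OB, hOA, hOB, hAO, hBO, hOO⟩ := normal_separation hA'c hB'c hdisj
  -- the claim
  have claim : ∀ z ∉ Γ, (closure (connectedComponentIn Γᶜ z) ∩ A').Nonempty →
      (closure (connectedComponentIn Γᶜ z) ∩ B').Nonempty → False := by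
    intro z hz hca hcb
    set F := connectedComponentIn Γᶜ z with hF
    have hFsub : F ⊆ Γᶜ := connectedComponentIn_subset _ _
    obtain ⟨ψ⟩ := hcell z hz
    -- the compact set
    have hKsub : closure F \ (OA ∪ OB) ⊆ F := by
      rintro x ⟨hx1, hx2⟩
      apply cc_closure z hz hx1
      intro hxΓ
      rcases hun x hxΓ with h | h
      · exact hx2 (Or.inl (hAO h))
      · exact hx2 (Or.inr (hBO h))
    have hKc : IsCompact (closure F \ (OA ∪ OB)) := by
      have : IsClosed (closure F \ (OA ∪ OB)) := isClosed_closure.sdiff (hOA.union hOB)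
      exact this.isCompact
    have hKc' : IsCompact ((Subtype.val : F → S) ⁻¹' (closure F \ (OA ∪ OB))) := by
      rw [Subtype.isCompact_iff]
      rw [Subtype.image_preimage_coe, inter_eq_right.2 hKsub]
      exact hKc
    have hKb : Bornology.IsBounded (ψ '' ((Subtype.val : F → S) ⁻¹' (closure F \ (OA ∪ OB)))) :=
      (hKc'.image ψ.continuous).isBounded
    obtain ⟨R, hR⟩ := hKb.subset_closedBall (0 : ℝ × ℝ)
    set g : ℝ × ℝ → S := fun y => (ψ.symm y : S) with hg
    have hgc : Continuous g := continuous_subtype_val.comp ψ.symm.continuous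
    have hgF : ∀ y, g y ∈ F := fun y => (ψ.symm y).2
    have hgx : ∀ x (hx : x ∈ F), g (ψ ⟨x, hx⟩) = x := fun x hx => by
      simp [hg]
    set W : Set S := g '' (Metric.closedBall (0 : ℝ × ℝ) R)ᶜ with hW
    have hWp : IsPreconnected W := (cc_compl_ball R).image g hgc.continuousOn
    set C : Set S := g '' (Metric.closedBall (0 : ℝ × ℝ) R) with hC
    have hCc : IsClosed C := ((isCompact_closedBall (0 : ℝ × ℝ) R).image hgc).isClosed
    have hCF : C ⊆ F := by
      rintro _ ⟨y, _, rfl⟩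
      exact hgF y
    have hFW : ∀ x ∈ F, x ∉ C → x ∈ W := by
      intro x hx hxC
      refine ⟨ψ ⟨x, hx⟩, fun h => hxC ⟨_, h, hgx x hx⟩, hgx x hx⟩
    have hWO : W ⊆ OA ∪ OB := by
      rintro _ ⟨y, hy, rfl⟩
      by_contra hcon'
      apply hy
      apply hR
      refine ⟨ψ.symm y, ⟨subset_closure (hgF y), hcon'⟩, by simp⟩
    have key : ∀ (O O' : Set S) (P : Set S), IsOpen O' → Disjoint O O' → W ⊆ O → P ⊆ O' →
        P ⊆ Γ → (closure F ∩ P).Nonempty → False := by
      intro O O' P hO' hd hWO' hPO' hPΓ hne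
      obtain ⟨b, hb1, hb2⟩ := hne
      have hbC : b ∉ C := fun h => hFsub (hCF h) (hPΓ hb2)
      have hN : IsOpen (O' \ C) := hO'.sdiff hCc
      obtain ⟨x, hx1, hx2⟩ := mem_closure_iff.1 hb1 (O' \ C) hN ⟨hPO' hb2, hbC⟩
      have hxW := hFW x hx2 hx1.2
      exact Set.disjoint_left.1 hd (hWO' hxW) hx1.1
    rcases hWp.subset_or_subset hOA hOB hOO hWO with h | h
    · exact key OA OB B' hOB hOO h hBO inter_subset_left hcb
    · exact key OB OA A' hOA hOO.symm h hAO inter_subset_left hca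
  -- crossing lemma
  have cross : ∀ (O : Set S), IsPreconnected O → ∀ z ∈ O, z ∈ Γ → ∀ x ∈ O, x ∉ Γ →
      ∃ y ∈ O, y ∈ closure (connectedComponentIn Γᶜ x) ∧ y ∈ Γ := by
    intro O hO z hzO hzΓ x hxO hxΓ
    by_contra hno
    push Not at hno
    set F := connectedComponentIn Γᶜ x with hF
    have hFo : IsOpen F := hΓ.isOpen_compl.connectedComponentIn
    have hxF : x ∈ F := mem_connectedComponentIn hxΓ
    have h1 : O ⊆ F ∪ (closure F)ᶜ := by
      intro y hy
      by_cases hyF : y ∈ closure F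
      · left
        exact cc_closure x hxΓ hyF (hno y hy hyF)
      · right; exact hyF
    have h2 := hO F (closure F)ᶜ hFo isClosed_closure.isOpen_compl h1 ⟨x, hxO, hxF⟩
      ⟨z, hzO, fun h => hno z hzO h hzΓ⟩
    obtain ⟨y, _, hy1, hy2⟩ := h2
    exact hy2 (subset_closure hy1)
  -- the two open sets
  set SA : Set S := {x | x ∈ A' ∨ (x ∉ Γ ∧ ¬ (closure (connectedComponentIn Γᶜ x) ∩ B').Nonempty)}
    with hSA
  set SB : Set S := {x | x ∈ B' ∨ (x ∉ Γ ∧ (closure (connectedComponentIn Γᶜ x) ∩ B').Nonempty)}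
    with hSB
  have hoff : ∀ z ∉ Γ, ∀ x ∈ connectedComponentIn Γᶜ z, x ∉ Γ ∧
      connectedComponentIn Γᶜ x = connectedComponentIn Γᶜ z := by
    intro z hz x hx
    exact ⟨connectedComponentIn_subset _ _ hx, (connectedComponentIn_eq hx).symm⟩
  have hSAo : IsOpen SA := by
    rw [isOpen_iff_mem_nhds]
    intro z hz
    rcases hz with hz | ⟨hz, hz2⟩
    · have hzB : z ∈ B'ᶜ := fun h => Set.disjoint_left.1 hdisj hz h
      obtain ⟨O, ⟨hO1, hO2, hO3⟩, hO4⟩ :=
        (LocallyConnectedSpace.open_connected_basis z).mem_iff.1 (hB'c.isOpen_compl.mem_nhds hzB)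
      refine Filter.mem_of_superset (hO1.mem_nhds hO2) (fun x hx => ?_)
      by_cases hxΓ : x ∈ Γ
      · rcases hun x hxΓ with h | h
        · exact Or.inl h
        · exact absurd h (hO4 hx)
      · refine Or.inr ⟨hxΓ, fun hcb => ?_⟩
        obtain ⟨y, hy1, hy2, hy3⟩ := cross O hO3.isPreconnected z hO2 hz.1 x hx hxΓ
        have hyA : y ∈ A' := by
          rcases hun y hy3 with h | h
          · exact h
          · exact absurd h (hO4 hy1)
        exact claim x hxΓ ⟨y, hy2, hyA⟩ hcb
    · have hFo : IsOpen (connectedComponentIn Γᶜ z) := hΓ.isOpen_compl.connectedComponentIn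
      refine Filter.mem_of_superset (hFo.mem_nhds (mem_connectedComponentIn hz)) (fun x hx => ?_)
      obtain ⟨h1, h2⟩ := hoff z hz x hx
      exact Or.inr ⟨h1, by rw [h2]; exact hz2⟩
  have hSBo : IsOpen SB := by
    rw [isOpen_iff_mem_nhds]
    intro z hz
    rcases hz with hz | ⟨hz, hz2⟩
    · have hzA : z ∈ A'ᶜ := fun h => Set.disjoint_left.1 hdisj h hz
      obtain ⟨O, ⟨hO1, hO2, hO3⟩, hO4⟩ :=
        (LocallyConnectedSpace.open_connected_basis z).mem_iff.1 (hA'c.isOpen_compl.mem_nhds hzA)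
      refine Filter.mem_of_superset (hO1.mem_nhds hO2) (fun x hx => ?_)
      by_cases hxΓ : x ∈ Γ
      · rcases hun x hxΓ with h | h
        · exact absurd h (hO4 hx)
        · exact Or.inl h
      · refine Or.inr ⟨hxΓ, ?_⟩
        obtain ⟨y, hy1, hy2, hy3⟩ := cross O hO3.isPreconnected z hO2 hz.1 x hx hxΓ
        have hyB : y ∈ B' := by
          rcases hun y hy3 with h | h
          · exact absurd h (hO4 hy1)
          · exact h
        exact ⟨y, hy2, hyB⟩
    · have hFo : IsOpen (connectedComponentIn Γᶜ z) := hΓ.isOpen_compl.connectedComponentIn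
      refine Filter.mem_of_superset (hFo.mem_nhds (mem_connectedComponentIn hz)) (fun x hx => ?_)
      obtain ⟨h1, h2⟩ := hoff z hz x hx
      exact Or.inr ⟨h1, by rw [h2]; exact hz2⟩
  have hcover : (univ : Set S) ⊆ SA ∪ SB := by
    intro x _
    by_cases hxΓ : x ∈ Γ
    · rcases hun x hxΓ with h | h
      · exact Or.inl (Or.inl h)
      · exact Or.inr (Or.inl h)
    · by_cases hcb : (closure (connectedComponentIn Γᶜ x) ∩ B').Nonempty
      · exact Or.inr (Or.inr ⟨hxΓ, hcb⟩)
      · exact Or.inl (Or.inr ⟨hxΓ, hcb⟩)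
  obtain ⟨a, ha⟩ := hneA
  obtain ⟨b, hb⟩ := hneB
  obtain ⟨x, -, hx1, hx2⟩ := isPreconnected_univ SA SB hSAo hSBo hcover
    ⟨a, mem_univ a, Or.inl ha⟩ ⟨b, mem_univ b, Or.inl hb⟩
  rcases hx1 with h1 | ⟨h1, h1'⟩
  · rcases hx2 with h2 | ⟨h2, -⟩
    · exact Set.disjoint_left.1 hdisj h1 h2
    · exact h2 h1.1
  · rcases hx2 with h2 | ⟨-, h2'⟩
    · exact h1 h2.1
    · exact h1' h2'

end CellConn

-- TARGET
/-- The projection of a cellular diagram on a connected surface is connected. -/
theorem curve_preconnected [T2Space S] [CompactSpace S] [ConnectedSpace S]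
    [LocallyConnectedSpace S] (D : Diagram S) (hcell : D.Cellular) :
    IsPreconnected D.curve := by
  have h1 : D.curve = ⋃ i, Set.range (D.pr i) := by
    ext z
    simp [Diagram.curve]
  have h2 : IsCompact D.curve := by
    rw [h1]
    exact isCompact_iUnion fun i =>
      Function.Periodic.compact_of_continuous (f := D.pr i) (c := 1) (D.per_pr i) one_ne_zero
        (D.cont_pr i)
  exact cc_main h2.isClosed hcell

end AltGenus562
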