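import Pool.Agent.Helper562.AltG.DefsAll
import Pool.Agent.Helper562.AltG.P.C6
import Pool.Agent.Helper562.AltG.P.E4
import Pool.Agent.Helper562.AltG.P.E5
import Pool.Agent.Helper562.AltG.P.E6

noncomputable section

namespace AltGenus562

open Set Topology unitInterval

variable {S : Type} [TopologicalSpace S]

-- TARGET
/-- The main theorem on the surface side. -/
theorem main_abstract {n g : ℕ} (Ψ : NSys n) (c : Fin n → ℂ) (hcinj : Function.Injective c)
    (hYc : ∀ x, x ∈ Ψ.Y ↔ ∀ k, x ≠ c k) (hno : ∀ k r, NoSqrt (Ψ.comb r) (c k))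
    (hloc : ∀ k r, LocLog (Ψ.comb r) (c k) (r k)) (hS : IsClosedSurface S g)
    (D : Diagram S) (halt : D.Alternating) (hcell : D.Cellular)
    (q : S × ℝ → ℂ) (hq : Continuous q)
    (hqc : ∀ z, ∀ h ∈ Set.Icc (-1 : ℝ) 1, (∃ k, q (z, h) = c k) ↔
      ∃ i t, D.pr i t = z ∧ D.ht i t = h)
    (hsurj : ∀ k, ∃ z, ∃ h ∈ Set.Icc (-1 : ℝ) 1, q (z, h) = c k)
    (hsec : ∀ i t k, q (D.pr i t, D.ht i t) = c k → ∀ O : Set (S × ℝ), IsOpen O →
      (D.pr i t, D.ht i t) ∈ O →
      ∃ ε > 0, ∃ w : ℂ → S × ℝ, ContinuousOn w (Metric.ball (c k) ε \ {c k}) ∧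
        ∀ x ∈ Metric.ball (c k) ε \ {c k}, w x ∈ O ∧ q (w x) = x) :
    n ≤ 4 * g + 1 := by
  classical
  by_contra hcon
  have hn : 4 * g + 2 ≤ n := by omega
  haveI := hS.t2
  haveI := hS.compact
  haveI := hS.connected
  letI : ChartedSpace (ℝ × ℝ) S :=
    { atlas := Set.univ
      chartAt := fun z => (hS.chart z).choose
      mem_chart_source := fun z => (hS.chart z).choose_spec
      chart_mem_atlas := fun z => Set.mem_univ _ }
  haveI : LocallyPathConnectedSpace S := ChartedSpace.locallyPathConnectedSpace (ℝ × ℝ) S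
  haveI : LocallyConnectedSpace S := inferInstance
  haveI : PathConnectedSpace S := pathConnectedSpace_iff_connectedSpace.2 hS.connected
  have hYT : ∀ z, q (z, 1) ∈ Ψ.Y := by
    intro z
    rw [hYc]
    intro k hk
    obtain ⟨i, t, _, h2⟩ := (hqc z 1 ⟨by norm_num, le_rfl⟩).1 ⟨k, hk⟩
    have := (D.ht_mem i t).2
    rw [h2] at this
    exact lt_irrefl _ this
  have hYB : ∀ z, q (z, -1) ∈ Ψ.Y := by
    intro z
    rw [hYc]
    intro k hk
    obtain ⟨i, t, _, h2⟩ := (hqc z (-1) ⟨le_rfl, by norm_num⟩).1 ⟨k, hk⟩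
    have := (D.ht_mem i t).1
    rw [h2] at this
    exact lt_irrefl _ this
  obtain ⟨r, fT, fB, ⟨i0, hi0⟩, ⟨j0, hj0⟩, hT, hB⟩ := exists_reduction Ψ hn hS.genus
    (fun z => q (z, 1)) (fun z => q (z, -1)) (hq.comp (by fun_prop)) (hq.comp (by fun_prop)) hYT hYB
  -- the puncture of each component
  have hmem : ∀ i t, D.ht i t ∈ Set.Icc (-1 : ℝ) 1 := fun i t =>
    ⟨(D.ht_mem i t).1.le, (D.ht_mem i t).2.le⟩
  have hex : ∀ i t, q (D.pr i t, D.ht i t) ∈ Set.range c := by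
    intro i t
    obtain ⟨k, hk⟩ := (hqc (D.pr i t) (D.ht i t) (hmem i t)).2 ⟨i, t, rfl, rfl⟩
    exact ⟨k, hk.symm⟩
  have hconst : ∀ i, ∃ k, ∀ t, q (D.pr i t, D.ht i t) = c k := by
    intro i
    have hcont : Continuous (fun t => q (D.pr i t, D.ht i t)) :=
      hq.comp ((D.cont_pr i).prodMk (D.cont_ht i))
    obtain ⟨y, ⟨k, rfl⟩, hy⟩ := isPreconnected_univ.eqOn_const_of_mapsTo
      (T := Set.range c) (Set.finite_range c).isDiscrete hcont.continuousOn
      (fun t _ => hex i t) ⟨c i0, ⟨i0, rfl⟩⟩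
    exact ⟨k, fun t => hy (Set.mem_univ t)⟩
  choose k hk using hconst
  let K : Conf S :=
    { D := D
      Φ := Ψ.comb r
      q := q
      fT := fT
      fB := fB
      c := fun i => c (k i)
      ρ := fun i => r (k i)
      cq := hq
      hT := hT
      hB := hB
      hY := fun z h hh hne => (hYc _).2 (fun l hl => hne ((hqc z h hh).1 ⟨l, hl⟩))
      hc := hk
      hno := fun i => hno (k i) r
      hloc := fun i => hloc (k i) r
      hsec := fun i t O hO hm => hsec i t (k i) (hk i t) O hO hm }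
  have hpar : ∀ i j s t, D.pr i s = D.pr j t → D.ht j t < D.ht i s → Even (r (k i) - r (k j)) :=
    fun i j s t h1 h2 => crossing_parity K halt i j s t h1 h2
  have hall := all_same_parity D (fun i => r (k i)) (curve_preconnected D hcell) hpar
  have hfind : ∀ l, ∃ i, k i = l := by
    intro l
    obtain ⟨z, h, hh, hz⟩ := hsurj l
    obtain ⟨i, t, h1, h2⟩ := (hqc z h hh).1 ⟨l, hz⟩
    refine ⟨i, hcinj ?_⟩
    rw [← hk i t, h1, h2, hz]
  obtain ⟨i1, hi1⟩ := hfind i0
  obtain ⟨j1, hj1⟩ := hfind j0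
  have h1 := hall i1 j1
  simp only [hi1, hj1] at h1
  exact (Int.not_even_iff_odd.2 (hi0.sub_even hj0)) h1

end AltGenus562
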